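import Pool.Agent.Work.MP_c71557_gt.E.Nb

/-!
# MP_c71557_gt, block E: bases of `F0`, `F1`, `F2` (all proofs complete)

`e0 x`, `e1 κ`, `e2 c`: the classes of a point, a chord, a 2-cell; `lift0`, `lift1`, `lift2`:
linear maps out of them.
-/

set_option autoImplicit false
set_option linter.unusedVariables false

noncomputable section

namespace C715

open CategoryTheory

section gen

variable {X V : Type} [AddCommGroup V] [Module ℚ V]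

/-- `ℚ[X]/ℚ[Y]` -/
abbrev QX (Y : Set X) : Type := (X →₀ ℚ) ⧸ Finsupp.supported ℚ ℚ Y

/-- linear extension -/
def lX (φ : X → V) : (X →₀ ℚ) →ₗ[ℚ] V := Finsupp.lsum ℚ fun x => LinearMap.toSpanSingleton ℚ V (φ x)

theorem lX_single (φ : X → V) (x : X) (a : ℚ) : lX φ (Finsupp.single x a) = a • φ x := by
  unfold lX
  rw [Finsupp.lsum_single, LinearMap.toSpanSingleton_apply]

theorem lX_supp (Y : Set X) (φ : X → V) (h : ∀ x ∈ Y, φ x = 0) :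
    Finsupp.supported ℚ ℚ Y ≤ LinearMap.ker (lX φ) := by
  intro z hz
  rw [Finsupp.mem_supported] at hz
  rw [LinearMap.mem_ker]
  unfold lX
  rw [Finsupp.lsum_apply]
  refine Finset.sum_eq_zero fun x hx => ?_
  change LinearMap.toSpanSingleton ℚ V (φ x) (z x) = 0
  rw [LinearMap.toSpanSingleton_apply, h x (hz hx), smul_zero]

/-- linear maps out of `ℚ[X]/ℚ[Y]` -/
def qX (Y : Set X) (φ : X → V) (h : ∀ x ∈ Y, φ x = 0) : QX Y →ₗ[ℚ] V :=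
  Submodule.liftQ _ (lX φ) (lX_supp Y φ h)

theorem qX_mk (Y : Set X) (φ : X → V) (h : ∀ x ∈ Y, φ x = 0) (x : X) :
    qX Y φ h (Submodule.Quotient.mk (Finsupp.single x 1)) = φ x := by
  change lX φ (Finsupp.single x 1) = φ x
  rw [lX_single, one_smul]

theorem qX_zero (Y : Set X) {x : X} (h : x ∈ Y) :
    (Submodule.Quotient.mk (Finsupp.single x 1) : QX Y) = 0 := by
  refine (Submodule.Quotient.mk_eq_zero _).2 ?_
  rw [Finsupp.mem_supported]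
  intro y hy
  have h1 := Finsupp.support_single_subset hy
  rw [Finset.mem_singleton.1 h1]
  exact h

theorem lX_ext {f g : (X →₀ ℚ) →ₗ[ℚ] V} (h : ∀ x, f (Finsupp.single x 1) = g (Finsupp.single x 1)) :
    f = g := by
  refine Finsupp.lhom_ext fun x a => ?_
  have h1 : (Finsupp.single x a : X →₀ ℚ) = a • Finsupp.single x 1 := by
    rw [Finsupp.smul_single, smul_eq_mul, mul_one]
  rw [h1, map_smul, map_smul, h]

theorem qX_ext (Y : Set X) {f g : QX Y →ₗ[ℚ] V}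
    (h : ∀ x, f (Submodule.Quotient.mk (Finsupp.single x 1)) =
      g (Submodule.Quotient.mk (Finsupp.single x 1))) : f = g :=
  Submodule.linearMap_qext _ (lX_ext h)

/-- linear maps out of the antisymmetric quotient -/
def aX (Y : Set X) (ι : QX Y →ₗ[ℚ] QX Y) (s : X → X)
    (hι : ∀ x, ι (Submodule.Quotient.mk (Finsupp.single x 1)) =
      Submodule.Quotient.mk (Finsupp.single (s x) 1)) (φ : X → V) (h : ∀ x ∈ Y, φ x = 0)
    (h' : ∀ x, φ (s x) = -φ x) :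
    (QX Y ⧸ LinearMap.range (LinearMap.id + ι)) →ₗ[ℚ] V :=
  Submodule.liftQ _ (qX Y φ h) (by
    rintro _ ⟨y, rfl⟩
    rw [LinearMap.mem_ker]
    have : (qX Y φ h).comp (LinearMap.id + ι) = 0 := by
      refine qX_ext Y fun x => ?_
      rw [LinearMap.comp_apply, LinearMap.add_apply, LinearMap.id_apply, hι, map_add, qX_mk,
        qX_mk, h', add_neg_cancel, LinearMap.zero_apply]
    exact LinearMap.congr_fun this y)

end gen

namespace FGeo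

variable (𝔾 : FGeo) (c : 𝔾.Str.Obj)

/-- class of a point -/
def e0 (x : 𝔾.S0.X c.o) : 𝔾.F0.M c := Submodule.Quotient.mk (Finsupp.single x 1)

/-- class of a chord -/
def e1 (x : 𝔾.S1.X c.o) : 𝔾.F1.M c :=
  Submodule.Quotient.mk (Submodule.Quotient.mk (Finsupp.single x 1) : 𝔾.F1or.M c)

/-- class of a 2-cell -/
def e2 (x : 𝔾.S2.X c.o) : 𝔾.F2.M c := Finsupp.single x 1

theorem e0_NV {x : 𝔾.S0.X c.o} (h : x ∈ NV c.o.1.1 c.o.1.2) : 𝔾.e0 c x = 0 :=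
  qX_zero (NV c.o.1.1 c.o.1.2) h

theorem e1_NW {x : 𝔾.S1.X c.o} (h : x ∈ NW c.o.1.1 c.o.1.2) : 𝔾.e1 c x = 0 := by
  have h1 : (Submodule.Quotient.mk (Finsupp.single x 1) : 𝔾.F1or.M c) = 0 :=
    qX_zero (NW c.o.1.1 c.o.1.2) h
  unfold e1
  rw [h1]
  exact Submodule.Quotient.mk_zero _

theorem swH_single (x : 𝔾.S1.X c.o) :
    𝔾.swH.f c (Submodule.Quotient.mk (Finsupp.single x 1)) =
      Submodule.Quotient.mk (Finsupp.single (sw x) 1) :=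
  congrArg Submodule.Quotient.mk Finsupp.mapDomain_single

theorem e1_sw (x : 𝔾.S1.X c.o) : 𝔾.e1 c (sw x) = -𝔾.e1 c x := by
  rw [← add_eq_zero_iff_eq_neg, add_comm]
  refine (Submodule.Quotient.mk_eq_zero _).2 ⟨Submodule.Quotient.mk (Finsupp.single x 1), ?_⟩
  exact congrArg (fun z : 𝔾.F1or.M c => Submodule.Quotient.mk (Finsupp.single x 1) + z)
    (𝔾.swH_single c x)

variable {c}

/-- linear maps out of `F0` -/
def lift0 {V : Type} [AddCommGroup V] [Module ℚ V] (φ : 𝔾.S0.X c.o → V)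
    (h : ∀ x ∈ NV c.o.1.1 c.o.1.2, φ x = 0) : 𝔾.F0.M c →ₗ[ℚ] V :=
  qX (NV c.o.1.1 c.o.1.2) φ h

theorem lift0_e0 {V : Type} [AddCommGroup V] [Module ℚ V] (φ : 𝔾.S0.X c.o → V)
    (h : ∀ x ∈ NV c.o.1.1 c.o.1.2, φ x = 0) (x : 𝔾.S0.X c.o) :
    𝔾.lift0 φ h (𝔾.e0 c x) = φ x := qX_mk (NV c.o.1.1 c.o.1.2) φ h x

theorem ext0 {V : Type} [AddCommGroup V] [Module ℚ V] {f g : 𝔾.F0.M c →ₗ[ℚ] V}
    (h : ∀ x, f (𝔾.e0 c x) = g (𝔾.e0 c x)) : f = g := qX_ext (NV c.o.1.1 c.o.1.2) h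

/-- linear maps out of `F1` -/
def lift1 {V : Type} [AddCommGroup V] [Module ℚ V] (φ : 𝔾.S1.X c.o → V)
    (h : ∀ x ∈ NW c.o.1.1 c.o.1.2, φ x = 0) (h' : ∀ x, φ (sw x) = -φ x) : 𝔾.F1.M c →ₗ[ℚ] V :=
  aX (NW c.o.1.1 c.o.1.2) (𝔾.swH.f c) sw (𝔾.swH_single c) φ h h'

theorem lift1_e1 {V : Type} [AddCommGroup V] [Module ℚ V] (φ : 𝔾.S1.X c.o → V)
    (h : ∀ x ∈ NW c.o.1.1 c.o.1.2, φ x = 0) (h' : ∀ x, φ (sw x) = -φ x) (x : 𝔾.S1.X c.o) :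
    𝔾.lift1 φ h h' (𝔾.e1 c x) = φ x := qX_mk (NW c.o.1.1 c.o.1.2) φ h x

theorem ext1 {V : Type} [AddCommGroup V] [Module ℚ V] {f g : 𝔾.F1.M c →ₗ[ℚ] V}
    (h : ∀ x, f (𝔾.e1 c x) = g (𝔾.e1 c x)) : f = g :=
  Submodule.linearMap_qext _ (qX_ext (NW c.o.1.1 c.o.1.2) h)

/-- linear maps out of `F2` -/
def lift2 {V : Type} [AddCommGroup V] [Module ℚ V] (φ : 𝔾.S2.X c.o → V) :
    𝔾.F2.M c →ₗ[ℚ] V := lX φ

theorem lift2_e2 {V : Type} [AddCommGroup V] [Module ℚ V] (φ : 𝔾.S2.X c.o → V)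
    (x : 𝔾.S2.X c.o) : 𝔾.lift2 φ (𝔾.e2 c x) = φ x := by
  change lX φ (Finsupp.single x 1) = φ x
  rw [lX_single, one_smul]

theorem ext2 {V : Type} [AddCommGroup V] [Module ℚ V] {f g : 𝔾.F2.M c →ₗ[ℚ] V}
    (h : ∀ x, f (𝔾.e2 c x) = g (𝔾.e2 c x)) : f = g := lX_ext h

theorem map_e0 {a b : 𝔾.Str.Ob} {g : FGr} (hg : 𝔾.Str.Adm a g b) (x : 𝔾.S0.X a) :
    𝔾.F0.map (𝔾.Str.hom g hg) (𝔾.e0 ⟨a⟩ x) = 𝔾.e0 ⟨b⟩ (𝔾.S0.act hg x) :=
  congrArg Submodule.Quotient.mk Finsupp.mapDomain_single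

theorem map_e1 {a b : 𝔾.Str.Ob} {g : FGr} (hg : 𝔾.Str.Adm a g b) (x : 𝔾.S1.X a) :
    𝔾.F1.map (𝔾.Str.hom g hg) (𝔾.e1 ⟨a⟩ x) = 𝔾.e1 ⟨b⟩ (𝔾.S1.act hg x) :=
  congrArg Submodule.Quotient.mk (congrArg Submodule.Quotient.mk Finsupp.mapDomain_single)

theorem map_e2 {a b : 𝔾.Str.Ob} {g : FGr} (hg : 𝔾.Str.Adm a g b) (x : 𝔾.S2.X a) :
    𝔾.F2.map (𝔾.Str.hom g hg) (𝔾.e2 ⟨a⟩ x) = 𝔾.e2 ⟨b⟩ (𝔾.S2.act hg x) :=
  Finsupp.mapDomain_single

end FGeo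
end C715
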