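import Pool.Agent.Work.MP_c71557_gt.E.Defs

/-!
# MP_c71557_gt, module E/Cell (S-M)

* `exists_two`: a nonempty open set contains a point on no line of `A`. Proof: for every `l : Ln`
  the set `{x | l.ev x ≠ 0}` is open (`Ln.continuous_ev`) and dense (if `l.ev x = 0` then
  `l.ev (x + t • (l.a, l.b)) = t * (l.a ^ 2 + l.b ^ 2) ≠ 0` for `t ≠ 0`, `t → 0`); a finite
  intersection of open dense sets is dense (`Finset` induction, `Dense.inter_of_isOpen_left`), so it
  meets the nonempty open set `U` (`Dense.inter_open_nonempty`).
* `cell_const`: let `x, y ∈ U` lie on no line of `A` and on the same sides of all lines. By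
  convexity and since `l.ev` is affine, every point of the segment is in `U` and has
  `l.ev ≠ 0` (same strict sign) for `l ∈ A`, so `Two U A` holds on the segment; `f` is locally
  constant there, the segment is preconnected (`(convex_segment x y).isPreconnected`): `f x = f y`.
  (E.g. `g t = f (x + t • (y - x))` on `Set.Icc 0 1`; or `IsPreconnected.constant_of_mapsTo` /
  `IsPreconnected.constant` with the discrete topology: `fun t => f t` is continuous on the segment
  as a map to `ℚ` with the discrete topology; any proof is fine.)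
-/

set_option autoImplicit false
set_option linter.unusedVariables false

namespace C715

theorem exists_two (U : Set P2) (hU : IsOpen U) (hne : U.Nonempty) (A : Finset Ln) :
    ∃ x, Two U A x := by
  classical
  induction A using Finset.induction_on generalizing U with
  | empty =>
    obtain ⟨x, hx⟩ := hne
    exact ⟨x, hx, fun l hl => absurd hl (Finset.notMem_empty l)⟩
  | @insert l A _ ih =>
    have hne' : (U ∩ {x | l.ev x ≠ 0}).Nonempty := by
      obtain ⟨x, hx⟩ := hne
      by_cases h : l.ev x = 0
      · have hcont : Continuous (fun t : ℝ => x + t • ((l.a, l.b) : P2)) := by fun_prop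
        have h1 : ∀ᶠ t : ℝ in nhds 0, x + t • ((l.a, l.b) : P2) ∈ U := by
          have h2 := hcont.tendsto 0
          rw [zero_smul, add_zero] at h2
          exact h2.eventually (hU.mem_nhds hx)
        have h2 : ∀ᶠ t : ℝ in nhdsWithin 0 (Set.Ioi 0), x + t • ((l.a, l.b) : P2) ∈ U :=
          h1.filter_mono nhdsWithin_le_nhds
        obtain ⟨t, ht, ht0⟩ := (h2.and self_mem_nhdsWithin).exists
        have ht0' : (0 : ℝ) < t := ht0
        refine ⟨_, ht, ?_⟩
        show l.ev (x + t • ((l.a, l.b) : P2)) ≠ 0
        rw [Ln.ev_add_smul, h, zero_add]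
        refine mul_ne_zero ht0'.ne' ?_
        show l.a * l.a + l.b * l.b ≠ 0
        intro e
        rcases l.ne with h3 | h3
        · exact h3 (by nlinarith [mul_self_nonneg l.a, mul_self_nonneg l.b])
        · exact h3 (by nlinarith [mul_self_nonneg l.a, mul_self_nonneg l.b])
      · exact ⟨x, hx, h⟩
    have hop : IsOpen (U ∩ {x | l.ev x ≠ 0}) :=
      hU.inter (isOpen_ne_fun l.continuous_ev continuous_const)
    obtain ⟨x, ⟨hx, hxl⟩, hxA⟩ := ih _ hop hne'
    refine ⟨x, hx, fun m hm => ?_⟩
    rcases Finset.mem_insert.1 hm with rfl | hm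
    · exact hxl
    · exact hxA m hm

theorem cell_const (U : Set P2) (hc : Convex ℝ U) (A : Finset Ln) (f : P2 → ℚ)
    (h : ∀ x, Two U A x → ∀ᶠ y in nhds x, f y = f x) (x y : P2) (hx : Two U A x)
    (hy : Two U A y) (e : Same A x y) : f x = f y := by
  have hpre : IsPreconnected (segment ℝ x y) := (convex_segment x y).isPreconnected
  have htwo : ∀ z ∈ segment ℝ x y, Two U A z := by
    intro z hz
    refine ⟨hc.segment_subset hx.1 hy.1 hz, fun l hl => ?_⟩
    obtain ⟨a, b, ha, hb, hab, rfl⟩ := hz
    have h1 : l.ev (a • x + b • y) = a * l.ev x + b * l.ev y := by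
      simp only [Ln.ev, Prod.fst_add, Prod.snd_add, Prod.smul_fst, Prod.smul_snd, smul_eq_mul]
      linear_combination (-l.c) * hab
    rw [h1]
    have h2 := e l hl
    rcases lt_or_gt_of_ne (hx.2 l hl) with h3 | h3
    · rw [sign_neg h3] at h2
      have h4 : l.ev y < 0 := sign_eq_neg_one_iff.1 h2.symm
      rcases ha.lt_or_eq with h5 | h5
      · nlinarith
      · subst h5
        rw [zero_add] at hab
        subst hab
        linarith
    · rw [sign_pos h3] at h2
      have h4 : 0 < l.ev y := sign_eq_one_iff.1 h2.symm
      rcases ha.lt_or_eq with h5 | h5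
      · nlinarith
      · subst h5
        rw [zero_add] at hab
        subst hab
        linarith
  refine hpre.induction₂ (fun a b => f a = f b) (fun z hz => ?_)
    (fun a b c _ _ _ h1 h2 => h1.trans h2) (fun a b _ _ h1 => h1.symm) (left_mem_segment ℝ x y) (right_mem_segment ℝ x y)
  have h1 := (h z (htwo z hz)).filter_mono (nhdsWithin_le_nhds (s := segment ℝ x y))
  filter_upwards [h1] with w hw
  exact hw.symm

end C715
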