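import Pool.Agent.Work.MP_c71557_gt.E.OutB

/-!
# MP_c71557_gt, module E/CocW (M): from functions of chords to local data

`φ` is an odd function of the chords of `(U, A)`, zero on the chords in 2-cells, with outward sum
zero at every point; `B` contains one line of every class of `A`. Then `Wph φ` satisfies
`Cocyc U B`.
* `loc`: let `q ∈ U`, `d ≠ 0`, `ε` from `nb_ev U hU A q hq d` (all `q + s • d`, `0 < s < ε`, are in `U`
  and in the cell `Nb A q d`). Let `0 < s < ε`, `q' = q + s • d`. The chord starting at `q` in the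
  direction `d` is `c = c1 (q + s₁ • d) (q + s₂ • d)` for any `0 < s₁ < s₂ < ε` (`OutD` by
  definition). With `s < s₁ < s₂ < ε` it also starts at `q'` in the direction `d`:
  `q + s₁ • d = q' + (s₁ - s) • d`, and `Nb A q' d (q + s₁ • d)`: both points are in one cell
  (`Nb.same`), which gives the condition for `l.ev q' ≠ 0`; if `l.ev q' = 0` (`l ∈ A`) then by
  `Nb A q d q'` (sign `0`): `l.ev q = 0` and `l.lin d = 0`, so `l.ev (q + s₁ • d) = 0`. Hence
  `Wph φ q' d = φ c = Wph φ q d` (`Wph_eq`). With `0 < s₁ < s₂ < s`: `sw c = c1 (q + s₂ • d)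
  (q + s₁ • d)`, `q + s₂ • d = q' + (s - s₂) • (-d)`, so `sw c` starts at `q'` in the direction
  `-d` (the same verification), and `Wph φ q' (-d) = φ (sw c) = - φ c`.
* `hom`: `OutD q (t • d) c ↔ OutD q d c` for `t > 0` (`OutD.smul`, in both directions, with `t⁻¹`);
  if there is such a chord use `Wph_eq`, otherwise both values are `0`.
* `cl`: `Dv_sum` and the hypothesis.
-/

set_option autoImplicit false
set_option linter.unusedVariables false

noncomputable section

namespace C715

/-- a cell near `q` seen from one of its points -/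
private theorem nb_shift {A : Finset Ln} {q d q' z : P2} (e : P2) (he : ∀ l : Ln, l.lin d = 0 →
    l.lin e = 0) (hq : ∀ l ∈ A, l.ev q' = 0 → l.lin d = 0) (h : Same A q' z) : Nb A q' e z := by
  intro l hl
  refine ⟨fun k => ?_, fun k => (h l hl).symm⟩
  rw [← h l hl, k, he l (hq l hl k), sign_zero]

private theorem nb_line {A : Finset Ln} {q d : P2} {s : ℝ} (hs : s ≠ 0)
    (h : Nb A q d (q + s • d)) : ∀ l ∈ A, l.ev (q + s • d) = 0 → l.lin d = 0 := by
  intro l hl k
  by_cases h1 : l.ev q = 0
  · rw [Ln.ev_add_smul, h1, zero_add] at k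
    exact (mul_eq_zero.1 k).resolve_left hs
  · have h2 := (h l hl).2 h1
    rw [k, sign_zero, eq_comm, sign_eq_zero_iff] at h2
    exact absurd h2 h1

private theorem outD_of {U : Set P2} {A : Finset Ln} {v d x y : P2} {s t : ℝ} (hs : 0 < s)
    (hst : s < t) (ex : x = v + s • d) (ey : y = v + t • d) (hx : x ∈ U) (hy : y ∈ U)
    (hne : x ≠ y) (h : Same A x y) (hn : Nb A v d x) : OutD v d (c1 x y hx hy hne h) := by
  subst ex
  subst ey
  exact ⟨s, t, hs, hst, hx, hy, hne, h, rfl, hn⟩

private theorem wph_hom {U : Set P2} {A : Finset Ln} (φ : S1T U A → ℚ) (q d : P2) (t : ℝ)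
    (ht : 0 < t) : Wph φ q (t • d) = Wph φ q d := by
  by_cases h : ∃ c : S1T U A, OutD q (t • d) c
  · obtain ⟨c, hc⟩ := h
    rw [Wph_eq φ hc, Wph_eq φ (hc.smul ht)]
  · have h' : ¬ ∃ c : S1T U A, OutD q d c := by
      rintro ⟨c, hc⟩
      refine h ⟨c, ?_⟩
      refine OutD.smul (r := t⁻¹) (inv_pos.2 ht) ?_
      rwa [smul_smul, inv_mul_cancel₀ ht.ne', one_smul]
    unfold Wph
    rw [dif_neg h, dif_neg h']

theorem cocW {U : Set P2} (hU : IsOpen U) {A B : Finset Ln} (hB : Red B) (hBA : B ⊆ A)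
    (h1 : ∀ l ∈ A, ∃ m ∈ B, l.Eqv m) (φ : S1T U A → ℚ) (hsw : ∀ c, φ (sw c) = -φ c)
    (hcl : ∀ v ∈ U, ∑ c ∈ (Dv_fin U A v).toFinset, φ c = 0) : Cocyc U B (Wph φ) where
  loc q hq d hd := by
    obtain ⟨ε, hε, h⟩ := nb_ev U hU A q hq d
    refine ⟨ε, hε, fun s hs hsε => ?_⟩
    have hs' := h s hs hsε
    have hl := nb_line hs.ne' hs'.2
    constructor
    · -- same direction
      have ha := h ((2 * s + ε) / 3) (by linarith) (by linarith)
      have hb := h ((s + 2 * ε) / 3) (by linarith) (by linarith)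
      have hab : (2 * s + ε) / 3 < (s + 2 * ε) / 3 := by linarith
      have k1 : OutD q d (c1 _ _ ha.1 hb.1 (seg_ne hd hab) (ha.2.same hb.2)) :=
        outD_of (by linarith) hab rfl rfl _ _ _ _ ha.2
      have k2 : OutD (q + s • d) d (c1 _ _ ha.1 hb.1 (seg_ne hd hab) (ha.2.same hb.2)) :=
        outD_of (s := (2 * s + ε) / 3 - s) (t := (s + 2 * ε) / 3 - s) (by linarith)
          (by linarith) (by module) (by module) _ _ _ _
          (nb_shift (d := d) (q := q) d (fun _ k => k) hl (hs'.2.same ha.2))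
      rw [Wph_eq φ k1, Wph_eq φ k2]
    · have ha := h (s / 3) (by linarith) (by linarith)
      have hb := h (2 * s / 3) (by linarith) (by linarith)
      have hab : s / 3 < 2 * s / 3 := by linarith
      have k1 : OutD q d (c1 _ _ ha.1 hb.1 (seg_ne hd hab) (ha.2.same hb.2)) :=
        outD_of (by linarith) hab rfl rfl _ _ _ _ ha.2
      have k2 : OutD (q + s • d) (-d) (sw (c1 _ _ ha.1 hb.1 (seg_ne hd hab)
          (ha.2.same hb.2))) := by
        rw [sw_c1]
        exact outD_of (s := s - 2 * s / 3) (t := s - s / 3) (by linarith)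
          (by linarith) (by module) (by module) _ _ _ _
          (nb_shift (d := d) (q := q) (-d) (fun l k => by
            have : (-d : P2) = (-1 : ℝ) • d := by module
            rw [this, Ln.lin_smul, k, mul_zero]) hl (hs'.2.same hb.2))
      rw [Wph_eq φ k1, Wph_eq φ k2, hsw]
  hom q d t ht := wph_hom φ q d t ht
  cl q hq := by
    rw [← Dv_sum hU hB hBA h1 φ q hq]
    exact hcl q hq

end C715
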