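import Pool.Agent.Work.MP_c71557_gt.E.Cell

/-!
# MP_c71557_gt, module E/Conn (M): a function on the 2-cells without jumps is constant

`f` is constant on 2-cells and has equal values on the two sides of every edge. Let `x, y` be points
of `U` on no line of `A`. Claim: `f x = f y`.

1. Vertices: the set `V` of points `v` with `l.ev v = 0 = m.ev v` for two lines `l ≠ m` of `A` with
   `crs l.dr m.dr ≠ 0` is finite (one point for every such pair: Cramer); lines `l ≠ m` of `A` with
   `crs l.dr m.dr = 0` have no common point (else they are the same line, `l.Eqv m`, against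
   `Red A`). So a point of `U \ V` is on at most one line of `A`.
2. The set of all `z` with `crs (v - x) (z - x) ≠ 0` for all `v ∈ V` (`v ≠ x`, since `x` is on no
   line) is dense, as a finite intersection of open dense sets; so there is `z` near `y` with
   `Two U A z`, `Same A y z`, and no point of `V` on the segment from `x` to `z`
   (a point `v = x + t (z - x)` has `crs (v - x) (z - x) = 0`). `f y = f z` by hypothesis `h1`.
3. `t ↦` value of `f` near `x + t (z - x)` is locally constant on `[0, 1]`.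
-/

set_option autoImplicit false
set_option linter.unusedVariables false

namespace C715

private theorem conn_sub (l : Ln) (x w : P2) :
    l.ev x - l.ev w = l.a * (x.1 - w.1) + l.b * (x.2 - w.2) := by
  simp only [Ln.ev]; ring

/-- two different lines have at most one common point -/
private theorem conn_uniq {A : Finset Ln} (hA : Red A) {l m : Ln} (hl : l ∈ A) (hm : m ∈ A)
    (hne : l ≠ m) {w w' : P2} (h1 : l.ev w = 0) (h2 : m.ev w = 0) (h3 : l.ev w' = 0)
    (h4 : m.ev w' = 0) : w = w' := by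
  by_contra hw
  apply hne
  apply hA l hl m hm
  have hu : w.1 - w'.1 ≠ 0 ∨ w.2 - w'.2 ≠ 0 := by
    by_contra hcon
    push Not at hcon
    exact hw (Prod.ext (sub_eq_zero.1 hcon.1) (sub_eq_zero.1 hcon.2))
  have e1 : l.a * (w.1 - w'.1) + l.b * (w.2 - w'.2) = 0 := by rw [← conn_sub, h1, h3, sub_zero]
  have e2 : m.a * (w.1 - w'.1) + m.b * (w.2 - w'.2) = 0 := by rw [← conn_sub, h2, h4, sub_zero]
  have e3 : l.a * m.b - l.b * m.a = 0 := by
    rcases hu with hu | hu
    · have : (w.1 - w'.1) * (l.a * m.b - l.b * m.a) = 0 := by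
        linear_combination m.b * e1 - l.b * e2
      exact (mul_eq_zero.1 this).resolve_left hu
    · have : (w.2 - w'.2) * (l.a * m.b - l.b * m.a) = 0 := by
        linear_combination l.a * e2 - m.a * e1
      exact (mul_eq_zero.1 this).resolve_left hu
  have key : ∃ c : ℝ, c ≠ 0 ∧ l.a = c * m.a ∧ l.b = c * m.b := by
    rcases m.ne with hm' | hm'
    · refine ⟨l.a / m.a, ?_, by field_simp, ?_⟩
      · intro h
        have h5 : l.a = 0 := by
          rcases div_eq_zero_iff.1 h with h | h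
          · exact h
          · exact absurd h hm'
        rw [h5] at e3
        have h6 : l.b * m.a = 0 := by linarith
        have h7 : l.b = 0 := (mul_eq_zero.1 h6).resolve_right hm'
        rcases l.ne with h | h
        · exact h h5
        · exact h h7
      · field_simp
        linarith
    · refine ⟨l.b / m.b, ?_, ?_, by field_simp⟩
      · intro h
        have h5 : l.b = 0 := by
          rcases div_eq_zero_iff.1 h with h | h
          · exact h
          · exact absurd h hm'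
        rw [h5] at e3
        have h6 : l.a * m.b = 0 := by linarith
        have h7 : l.a = 0 := (mul_eq_zero.1 h6).resolve_right hm'
        rcases l.ne with h | h
        · exact h h7
        · exact h h5
      · field_simp
        linarith
  obtain ⟨c, hc, ea, eb⟩ := key
  refine ⟨c, hc, fun x => ?_⟩
  have e4 := conn_sub l x w
  have e5 := conn_sub m x w
  rw [h1, sub_zero] at e4
  rw [h2, sub_zero] at e5
  rw [e4, e5, ea, eb]
  ring

private theorem conn_sign (l : Ln) (w : P2) (h : l.ev w ≠ 0) :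
    ∀ᶠ y in nhds w, SignType.sign (l.ev y) = SignType.sign (l.ev w) := by
  have hc := l.continuous_ev.tendsto w
  rcases lt_or_gt_of_ne h with h | h
  · filter_upwards [hc.eventually (gt_mem_nhds h)] with y hy
    rw [sign_neg h, sign_neg hy]
  · filter_upwards [hc.eventually (lt_mem_nhds h)] with y hy
    rw [sign_pos h, sign_pos hy]

/-- near `w` all lines of `A` not through `w` have constant sign -/
private theorem conn_signs (A : Finset Ln) (w : P2) :
    ∀ᶠ y in nhds w, ∀ m ∈ A, m.ev w ≠ 0 → SignType.sign (m.ev y) = SignType.sign (m.ev w) := by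
  rw [Filter.eventually_all_finset]
  intro m _
  by_cases h : m.ev w = 0
  · exact Filter.Eventually.of_forall fun y hy => absurd h hy
  · filter_upwards [conn_sign m w h] with y hy _
    exact hy

/-- near a point on at most one line `f` has one value -/
private theorem conn_val (U : Set P2) (hU : IsOpen U) (A : Finset Ln)
    (f : P2 → ℚ) (h1 : ∀ x y, Two U A x → Two U A y → Same A x y → f x = f y)
    (h2 : ∀ x ∈ U, ∀ l ∈ A, l.ev x = 0 → (∀ m ∈ A, m.ev x = 0 → m = l) →
      ∃ ε : ℝ, 0 < ε ∧ ∀ s : ℝ, 0 < s → s < ε →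
        f (x + s • ((l.a, l.b) : P2)) = f (x - s • ((l.a, l.b) : P2)))
    (w : P2) (hw : w ∈ U) (h3 : ∀ l ∈ A, ∀ m ∈ A, l.ev w = 0 → m.ev w = 0 → l = m) :
    ∃ c : ℚ, ∀ᶠ y in nhds w, Two U A y → f y = c := by
  by_cases h : ∃ l ∈ A, l.ev w = 0
  · obtain ⟨l, hl, hlw⟩ := h
    have hu : ∀ m ∈ A, m.ev w = 0 → m = l := fun m hm hmw => h3 m hm l hl hmw hlw
    obtain ⟨ε, hε, h4⟩ := h2 w hw l hl hlw hu
    -- a small `s`
    have hg : ∀ᶠ y in nhds w, y ∈ U ∧ ∀ m ∈ A, m.ev w ≠ 0 →
        SignType.sign (m.ev y) = SignType.sign (m.ev w) :=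
      (hU.eventually_mem hw).and (conn_signs A w)
    have hp : Filter.Tendsto (fun s : ℝ => w + s • ((l.a, l.b) : P2)) (nhds 0) (nhds w) := by
      have : Continuous (fun s : ℝ => w + s • ((l.a, l.b) : P2)) := by fun_prop
      have h5 := this.tendsto 0
      simpa using h5
    have hn : Filter.Tendsto (fun s : ℝ => w - s • ((l.a, l.b) : P2)) (nhds 0) (nhds w) := by
      have : Continuous (fun s : ℝ => w - s • ((l.a, l.b) : P2)) := by fun_prop
      have h5 := this.tendsto 0
      simpa using h5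
    have h5 : ∀ᶠ s : ℝ in nhds 0, s < ε := gt_mem_nhds hε
    have h6 := (hp.eventually hg).and ((hn.eventually hg).and h5)
    obtain ⟨δ, hδ, h7⟩ := Metric.eventually_nhds_iff.1 h6
    obtain ⟨s, hs0, hsδ⟩ : ∃ s : ℝ, 0 < s ∧ s < δ := ⟨δ / 2, by positivity, by linarith⟩
    obtain ⟨⟨hpU, hpS⟩, ⟨hnU, hnS⟩, hsε⟩ := h7 (y := s) (by
      rw [Real.dist_eq, sub_zero, abs_of_pos hs0]; exact hsδ)
    have h8 := h4 s hs0 hsε
    have hN : 0 < l.a ^ 2 + l.b ^ 2 := by
      rcases l.ne with h | h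
      · have := sq_pos_of_ne_zero h
        nlinarith [sq_nonneg l.b]
      · have := sq_pos_of_ne_zero h
        nlinarith [sq_nonneg l.a]
    have ep : l.ev (w + s • ((l.a, l.b) : P2)) = s * (l.a ^ 2 + l.b ^ 2) := by
      rw [Ln.ev_add_smul, hlw]
      simp only [Ln.lin]
      ring
    have en : l.ev (w - s • ((l.a, l.b) : P2)) = -(s * (l.a ^ 2 + l.b ^ 2)) := by
      have : w - s • ((l.a, l.b) : P2) = w + (-s) • ((l.a, l.b) : P2) := by
        rw [neg_smul, sub_eq_add_neg]
      rw [this, Ln.ev_add_smul, hlw]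
      simp only [Ln.lin]
      ring
    have epp : 0 < l.ev (w + s • ((l.a, l.b) : P2)) := by rw [ep]; positivity
    have enn : l.ev (w - s • ((l.a, l.b) : P2)) < 0 := by
      rw [en]
      have : 0 < s * (l.a ^ 2 + l.b ^ 2) := by positivity
      linarith
    have hTp : Two U A (w + s • ((l.a, l.b) : P2)) := by
      refine ⟨hpU, fun m hm => ?_⟩
      by_cases hmw : m.ev w = 0
      · rw [hu m hm hmw]
        exact ne_of_gt epp
      · intro h0
        have := hpS m hm hmw
        rw [h0, sign_zero] at this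
        exact hmw (sign_eq_zero_iff.1 this.symm)
    have hTn : Two U A (w - s • ((l.a, l.b) : P2)) := by
      refine ⟨hnU, fun m hm => ?_⟩
      by_cases hmw : m.ev w = 0
      · rw [hu m hm hmw]
        exact ne_of_lt enn
      · intro h0
        have := hnS m hm hmw
        rw [h0, sign_zero] at this
        exact hmw (sign_eq_zero_iff.1 this.symm)
    refine ⟨f (w + s • ((l.a, l.b) : P2)), ?_⟩
    filter_upwards [conn_signs A w] with y hy hTy
    have hly := hTy.2 l hl
    rcases lt_or_gt_of_ne hly with hly | hly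
    · rw [h8]
      refine h1 _ _ hTy hTn fun m hm => ?_
      by_cases hmw : m.ev w = 0
      · rw [hu m hm hmw, sign_neg hly, sign_neg enn]
      · rw [hy m hm hmw, hnS m hm hmw]
    · refine h1 _ _ hTy hTp fun m hm => ?_
      by_cases hmw : m.ev w = 0
      · rw [hu m hm hmw, sign_pos hly, sign_pos epp]
      · rw [hy m hm hmw, hpS m hm hmw]
  · push Not at h
    refine ⟨f w, ?_⟩
    filter_upwards [conn_signs A w] with y hy hTy
    exact h1 _ _ hTy ⟨hw, h⟩ fun m hm => hy m hm (h m hm)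

/-- a segment without vertices -/
private theorem conn_seg (U : Set P2) (hU : IsOpen U) (hc : Convex ℝ U) (A : Finset Ln)
    (f : P2 → ℚ) (h1 : ∀ x y, Two U A x → Two U A y → Same A x y → f x = f y)
    (h2 : ∀ x ∈ U, ∀ l ∈ A, l.ev x = 0 → (∀ m ∈ A, m.ev x = 0 → m = l) →
      ∃ ε : ℝ, 0 < ε ∧ ∀ s : ℝ, 0 < s → s < ε →
        f (x + s • ((l.a, l.b) : P2)) = f (x - s • ((l.a, l.b) : P2)))
    (x z : P2) (hx : Two U A x) (hz : Two U A z)
    (h3 : ∀ w ∈ segment ℝ x z, ∀ l ∈ A, ∀ m ∈ A, l.ev w = 0 → m.ev w = 0 → l = m) :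
    f x = f z := by
  by_contra hne
  have hpre : IsPreconnected (segment ℝ x z) := (convex_segment x z).isPreconnected
  have ho1 : IsOpen {w : P2 | ∀ᶠ y in nhds w, Two U A y → f y = f x} :=
    isOpen_setOfPred_eventually_nhds
  have ho2 : IsOpen {w : P2 | ∀ᶠ y in nhds w, Two U A y → f y ≠ f x} :=
    isOpen_setOfPred_eventually_nhds
  have hsub : segment ℝ x z ⊆ U := hc.segment_subset hx.1 hz.1
  have hcov : segment ℝ x z ⊆ {w : P2 | ∀ᶠ y in nhds w, Two U A y → f y = f x} ∪
      {w : P2 | ∀ᶠ y in nhds w, Two U A y → f y ≠ f x} := by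
    intro w hw
    obtain ⟨c, hc'⟩ := conn_val U hU A f h1 h2 w (hsub hw) (h3 w hw)
    by_cases hcx : c = f x
    · left
      filter_upwards [hc'] with y hy hTy
      rw [hy hTy, hcx]
    · right
      filter_upwards [hc'] with y hy hTy
      rw [hy hTy]
      exact hcx
  have hxs : x ∈ segment ℝ x z := left_mem_segment ℝ x z
  have hzs : z ∈ segment ℝ x z := right_mem_segment ℝ x z
  have hx1 : x ∈ {w : P2 | ∀ᶠ y in nhds w, Two U A y → f y = f x} := by
    obtain ⟨c, hc'⟩ := conn_val U hU A f h1 h2 x hx.1 (h3 x hxs)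
    have e : f x = c := hc'.self_of_nhds hx
    show ∀ᶠ y in nhds x, Two U A y → f y = f x
    filter_upwards [hc'] with y hy hTy
    rw [hy hTy, e]
  have hz2 : z ∈ {w : P2 | ∀ᶠ y in nhds w, Two U A y → f y ≠ f x} := by
    obtain ⟨c, hc'⟩ := conn_val U hU A f h1 h2 z hz.1 (h3 z hzs)
    have e : f z = c := hc'.self_of_nhds hz
    show ∀ᶠ y in nhds z, Two U A y → f y ≠ f x
    filter_upwards [hc'] with y hy hTy
    rw [hy hTy, ← e]
    exact Ne.symm hne
  obtain ⟨w, hws, hw1, hw2⟩ := hpre _ _ ho1 ho2 hcov ⟨x, hxs, hx1⟩ ⟨z, hzs, hz2⟩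
  obtain ⟨O, hO, hOo, hwO⟩ := eventually_nhds_iff.1 (((hU.eventually_mem (hsub hws)).and hw1).and hw2)
  obtain ⟨y, hyO, hy⟩ := exists_two O hOo ⟨w, hwO⟩ A
  obtain ⟨⟨hyU, hy1⟩, hy2⟩ := hO y hyO
  exact hy2 ⟨hyU, hy⟩ (hy1 ⟨hyU, hy⟩)

open Classical in
/-- the line through `x` and the common point of `l`, `m` -/
private theorem conn_line (x : P2) (A : Finset Ln) (hA : Red A) (hx : ∀ l ∈ A, l.ev x ≠ 0)
    (p : Ln × Ln) (hp : p.1 ∈ A ∧ p.2 ∈ A ∧ p.1 ≠ p.2) :
    ∃ k : Ln, ∀ z, k.ev z ≠ 0 → ∀ w ∈ segment ℝ x z, ¬ (p.1.ev w = 0 ∧ p.2.ev w = 0) := by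
  by_cases h : ∃ v, p.1.ev v = 0 ∧ p.2.ev v = 0
  · obtain ⟨v, hv1, hv2⟩ := h
    have hvx : v ≠ x := by
      rintro rfl
      exact hx _ hp.1 hv1
    have hne : -(v.2 - x.2) ≠ 0 ∨ v.1 - x.1 ≠ 0 := by
      by_contra hcon
      push Not at hcon
      have e1 := hcon.1
      have e2 := hcon.2
      exact hvx (Prod.ext (by linarith) (by linarith))
    refine ⟨⟨-(v.2 - x.2), v.1 - x.1, (v.2 - x.2) * x.1 - (v.1 - x.1) * x.2, hne⟩, ?_⟩
    rintro z hz w hw ⟨hw1, hw2⟩
    have hwv : w = v := conn_uniq hA hp.1 hp.2.1 hp.2.2 hw1 hw2 hv1 hv2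
    subst hwv
    apply hz
    obtain ⟨a, b, ha, hb, hab, hw⟩ := hw
    have e1 : w.1 = a * x.1 + b * z.1 := by rw [← hw]; simp
    have e2 : w.2 = a * x.2 + b * z.2 := by rw [← hw]; simp
    have ha' : a = 1 - b := by linarith
    show -(w.2 - x.2) * z.1 + (w.1 - x.1) * z.2 + ((w.2 - x.2) * x.1 - (w.1 - x.1) * x.2) = 0
    rw [e1, e2, ha']
    ring
  · push Not at h
    refine ⟨p.1, fun z _ w _ hw => h w hw.1 hw.2⟩

theorem core2 (U : Set P2) (hU : IsOpen U) (hc : Convex ℝ U) (A : Finset Ln) (hA : Red A)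
    (f : P2 → ℚ) (h1 : ∀ x y, Two U A x → Two U A y → Same A x y → f x = f y)
    (h2 : ∀ x ∈ U, ∀ l ∈ A, l.ev x = 0 → (∀ m ∈ A, m.ev x = 0 → m = l) →
      ∃ ε : ℝ, 0 < ε ∧ ∀ s : ℝ, 0 < s → s < ε →
        f (x + s • ((l.a, l.b) : P2)) = f (x - s • ((l.a, l.b) : P2)))
    (x y : P2) (hx : Two U A x) (hy : Two U A y) : f x = f y := by
  classical
  choose k hk using conn_line x A hA hx.2
  let Q : Finset (Ln × Ln) := (A ×ˢ A).filter fun p => p.1 ≠ p.2
  have hQ : ∀ p ∈ Q, p.1 ∈ A ∧ p.2 ∈ A ∧ p.1 ≠ p.2 := by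
    intro p hp
    have h3 := Finset.mem_filter.1 hp
    exact ⟨(Finset.mem_product.1 h3.1).1, (Finset.mem_product.1 h3.1).2, h3.2⟩
  let B : Finset Ln := Q.attach.image fun p => k p.1 (hQ p.1 p.2)
  obtain ⟨O, hO, hOo, hyO⟩ := eventually_nhds_iff.1 ((hU.eventually_mem hy.1).and (conn_signs A y))
  obtain ⟨z, hzO, hz⟩ := exists_two O hOo ⟨y, hyO⟩ (A ∪ B)
  obtain ⟨hzU, hzS⟩ := hO z hzO
  have hTz : Two U A z := ⟨hzU, fun l hl => hz l (Finset.mem_union_left _ hl)⟩
  have e1 : f z = f y := h1 z y hTz hy fun m hm => hzS m hm (hy.2 m hm)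
  rw [← e1]
  refine conn_seg U hU hc A f h1 h2 x z hx hTz ?_
  intro w hw l hl m hm hlw hmw
  by_contra hne
  have hp : (l, m) ∈ Q := Finset.mem_filter.2 ⟨Finset.mem_product.2 ⟨hl, hm⟩, hne⟩
  have hk' : k (l, m) (hQ _ hp) ∈ B :=
    Finset.mem_image.2 ⟨⟨(l, m), hp⟩, Finset.mem_attach _ _, rfl⟩
  exact hk (l, m) (hQ _ hp) z (hz _ (Finset.mem_union_right _ hk')) w hw ⟨hlw, hmw⟩

end C715
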