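import Mathlib

/-!
# MP_c71557_gt, module E/Step (S-M): the jumps of a step function

`g : ℝ → V` is locally constant on `[α, β]` outside the finite set `T ⊂ (α, β)` and has the one
sided limits `L θ`, `R θ` at `θ ∈ T`. Then `∑_{θ ∈ T} (R θ - L θ) = g β - g α`.

Proof: put `h x = (if x ∈ T then L x else g x) - ∑ θ ∈ T with θ < x, (R θ - L θ)`. It is locally
constant on `[α, β]`: at `x ∉ T` there is a neighbourhood without points of `T` (finite set) on
which `g` is constant; at `x ∈ T` there is a punctured neighbourhood without points of `T`, for `y < x`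
in it the value is `L x - ∑_{θ < x}` and for `y > x` it is
`R x - (∑_{θ < x} + (R x - L x)) = L x - ∑_{θ < x}`. So `h` is constant on the preconnected set
`Set.Icc α β`, and `h α = g α`, `h β = g β - ∑_{θ ∈ T} (R θ - L θ)`.
-/

set_option autoImplicit false
set_option linter.unusedVariables false

namespace C715

theorem step_sum {V : Type} [AddCommGroup V] (T : Finset ℝ) (α β : ℝ) (hαβ : α < β)
    (hT : ∀ θ ∈ T, α < θ ∧ θ < β) (g R L : ℝ → V)
    (h1 : ∀ θ ∈ T, ∃ ε : ℝ, 0 < ε ∧ ∀ s : ℝ, 0 < s → s < ε → g (θ + s) = R θ ∧ g (θ - s) = L θ)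
    (h2 : ∀ x : ℝ, α ≤ x → x ≤ β → x ∉ T → ∃ ε : ℝ, 0 < ε ∧ ∀ y : ℝ, |y - x| < ε → g y = g x) :
    ∑ θ ∈ T, (R θ - L θ) = g β - g α := by
  classical
  let _ : TopologicalSpace V := ⊥
  have _ : DiscreteTopology V := ⟨rfl⟩
  let h : ℝ → V := fun x => (if x ∈ T then L x else g x) - ∑ θ ∈ T.filter (· < x), (R θ - L θ)
  have hloc : ∀ x ∈ Set.Icc α β, ∀ᶠ y in nhds x, h y = h x := by
    intro x hx
    have hQ : ∀ᶠ y in nhds x, ∀ θ ∈ T, θ ≠ x → ((θ < y ↔ θ < x) ∧ y ≠ θ) := by
      rw [Filter.eventually_all_finset]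
      intro θ hθ
      by_cases he : θ = x
      · exact Filter.Eventually.of_forall fun y hne => absurd he hne
      · rcases lt_or_gt_of_ne he with hlt | hlt
        · filter_upwards [Ioi_mem_nhds hlt] with y hy _
          exact ⟨⟨fun _ => hlt, fun _ => hy⟩, ne_of_gt hy⟩
        · filter_upwards [Iio_mem_nhds hlt] with y hy _
          exact ⟨⟨fun k => absurd (k.trans hy) (lt_irrefl _), fun k => absurd (k.trans hlt) (lt_irrefl _)⟩,
            ne_of_lt hy⟩
    by_cases hxT : x ∈ T
    · obtain ⟨ε, hε, h3⟩ := h1 x hxT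
      filter_upwards [hQ, Metric.ball_mem_nhds x hε] with y hy hyb
      rw [Metric.mem_ball, Real.dist_eq] at hyb
      rcases lt_trichotomy y x with hlt | heq | hgt
      · have hyT : y ∉ T := fun k => (hy y k (ne_of_lt hlt)).2 rfl
        have hf : T.filter (· < y) = T.filter (· < x) := by
          refine Finset.filter_congr fun θ hθ => ?_
          by_cases he : θ = x
          · rw [he]
            exact ⟨fun k => absurd (k.trans hlt) (lt_irrefl _), fun k => absurd k (lt_irrefl _)⟩
          · exact (hy θ hθ he).1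
        have hg : g y = L x := by
          have h4 := (h3 (x - y) (sub_pos.2 hlt) (by rw [abs_sub_comm] at hyb; exact (le_abs_self _).trans_lt hyb)).2
          rwa [sub_sub_cancel] at h4
        simp only [h, if_neg hyT, if_pos hxT, hf, hg]
      · rw [heq]
      · have hyT : y ∉ T := fun k => (hy y k (ne_of_gt hgt)).2 rfl
        have hf : T.filter (· < y) = insert x (T.filter (· < x)) := by
          ext θ
          rw [Finset.mem_filter, Finset.mem_insert, Finset.mem_filter]
          constructor
          · rintro ⟨k1, k2⟩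
            by_cases he : θ = x
            · exact Or.inl he
            · exact Or.inr ⟨k1, (hy θ k1 he).1.1 k2⟩
          · rintro (rfl | ⟨k1, k2⟩)
            · exact ⟨hxT, hgt⟩
            · exact ⟨k1, k2.trans hgt⟩
        have hnot : x ∉ T.filter (· < x) := fun k => absurd (Finset.mem_filter.1 k).2 (lt_irrefl _)
        have hg : g y = R x := by
          have h4 := (h3 (y - x) (sub_pos.2 hgt) ((le_abs_self _).trans_lt hyb)).1
          rwa [add_sub_cancel] at h4
        simp only [h, if_neg hyT, if_pos hxT, hf, hg, Finset.sum_insert hnot]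
        abel
    · obtain ⟨ε, hε, h3⟩ := h2 x hx.1 hx.2 hxT
      filter_upwards [hQ, Metric.ball_mem_nhds x hε] with y hy hyb
      rw [Metric.mem_ball, Real.dist_eq] at hyb
      have hyT : y ∉ T := fun k => (hy y k (fun e => hxT (e ▸ k))).2 rfl
      have hf : T.filter (· < y) = T.filter (· < x) :=
        Finset.filter_congr fun θ hθ => (hy θ hθ (fun e => hxT (e ▸ hθ))).1
      simp only [h, if_neg hyT, if_neg hxT, hf, h3 y hyb]
  have hcont : ContinuousOn h (Set.Icc α β) := by
    intro x hx
    refine ContinuousAt.continuousWithinAt ?_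
    exact (tendsto_const_nhds (x := h x)).congr' ((hloc x hx).mono fun y hy => hy.symm)
  have hab : h α = h β := isPreconnected_Icc.constant hcont ⟨le_rfl, hαβ.le⟩ ⟨hαβ.le, le_rfl⟩
  have hαT : α ∉ T := fun k => absurd (hT α k).1 (lt_irrefl _)
  have hβT : β ∉ T := fun k => absurd (hT β k).2 (lt_irrefl _)
  have hfα : T.filter (· < α) = ∅ := by
    refine Finset.filter_eq_empty_iff.2 fun θ hθ => ?_
    exact not_lt.2 (hT θ hθ).1.le
  have hfβ : T.filter (· < β) = T := Finset.filter_true_of_mem fun θ hθ => (hT θ hθ).2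
  simp only [h, if_neg hαT, if_neg hβT, hfα, hfβ, Finset.sum_empty, sub_zero] at hab
  rw [hab]
  abel

end C715
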