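import Pool.Agent.Work.MP_c71557_gt.E.OutA
import Pool.Agent.Work.MP_c71557_gt.E.Step

/-!
# MP_c71557_gt, module E/DD (M-L): going around a point, left and right sides cancel

`∑_{c ∈ Dv v} (f (lf c) - f (lf (sw c))) = 0` for every function `f` on the 2-cells.

1. If no line of `A` passes through `v` then `Dv U A v = ∅` (`out_line`). Let
   `Θ = {θ : ℝ | ∃ l ∈ A, l.ev v = 0 ∧ l.lin (dir θ) = 0}`. It is closed under `θ ↦ θ + 2π` and has
   finitely many points in every bounded interval (for one `l`, `l.lin (dir θ) =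
   l.a cos θ + l.b sin θ = ρ sin (θ - θ_l)`, `ρ > 0`, with zeros `θ_l + kπ`); so there is `α ∉ Θ`;
   put `T = Θ ∩ (α, α + 2π)`, a finite set.
2. For `θ ∉ Θ` let `g θ = f (c2 z _ _)` for a point `z ∈ U` with `Nb A v (dir θ) z` (`nb_ex`; `z` is in
   `Gen A` because `l.lin (dir θ) ≠ 0` for the lines through `v`; the class does not depend on `z` by
   `Nb.same`, `c2_eq`), `g θ = 0` for `θ ∈ Θ`. `g` is locally constant at `θ ∉ Θ`: for `θ'` near `θ`
   the signs of the finitely many numbers `l.lin (dir θ')` are those of `l.lin (dir θ) ≠ 0`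
   (continuity), so `Nb A v (dir θ) z ↔ Nb A v (dir θ') z`.
3. For `θ ∈ Θ` let `c θ` be the chord which starts at `v` in the direction `dir θ` (`outD_ex`), say
   `c θ = c1 x y`, `x = v + s • dir θ`, `y = v + t • dir θ`, `0 < s < t`, `Nb A v (dir θ) x`; put
   `R θ = f (lf (c θ))`, `L θ = f (lf (sw (c θ)))`. For small `e > 0`: `g (θ + e) = R θ`,
   `g (θ - e) = L θ`: let `z` with `Nb A x (jr (y - x)) z`; then `Nb A v (dir (θ + e)) z`: a line
   `l ∈ A` with `l.ev v ≠ 0` has `sign l.ev x = sign l.ev v`, not 0, so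
   `sign l.ev z = sign l.ev x = sign l.ev v`. If `l.ev v = 0` and `l.lin (dir θ) ≠ 0`:
   `l.ev x = s * l.lin (dir θ) ≠ 0`, `sign l.ev z = sign l.lin (dir θ) = sign l.lin (dir (θ + e))` for
   small `e`. If `l.ev v = 0 = l.lin (dir θ)`: `l.ev x = 0`, `sign l.ev z = sign l.lin (jr (y - x))
   = sign l.lin (jr (dir θ))`, and `dir (θ + e) = cos e • dir θ + sin e • jr (dir θ)`, so
   `l.lin (dir (θ + e)) = sin e * l.lin (jr (dir θ))` has the same sign for `0 < e < π`. The right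
   side in the same way with `lf_sw_c1` (direction `- jr (y - x)`).
4. `θ ↦ c θ` is a bijection from `T` to `Dv U A v`: it maps into it by `out_line`; injective:
   `OutD.dir` gives `dir θ' = r • dir θ`, `r > 0`, so `θ' ≡ θ` modulo `2π`, and both are in
   `(α, α + 2π)`; surjective: `OutD v d c`, `d = r • dir θ` with `r > 0` and `θ ∈ [α, α + 2π)`
   (polar coordinates), `θ ∈ Θ` by `out_line`, `θ ≠ α`; `OutD.smul`, `outD_uniq`.
5. So the sum is `∑_{θ ∈ T} (R θ - L θ) = g (α + 2π) - g α` by `step_sum` (points of `[α, α + 2π]`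
   outside `T` are not in `Θ`), and this is `0` since `dir (α + 2π) = dir α`.
-/

set_option autoImplicit false
set_option linter.unusedVariables false

noncomputable section

namespace C715

/-- directions of the lines through `v` -/
private def isT (A : Finset Ln) (v : P2) (θ : ℝ) : Prop :=
  ∃ l ∈ A, l.ev v = 0 ∧ l.lin (dir θ) = 0

private theorem lin_dir_add (l : Ln) (θ e : ℝ) :
    l.lin (dir (θ + e)) = Real.cos e * l.lin (dir θ) + Real.sin e * l.lin (jr (dir θ)) := by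
  simp only [Ln.lin, dir, jr, Real.cos_add, Real.sin_add]
  ring

private theorem lin_negE (l : Ln) (u : P2) : l.lin (-u) = -l.lin u := by
  simp only [Ln.lin, Prod.fst_neg, Prod.snd_neg]
  ring

private theorem lin_dir_cont (l : Ln) : Continuous (fun θ => l.lin (dir θ)) := by
  unfold Ln.lin dir
  fun_prop

private theorem fin_one (l : Ln) (a b : ℝ) :
    {θ : ℝ | a ≤ θ ∧ θ ≤ b ∧ l.lin (dir θ) = 0}.Finite := by
  rcases Set.eq_empty_or_nonempty {θ : ℝ | a ≤ θ ∧ θ ≤ b ∧ l.lin (dir θ) = 0} with h | ⟨θ0, h0⟩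
  · rw [h]
    exact Set.finite_empty
  · have h1 : ((fun k : ℤ => θ0 + k * Real.pi) ''
        (Set.Icc ⌊(a - θ0) / Real.pi⌋ ⌈(b - θ0) / Real.pi⌉)).Finite :=
      (Set.finite_Icc _ _).image _
    refine h1.subset fun θ hθ => ?_
    have h2 := lin_dir_add l θ0 (θ - θ0)
    have e : θ0 + (θ - θ0) = θ := by ring
    rw [e, hθ.2.2, h0.2.2, mul_zero, zero_add] at h2
    have h3 : Real.sin (θ - θ0) = 0 :=
      (mul_eq_zero.1 h2.symm).resolve_right (l.lin_jr_ne (dir_ne θ0) h0.2.2)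
    obtain ⟨k, hk⟩ := Real.sin_eq_zero_iff.1 h3
    have hp := Real.pi_pos
    refine ⟨k, ⟨?_, ?_⟩, ?_⟩
    · have : (⌊(a - θ0) / Real.pi⌋ : ℝ) ≤ k := by
        refine (Int.floor_le _).trans ?_
        rw [div_le_iff₀ hp, hk]
        linarith [hθ.1]
      exact_mod_cast this
    · have : (k : ℝ) ≤ ⌈(b - θ0) / Real.pi⌉ := by
        refine le_trans ?_ (Int.le_ceil _)
        rw [le_div_iff₀ hp, hk]
        linarith [hθ.2.1]
      exact_mod_cast this
    · change θ0 + k * Real.pi = θ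
      rw [hk]
      ring

private theorem fin_isT (A : Finset Ln) (v : P2) (a b : ℝ) :
    {θ : ℝ | a ≤ θ ∧ θ ≤ b ∧ isT A v θ}.Finite := by
  have h1 : (⋃ l ∈ A, {θ : ℝ | a ≤ θ ∧ θ ≤ b ∧ l.lin (dir θ) = 0}).Finite :=
    Set.Finite.biUnion A.finite_toSet fun l _ => fin_one l a b
  refine h1.subset ?_
  rintro θ ⟨h2, h3, l, hl, _, h4⟩
  exact Set.mem_biUnion (Finset.mem_coe.2 hl) ⟨h2, h3, h4⟩

private theorem gen_of {A : Finset Ln} {v z : P2} {θ : ℝ} (h : ¬isT A v θ)
    (hz : Nb A v (dir θ) z) : Gen A z := by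
  intro l hl e
  by_cases k : l.ev v = 0
  · have h1 := (hz l hl).1 k
    rw [e, sign_zero, eq_comm, sign_eq_zero_iff] at h1
    exact h ⟨l, hl, k, h1⟩
  · have h1 := (hz l hl).2 k
    rw [e, sign_zero, eq_comm, sign_eq_zero_iff] at h1
    exact k h1

open Classical in
private def gg {U : Set P2} (hU : IsOpen U) {A : Finset Ln} {V : Type} [AddCommGroup V]
    (f : S2T U A → V) (v : P2) (hv : v ∈ U) (θ : ℝ) : V :=
  if h : ¬isT A v θ then
    f (c2 (nb_ex U hU A v hv (dir θ)).choose (nb_ex U hU A v hv (dir θ)).choose_spec.1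
      (gen_of h (nb_ex U hU A v hv (dir θ)).choose_spec.2))
  else 0

private theorem gg_eq {U : Set P2} (hU : IsOpen U) {A : Finset Ln} {V : Type} [AddCommGroup V]
    (f : S2T U A → V) (v : P2) (hv : v ∈ U) {θ : ℝ} (h : ¬isT A v θ) {z : P2} (hz : z ∈ U)
    (hg : Gen A z) (hn : Nb A v (dir θ) z) : gg hU f v hv θ = f (c2 z hz hg) := by
  unfold gg
  rw [dif_pos h]
  congr 1
  exact c2_eq.2 (Nb.same (nb_ex U hU A v hv (dir θ)).choose_spec.2 hn)

private theorem sign_ne {a b : ℝ} (h : SignType.sign a = SignType.sign b) (hb : b ≠ 0) : a ≠ 0 :=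
  fun e => hb ((sign_zero_iff h).1 e)

/-- near `θ` the signs of the lines not in the direction `θ` are constant -/
private theorem ev_sign (A : Finset Ln) (θ : ℝ) : ∃ ε : ℝ, 0 < ε ∧ ∀ y : ℝ, |y - θ| < ε →
    ∀ l ∈ A, l.lin (dir θ) ≠ 0 →
      SignType.sign (l.lin (dir y)) = SignType.sign (l.lin (dir θ)) := by
  have h1 : ∀ᶠ y in nhds θ, ∀ l ∈ A, l.lin (dir θ) ≠ 0 →
      SignType.sign (l.lin (dir y)) = SignType.sign (l.lin (dir θ)) := by
    rw [Filter.eventually_all_finset]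
    intro l hl
    by_cases e : l.lin (dir θ) = 0
    · exact Filter.Eventually.of_forall fun y h => absurd e h
    · rcases lt_or_gt_of_ne e with h | h
      · filter_upwards [(lin_dir_cont l).continuousAt.eventually (gt_mem_nhds h)] with y hy _
        rw [sign_neg h]
        exact sign_neg hy
      · filter_upwards [(lin_dir_cont l).continuousAt.eventually (lt_mem_nhds h)] with y hy _
        rw [sign_pos h]
        exact sign_pos hy
  obtain ⟨ε, hε, h2⟩ := Metric.eventually_nhds_iff.1 h1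
  exact ⟨ε, hε, fun y hy => h2 (by rwa [Real.dist_eq])⟩

private theorem gg_loc {U : Set P2} (hU : IsOpen U) {A : Finset Ln} {V : Type} [AddCommGroup V]
    (f : S2T U A → V) (v : P2) (hv : v ∈ U) {θ : ℝ} (h : ¬isT A v θ) :
    ∃ ε : ℝ, 0 < ε ∧ ∀ y : ℝ, |y - θ| < ε → gg hU f v hv y = gg hU f v hv θ := by
  obtain ⟨ε, hε, h1⟩ := ev_sign A θ
  refine ⟨ε, hε, fun y hy => ?_⟩
  have h2 := h1 y hy
  have h0 : ∀ l ∈ A, l.ev v = 0 → l.lin (dir θ) ≠ 0 := fun l hl e k => h ⟨l, hl, e, k⟩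
  have h3 : ¬isT A v y := by
    rintro ⟨l, hl, e, k⟩
    exact sign_ne (h2 l hl (h0 l hl e)) (h0 l hl e) k
  obtain ⟨z, hz, hn⟩ := nb_ex U hU A v hv (dir θ)
  have hn' : Nb A v (dir y) z := by
    intro l hl
    refine ⟨fun e => ?_, (hn l hl).2⟩
    rw [(hn l hl).1 e, h2 l hl (h0 l hl e)]
  rw [gg_eq hU f v hv h hz (gen_of h hn) hn, gg_eq hU f v hv h3 hz (gen_of h hn) hn']

/-- the sides of a chord at `v` -/
private theorem side {A : Finset Ln} {v x z w : P2} {θ φ : ℝ} (hx : Nb A v (dir θ) x)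
    (hz : Nb A x w z)
    (h1 : ∀ l ∈ A, l.lin (dir θ) ≠ 0 →
      SignType.sign (l.lin (dir φ)) = SignType.sign (l.lin (dir θ)))
    (h2 : ∀ l ∈ A, l.lin (dir θ) = 0 →
      SignType.sign (l.lin (dir φ)) = SignType.sign (l.lin w)) : Nb A v (dir φ) z := by
  intro l hl
  refine ⟨fun e => ?_, fun e => ?_⟩
  · by_cases k : l.lin (dir θ) = 0
    · have h3 : l.ev x = 0 := (sign_zero_iff ((hx l hl).1 e)).2 k
      rw [(hz l hl).1 h3, h2 l hl k]
    · have h3 : l.ev x ≠ 0 := sign_ne ((hx l hl).1 e) k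
      rw [(hz l hl).2 h3, (hx l hl).1 e, h1 l hl k]
  · have h3 : l.ev x ≠ 0 := sign_ne ((hx l hl).2 e) e
    rw [(hz l hl).2 h3, (hx l hl).2 e]

private theorem side_gen {A : Finset Ln} {v w : P2} {θ φ : ℝ}
    (h1 : ∀ l ∈ A, l.lin (dir θ) ≠ 0 →
      SignType.sign (l.lin (dir φ)) = SignType.sign (l.lin (dir θ)))
    (h2 : ∀ l ∈ A, l.lin (dir θ) = 0 →
      SignType.sign (l.lin (dir φ)) = SignType.sign (l.lin w))
    (h3 : ∀ l ∈ A, l.lin (dir θ) = 0 → l.lin w ≠ 0) : ¬isT A v φ := by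
  rintro ⟨l, hl, e, k⟩
  by_cases k' : l.lin (dir θ) = 0
  · exact sign_ne (h2 l hl k') (h3 l hl k') k
  · exact sign_ne (h1 l hl k') k' k

private theorem jump {U : Set P2} (hU : IsOpen U) {A : Finset Ln} {V : Type} [AddCommGroup V]
    (f : S2T U A → V) (v : P2) (hv : v ∈ U) {θ : ℝ} {c : S1T U A} (hc : OutD v (dir θ) c) :
    ∃ ε : ℝ, 0 < ε ∧ ∀ s : ℝ, 0 < s → s < ε →
      gg hU f v hv (θ + s) = f (lf hU c) ∧ gg hU f v hv (θ - s) = f (lf hU (sw c)) := by
  obtain ⟨ε, hε, h1⟩ := ev_sign A θ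
  obtain ⟨s, t, hs, hst, hx, hy, hne, hS, rfl, hx'⟩ := hc
  have e1 : v + t • dir θ - (v + s • dir θ) = (t - s) • dir θ := by module
  have hts : 0 < t - s := sub_pos.2 hst
  refine ⟨min ε Real.pi, lt_min hε Real.pi_pos, fun u hu hu' => ⟨?_, ?_⟩⟩
  · have hs1 : 0 < Real.sin u := Real.sin_pos_of_pos_of_lt_pi hu (hu'.trans_le (min_le_right _ _))
    obtain ⟨z, hz, hn⟩ := nb_ex U hU A (v + s • dir θ) hx
      (jr (v + t • dir θ - (v + s • dir θ)))
    have hg := nb_gen hne hS hn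
    rw [lf_c1 hU hx hy hne hS hz hg hn]
    rw [e1, jr_smul, Nb.smul hts] at hn
    have k1 : ∀ l ∈ A, l.lin (dir θ) ≠ 0 →
        SignType.sign (l.lin (dir (θ + u))) = SignType.sign (l.lin (dir θ)) := h1 (θ + u) (by
      have : θ + u - θ = u := by ring
      rw [this, abs_of_pos hu]
      exact hu'.trans_le (min_le_left _ _))
    have k2 : ∀ l ∈ A, l.lin (dir θ) = 0 →
        SignType.sign (l.lin (dir (θ + u))) = SignType.sign (l.lin (jr (dir θ))) := by
      intro l hl e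
      rw [lin_dir_add, e, mul_zero, zero_add, sign_mul, sign_pos hs1, one_mul]
    have k3 : ∀ l ∈ A, l.lin (dir θ) = 0 → l.lin (jr (dir θ)) ≠ 0 :=
      fun l hl e => l.lin_jr_ne (dir_ne θ) e
    exact gg_eq hU f v hv (side_gen k1 k2 k3) hz hg (side hx' hn k1 k2)
  · have hs1 : 0 < Real.sin u := Real.sin_pos_of_pos_of_lt_pi hu (hu'.trans_le (min_le_right _ _))
    obtain ⟨z, hz, hn⟩ := nb_ex U hU A (v + s • dir θ) hx
      (-jr (v + t • dir θ - (v + s • dir θ)))
    rw [e1, jr_smul, ← smul_neg, Nb.smul hts] at hn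
    have k1 : ∀ l ∈ A, l.lin (dir θ) ≠ 0 →
        SignType.sign (l.lin (dir (θ - u))) = SignType.sign (l.lin (dir θ)) := h1 (θ - u) (by
      have : θ - u - θ = -u := by ring
      rw [this, abs_neg, abs_of_pos hu]
      exact hu'.trans_le (min_le_left _ _))
    have k2 : ∀ l ∈ A, l.lin (dir θ) = 0 →
        SignType.sign (l.lin (dir (θ - u))) = SignType.sign (l.lin (-jr (dir θ))) := by
      intro l hl e
      rw [sub_eq_add_neg, lin_dir_add, e, mul_zero, zero_add, Real.sin_neg, lin_negE, neg_mul,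
        ← mul_neg, sign_mul, sign_pos hs1, one_mul]
    have k3 : ∀ l ∈ A, l.lin (dir θ) = 0 → l.lin (-jr (dir θ)) ≠ 0 := by
      intro l hl e
      rw [lin_negE]
      exact neg_ne_zero.2 (l.lin_jr_ne (dir_ne θ) e)
    have k4 : ¬isT A v (θ - u) := side_gen k1 k2 k3
    have k5 : Nb A v (dir (θ - u)) z := side hx' hn k1 k2
    have hg : Gen A z := gen_of k4 k5
    have hn' : Nb A (v + s • dir θ) (-jr (v + t • dir θ - (v + s • dir θ))) z := by
      rw [e1, jr_smul, ← smul_neg, Nb.smul hts]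
      exact hn
    rw [lf_sw_c1 hU hx hy hne hS hz hg hn']
    exact gg_eq hU f v hv k4 hz hg k5

theorem Dv_jump {U : Set P2} (hU : IsOpen U) {A : Finset Ln} {V : Type} [AddCommGroup V]
    (f : S2T U A → V) (v : P2) (hv : v ∈ U) :
    ∑ c ∈ (Dv_fin U A v).toFinset, (f (lf hU c) - f (lf hU (sw c))) = 0 := by
  obtain ⟨α, hα0, hα⟩ := (Set.Icc_infinite (zero_lt_one (α := ℝ))).exists_notMem_finite
    (fin_isT A v 0 1)
  have hα' : ¬isT A v α := fun h => hα ⟨hα0.1, hα0.2, h⟩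
  have hp := Real.two_pi_pos
  have hTf : {θ : ℝ | α < θ ∧ θ < α + 2 * Real.pi ∧ isT A v θ}.Finite :=
    (fin_isT A v α (α + 2 * Real.pi)).subset fun θ h => ⟨h.1.le, h.2.1.le, h.2.2⟩
  set T := hTf.toFinset with hT
  have hmT : ∀ θ, θ ∈ T ↔ α < θ ∧ θ < α + 2 * Real.pi ∧ isT A v θ := fun θ => by
    rw [hT, Set.Finite.mem_toFinset]
    rfl
  have hper : dir (α + 2 * Real.pi) = dir α := by
    have := dir_per α 1
    rwa [Int.cast_one, one_mul] at this
  have hα2 : ¬isT A v (α + 2 * Real.pi) := by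
    unfold isT
    rw [hper]
    exact hα'
  choose c hc using fun θ : ℝ => outD_ex U hU A v hv (dir θ) (dir_ne θ)
  have hsum : ∑ c ∈ (Dv_fin U A v).toFinset, (f (lf hU c) - f (lf hU (sw c))) =
      ∑ θ ∈ T, (f (lf hU (c θ)) - f (lf hU (sw (c θ)))) := by
    symm
    refine Finset.sum_nbij c ?_ ?_ ?_ (fun _ _ => rfl)
    · intro θ hθ
      rw [Set.Finite.mem_toFinset]
      refine ⟨⟨dir θ, hc θ⟩, ?_⟩
      rw [out_line (hc θ)]
      exact ((hmT θ).1 hθ).2.2
    · intro θ hθ θ' hθ' e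
      have h1 := (hmT θ).1 (Finset.mem_coe.1 hθ)
      have h2 := (hmT θ').1 (Finset.mem_coe.1 hθ')
      have h3 : OutD v (dir θ') (c θ) := by
        have e' : c θ = c θ' := e
        rw [e']
        exact hc θ'
      obtain ⟨r, hr, h4⟩ := OutD.dir (hc θ) h3
      have h5 : (1 : ℝ) • dir θ' = r • dir θ := by rw [one_smul, h4]
      obtain ⟨_, k, hk⟩ := smul_dir_inj one_pos hr h5
      have h6 : k = 0 := by
        have a1 : (k : ℝ) * (2 * Real.pi) < 1 * (2 * Real.pi) := by linarith [h1.1, h2.2.1]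
        have a2 : (-1) * (2 * Real.pi) < (k : ℝ) * (2 * Real.pi) := by linarith [h1.2.1, h2.1]
        have a3 : (k : ℝ) < 1 := lt_of_mul_lt_mul_right a1 hp.le
        have a4 : (-1 : ℝ) < k := lt_of_mul_lt_mul_right a2 hp.le
        have a5 : k < 1 := by exact_mod_cast a3
        have a6 : -1 < k := by exact_mod_cast a4
        omega
      rw [h6, Int.cast_zero, zero_mul, add_zero] at hk
      exact hk.symm
    · intro c' hc'
      rw [Finset.mem_coe, Set.Finite.mem_toFinset] at hc'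
      obtain ⟨⟨d, hd⟩, hN⟩ := hc'
      obtain ⟨r, θ, hr, h1, h2, h3⟩ := exists_dir d hd.ne α
      rw [h3] at hd
      have hd' := hd.smul hr
      have h4 : isT A v θ := (out_line hd').1 hN
      refine ⟨θ, ?_, outD_uniq (hc θ) hd'⟩
      rw [Finset.mem_coe, hmT]
      refine ⟨lt_of_le_of_ne h1 ?_, h2, h4⟩
      rintro rfl
      exact hα' h4
  rw [hsum, step_sum T α (α + 2 * Real.pi) (by linarith)
    (fun θ hθ => ⟨((hmT θ).1 hθ).1, ((hmT θ).1 hθ).2.1⟩) (gg hU f v hv)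
    (fun θ => f (lf hU (c θ))) (fun θ => f (lf hU (sw (c θ))))
    (fun θ hθ => jump hU f v hv (hc θ)) (fun x hx hx' hxT => ?_)]
  · obtain ⟨z, hz, hn⟩ := nb_ex U hU A v hv (dir α)
    have hn' : Nb A v (dir (α + 2 * Real.pi)) z := by rwa [hper]
    rw [gg_eq hU f v hv hα' hz (gen_of hα' hn) hn,
      gg_eq hU f v hv hα2 hz (gen_of hα' hn) hn', sub_self]
  · have h1 : ¬isT A v x := by
      intro k
      rcases eq_or_lt_of_le hx with h | h
      · exact hα' (h ▸ k)
      · rcases eq_or_lt_of_le hx' with h' | h'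
        · exact hα2 (h' ▸ k)
        · exact hxT ((hmT x).2 ⟨h, h', k⟩)
    exact gg_loc hU f v hv h1

end C715
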