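import Pool.Agent.Work.MP_c71557_gt.P.Defs

/-!
# MP_c71557_gt, block E (exactness for line arrangements): definitions

`A : Finset Ln` is an arrangement (with equations), `U` an open convex set.

* `crs u v`: cross product; `l.dr`: direction of `l`, the positive side of `l` is on its left;
  `jr`: rotation by `+90` degrees.
* `Red A`: no line occurs twice. `Two U A x`: `x ∈ U` is on no line of `A`.
* `Cocyc U A W`: `W q d` is the value of an odd function of oriented edges on the edge which
  starts at `q` (or contains `q`) in the direction `d` (0 if there is no such edge);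
  `cl`: at every point the outward sum vanishes.
* `p0` is a base point on no line; for a line `m` which separates `p0` and `x`, `qq p0 m x` is the
  point of `m` on the segment from `p0` to `x`; `drp p0 m` the direction of `m` with `p0` on its
  left; `wm W p0 m q` the mean value of `W` along `m` (in the direction `drp`) at `q`;
  `fE p0 A W x = - Σ_{m separates p0, x} wm W p0 m (qq p0 m x)`: the primitive of `W`.
-/

set_option autoImplicit false
set_option linter.unusedVariables false

namespace C715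

/-- cross product -/
def crs (u v : P2) : ℝ := u.1 * v.2 - u.2 * v.1

/-- rotation by 90 degrees -/
def jr (v : P2) : P2 := (-v.2, v.1)

/-- direction of a line, the positive side is on the left -/
def Ln.dr (l : Ln) : P2 := (l.b, -l.a)

/-- the same line -/
def Ln.Eqv (l m : Ln) : Prop := ∃ c : ℝ, c ≠ 0 ∧ ∀ x, l.ev x = c * m.ev x

/-- no line occurs twice -/
def Red (A : Finset Ln) : Prop := ∀ l ∈ A, ∀ m ∈ A, l.Eqv m → l = m

/-- points on no line -/
def Two (U : Set P2) (A : Finset Ln) (x : P2) : Prop := x ∈ U ∧ ∀ l ∈ A, l.ev x ≠ 0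

theorem Ln.ev_add (l : Ln) (x v : P2) : l.ev (x + v) = l.ev x + l.lin v := by
  simp only [Ln.ev, Ln.lin, Prod.fst_add, Prod.snd_add]
  ring

theorem Ln.lin_smE (l : Ln) (t : ℝ) (v : P2) : l.lin (t • v) = t * l.lin v := by
  simp only [Ln.lin, Prod.smul_fst, Prod.smul_snd, smul_eq_mul]
  ring

theorem Ln.ev_add_smul (l : Ln) (x v : P2) (t : ℝ) : l.ev (x + t • v) = l.ev x + t * l.lin v := by
  rw [Ln.ev_add, Ln.lin_smE]

theorem Ln.crs_dr (l : Ln) (v : P2) : crs l.dr v = l.lin v := by
  simp only [crs, Ln.dr, Ln.lin]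
  ring

theorem Ln.lin_dr (l : Ln) : l.lin l.dr = 0 := by
  simp only [Ln.dr, Ln.lin]
  ring

theorem Ln.dr_ne (l : Ln) : l.dr ≠ 0 := by
  intro h
  rcases l.ne with h1 | h1
  · exact h1 (by simpa [Ln.dr] using congrArg Prod.snd h)
  · exact h1 (congrArg Prod.fst h)

theorem Ln.continuous_ev (l : Ln) : Continuous l.ev := by
  unfold Ln.ev
  fun_prop

/-- local data of a closed odd function on oriented edges -/
structure Cocyc (U : Set P2) (A : Finset Ln) (W : P2 → P2 → ℚ) : Prop where
  loc : ∀ q ∈ U, ∀ d : P2, d ≠ 0 → ∃ ε : ℝ, 0 < ε ∧ ∀ s : ℝ, 0 < s → s < ε →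
    W (q + s • d) d = W q d ∧ W (q + s • d) (-d) = - W q d
  hom : ∀ (q d : P2) (t : ℝ), 0 < t → W q (t • d) = W q d
  cl : ∀ q ∈ U, ∑ l ∈ A with l.ev q = 0, (W q l.dr + W q (-l.dr)) = 0

/-- the point of `m` on the line from `p0` to `x` -/
noncomputable def qq (p0 : P2) (m : Ln) (x : P2) : P2 :=
  p0 + (m.ev p0 / (m.ev p0 - m.ev x)) • (x - p0)

open Classical in
/-- the direction of `m` with `p0` on the left -/
noncomputable def drp (p0 : P2) (m : Ln) : P2 := if 0 < m.ev p0 then m.dr else -m.dr

/-- the mean value at `q` in the direction `drp p0 m` -/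
noncomputable def wm (W : P2 → P2 → ℚ) (p0 : P2) (m : Ln) (q : P2) : ℚ :=
  (W q (drp p0 m) - W q (-drp p0 m)) / 2

open Classical in
/-- the primitive of `W` -/
noncomputable def fE (p0 : P2) (A : Finset Ln) (W : P2 → P2 → ℚ) (x : P2) : ℚ :=
  -∑ m ∈ A, if m.ev p0 * m.ev x < 0 then wm W p0 m (qq p0 m x) else 0

theorem ev_qq (p0 : P2) (m : Ln) (x : P2) (h : m.ev p0 * m.ev x < 0) : m.ev (qq p0 m x) = 0 := by
  have h1 : m.ev p0 - m.ev x ≠ 0 := by
    intro e
    have : m.ev p0 = m.ev x := by linarith
    rw [this] at h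
    nlinarith [mul_self_nonneg (m.ev x)]
  have h2 : m.lin (x - p0) = m.ev x - m.ev p0 := by
    simp only [Ln.ev, Ln.lin, Prod.fst_sub, Prod.snd_sub]
    ring
  rw [qq, Ln.ev_add_smul, h2]
  field_simp
  ring

end C715
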