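import Pool.Agent.Work.MP_c71557_gt.E.Nb

/-!
# MP_c71557_gt, block E: wall chords starting at a point (definitions)
-/

set_option autoImplicit false
set_option linter.unusedVariables false

noncomputable section

namespace C715

/-- the wall chords which start at `v` -/
def Dv (U : Set P2) (A : Finset Ln) (v : P2) : Set (S1T U A) :=
  {c | (∃ d, OutD v d c) ∧ c ∉ NW U A}

open Classical in
/-- the value of `φ` on the chord which starts at `q` in the direction `d` -/
def Wph {U : Set P2} {A : Finset Ln} (φ : S1T U A → ℚ) (q d : P2) : ℚ :=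
  if h : ∃ c : S1T U A, OutD q d c then φ h.choose else 0

theorem Wph_eq {U : Set P2} {A : Finset Ln} (φ : S1T U A → ℚ) {q d : P2} {c : S1T U A}
    (h : OutD q d c) : Wph φ q d = φ c := by
  have h1 : ∃ c : S1T U A, OutD q d c := ⟨c, h⟩
  unfold Wph
  rw [dif_pos h1, outD_uniq h1.choose_spec h]

/-- the direction is unique up to positive multiples -/
theorem OutD.dir {U : Set P2} {A : Finset Ln} {v d d' : P2} {c : S1T U A} (h : OutD v d c)
    (h' : OutD v d' c) : ∃ r : ℝ, 0 < r ∧ d' = r • d := by
  obtain ⟨s, t, hs, hst, hx, hy, hne, h1, rfl, h2⟩ := h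
  obtain ⟨s', t', hs', hst', hx', hy', hne', h1', e, h2'⟩ := h'
  obtain ⟨_, _, τ, hτ, k⟩ := c1_eq.1 e
  have e1 : v + t • d - (v + s • d) = (t - s) • d := by module
  have e2 : v + t' • d' - (v + s' • d') = (t' - s') • d' := by module
  rw [e1, e2, smul_smul] at k
  have h3 : 0 < t' - s' := by linarith
  refine ⟨(t' - s')⁻¹ * (τ * (t - s)), mul_pos (inv_pos.2 h3) (mul_pos hτ (by linarith)), ?_⟩
  rw [← smul_smul, ← k, smul_smul, inv_mul_cancel₀ h3.ne', one_smul]

end C715
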