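import Pool.Agent.Work.MP_c71557_gt.E.Sys

/-!
# MP_c71557_gt, block E: `d0` is injective
-/

set_option autoImplicit false
set_option linter.unusedVariables false

noncomputable section

namespace C715

open CategoryTheory

/-- lexicographic order of the plane -/
private def lx (u v : P2) : Prop := u.1 < v.1 ∨ (u.1 = v.1 ∧ u.2 ≤ v.2)

private theorem exists_lx (s : Finset P2) (hs : s.Nonempty) : ∃ v ∈ s, ∀ u ∈ s, lx u v := by
  obtain ⟨v, hv, h⟩ := Finset.exists_max_image s (fun x : P2 => toLex x) hs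
  refine ⟨v, hv, fun u hu => ?_⟩
  have h1 := h u hu
  rw [Prod.Lex.toLex_le_toLex] at h1
  exact h1

namespace FGeo

variable (𝔾 : FGeo)

theorem d0_inj (c : 𝔾.Str.Obj) : Function.Injective (𝔾.d0.f c) := by
  classical
  have hU := 𝔾.Ob_open c.o
  rw [injective_iff_map_eq_zero]
  intro z hz
  obtain ⟨y, rfl⟩ := Submodule.Quotient.mk_surjective _ z
  set y' : 𝔾.S0.X c.o →₀ ℚ := Finsupp.filter (fun x : 𝔾.S0.X c.o => x ∉ NV c.o.1.1 c.o.1.2) y
    with hy'
  have e1 : (Submodule.Quotient.mk y : 𝔾.F0.M c) = Submodule.Quotient.mk y' := by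
    refine (Submodule.Quotient.eq _).2 ?_
    rw [Finsupp.mem_supported]
    intro x hx
    by_contra hn
    have hn' : x ∉ NV c.o.1.1 c.o.1.2 := hn
    refine (Finsupp.mem_support_iff.1 hx) ?_
    have h1 : y' x = y x := Finsupp.filter_apply_pos
      (fun x : 𝔾.S0.X c.o => x ∉ NV c.o.1.1 c.o.1.2) y hn'
    change y x - y' x = 0
    rw [h1, sub_self]
  by_cases hs : y'.support.Nonempty
  · exfalso
    obtain ⟨w, hw, hmax⟩ := exists_lx (y'.support.image (fun x : 𝔾.S0.X c.o => x.1))
      (hs.image _)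
    obtain ⟨v, hv, rfl⟩ := Finset.mem_image.1 hw
    have hvert : ∀ u ∈ y'.support, u ∉ NV c.o.1.1 c.o.1.2 := by
      intro u hu hn
      have h1 := Finsupp.mem_support_iff.1 hu
      rw [hy', Finsupp.filter_apply_neg _ _ (fun k => k hn)] at h1
      exact h1 rfl
    obtain ⟨d, x, hd, hx, hx'⟩ := vertex_chord hU v (hvert v hv)
    let φ : 𝔾.S1.X c.o → ℚ := fun k => (if k = x then 1 else 0) - (if k = sw x then 1 else 0)
    have hsx : sw x ∉ NW c.o.1.1 c.o.1.2 := fun k => hx' (by
      have := sw_NW _ k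
      rwa [sw_sw] at this)
    have hsw : ∀ k : 𝔾.S1.X c.o, (sw k = x ↔ k = sw x) ∧ (sw k = sw x ↔ k = x) := fun k =>
      ⟨⟨fun e => by rw [← e, sw_sw], fun e => by rw [e, sw_sw]⟩,
        ⟨fun e => by
          have := congrArg sw e
          rwa [sw_sw, sw_sw] at this, fun e => by rw [e]⟩⟩
    let Φ : 𝔾.F1.M c →ₗ[ℚ] ℚ := 𝔾.lift1 φ
      (fun k hk => by
        have h1 : k ≠ x := fun e => hx' (e ▸ hk)
        have h2 : k ≠ sw x := fun e => hsx (e ▸ hk)
        change (if k = x then (1 : ℚ) else 0) - (if k = sw x then 1 else 0) = 0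
        rw [if_neg h1, if_neg h2, sub_self])
      (fun k => by
        change (if sw k = x then (1 : ℚ) else 0) - (if sw k = sw x then 1 else 0) =
          -((if k = x then (1 : ℚ) else 0) - (if k = sw x then 1 else 0))
        rw [neg_sub]
        congr 1
        · exact if_congr (hsw k).1 rfl rfl
        · exact if_congr (hsw k).2 rfl rfl)
    have hΦ : ∀ u : 𝔾.S0.X c.o, u ∈ y'.support →
        Φ (𝔾.d0.f c (𝔾.e0 c u)) = if u = v then (1 : ℚ) else 0 := by
      intro u hu
      rw [𝔾.d0_e0]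
      unfold s0
      rw [map_sum]
      refine (Finset.sum_congr rfl (fun k _ => 𝔾.lift1_e1 φ _ _ k)).trans ?_
      change ∑ k ∈ (Dv_fin c.o.1.1 c.o.1.2 u.1).toFinset,
        ((if k = x then (1 : ℚ) else 0) - (if k = sw x then 1 else 0)) = _
      rw [Finset.sum_sub_distrib, Finset.sum_ite_eq', Finset.sum_ite_eq']
      have h2 : sw x ∉ (Dv_fin c.o.1.1 c.o.1.2 u.1).toFinset := by
        intro k
        obtain ⟨r, hr, e⟩ := Dv_end hU v u (hvert u hu) d x hx ((Set.Finite.mem_toFinset _).1 k)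
        have h3 := hmax u.1 (Finset.mem_image_of_mem _ hu)
        unfold lx at h3
        have h4 : u.1.1 = v.1.1 + r * d.1 := congrArg Prod.fst e
        have h5 : u.1.2 = v.1.2 + r * d.2 := congrArg Prod.snd e
        rw [h4, h5] at h3
        rcases hd with hd | ⟨hd, hd'⟩
        · have := mul_pos hr hd
          rcases h3 with h3 | ⟨h3, _⟩ <;> linarith
        · have h6 := mul_pos hr hd'
          rw [hd] at h3
          rcases h3 with h3 | ⟨_, h3⟩ <;> linarith
      rw [if_neg h2, sub_zero]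
      refine if_congr ?_ rfl rfl
      rw [Set.Finite.mem_toFinset]
      constructor
      · intro k
        exact Dv_start hU u v (hvert u hu) (hvert v hv) x k ⟨⟨d, hx⟩, hx'⟩
      · rintro rfl
        exact ⟨⟨d, hx⟩, hx'⟩
    have hsum : (Submodule.Quotient.mk y' : 𝔾.F0.M c) =
        ∑ u ∈ y'.support, y' u • 𝔾.e0 c u := by
      have h3 : y' = ∑ u ∈ y'.support, y' u • Finsupp.single u (1 : ℚ) := by
        conv_lhs => rw [← Finsupp.sum_single y']
        unfold Finsupp.sum
        refine Finset.sum_congr rfl fun u _ => ?_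
        rw [Finsupp.smul_single, smul_eq_mul, mul_one]
      have h4 : (Submodule.Quotient.mk y' : 𝔾.F0.M c) =
          Submodule.mkQ _ (∑ u ∈ y'.support, y' u • Finsupp.single u (1 : ℚ)) :=
        congrArg _ h3
      rw [h4, map_sum]
      refine Finset.sum_congr rfl fun u _ => ?_
      rw [map_smul]
      rfl
    have h5 : Φ (𝔾.d0.f c (Submodule.Quotient.mk y')) = y' v := by
      rw [hsum, map_sum, map_sum]
      have h6 : ∀ u ∈ y'.support, Φ (𝔾.d0.f c (y' u • 𝔾.e0 c u)) =
          if u = v then y' u else 0 := by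
        intro u hu
        rw [map_smul, map_smul, hΦ u hu, smul_eq_mul, mul_ite, mul_one, mul_zero]
      rw [Finset.sum_congr rfl h6, Finset.sum_ite_eq', if_pos hv]
    have h7 : Φ (𝔾.d0.f c (Submodule.Quotient.mk y')) = 0 :=
      (congrArg (fun w => Φ (𝔾.d0.f c w)) e1).symm.trans ((congrArg Φ hz).trans (map_zero Φ))
    exact (Finsupp.mem_support_iff.1 hv) (h5.symm.trans h7)
  · rw [Finset.not_nonempty_iff_eq_empty, Finsupp.support_eq_empty] at hs
    rw [e1, hs]
    exact Submodule.Quotient.mk_zero _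

end FGeo
end C715
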