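import Pool.Agent.Work.MP_c71557_gt.E.Defs

/-!
# MP_c71557_gt, module E/LocC (M-L): the primitive `fE` is locally constant off the lines

Let `p0, x` be points of `U` on no line of `A`. Write `sep = {m ∈ A | m.ev p0 * m.ev x < 0}`; for
`m ∈ sep` put `q m = qq p0 m x`, a point of `U` (it is `p0 + t (x - p0)` with
`t = m.ev p0 / (m.ev p0 - m.ev x) ∈ (0, 1)`: opposite signs) on the line `m` (`ev_qq`).

1. For `y` near `x` the signs of all `m.ev y`, `m ∈ A`, are those of `m.ev x` (continuity), so the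
   set of separating lines is the same.
2. Fix `m ∈ sep` and let `d = drp p0 m`, `q = q m`. Then `crs d v` is
   `m.lin v` resp. `- m.lin v` (`Ln.crs_dr`), so `crs d (p0 - q) > 0` (`m.ev p0 = m.lin (p0 - q)`).
   For `y` near `x`: `qq p0 m y` is on `m`, so `qq p0 m y = q + s • d` for a real `s`
   (`m.lin v = 0` and `m.lin m.dr = 0`, `m.dr ≠ 0` in the plane), and `s → 0` for `y → x`
   (continuity of `qq`, e.g. `s = crs (qq p0 m y - q) (p0 - q) / crs d (p0 - q)`). The sign of `s` is
   the sign of `crs (x - p0) (y - p0)`: `q - p0 = t (x - p0)`, `qq p0 m y - p0 = t' (y - p0)` with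
   `t, t' > 0`, so `t t' crs (x - p0) (y - p0) = crs (q - p0) (q - p0 + s d) = s crs (q - p0) d
   = s crs d (p0 - q)`.
3. By `hW.loc` at `q` (directions `d` and `-d`) and step 2, for `y` near `x`:
   `s > 0`: `W (qq p0 m y) d = W q d`, `W (qq p0 m y) (-d) = - W q d`, hence
   `wm (qq p0 m y) - wm q = (W q d + W q (-d)) / 2`;
   `s < 0` (`q + s d = q + (-s) (-d)`): `wm (qq p0 m y) - wm q = - (W q d + W q (-d)) / 2`;
   `s = 0`: the difference is `0`.
   And `W q d + W q (-d) = W q m.dr + W q (-m.dr)` in both cases of `drp`.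
4. So for `y` near `x`, `fE y - fE x = - (σ / 2) Σ_{m ∈ sep} (W (q m) m.dr + W (q m) (-m.dr))` with
   `σ = 1, 0, -1` the sign of `crs (x - p0) (y - p0)`, the same for all `m`. Group the sum by the
   point `q m` (`Finset.sum_fiberwise_of_maps_to`): for a point `q` of the image,
   `{m ∈ sep | q m = q} = {m ∈ A | m.ev q = 0}`: if `m.ev q = 0` with `q = p0 + t (x - p0)`,
   `0 < t < 1`, then `(1 - t) m.ev p0 + t m.ev x = 0` with both values non zero, so `m` separates
   and its point `q m` is `q` (the same parameter `t`). Every inner sum is `0` by `hW.cl`.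
-/

set_option autoImplicit false
set_option linter.unusedVariables false

namespace C715

private theorem locc_sub (l : Ln) (x w : P2) :
    l.ev x - l.ev w = l.a * (x.1 - w.1) + l.b * (x.2 - w.2) := by
  simp only [Ln.ev]; ring

private theorem locc_sign (l : Ln) (w : P2) (h : l.ev w ≠ 0) :
    ∀ᶠ y in nhds w, SignType.sign (l.ev y) = SignType.sign (l.ev w) := by
  have hc := l.continuous_ev.tendsto w
  rcases lt_or_gt_of_ne h with h | h
  · filter_upwards [hc.eventually (gt_mem_nhds h)] with y hy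
    rw [sign_neg h, sign_neg hy]
  · filter_upwards [hc.eventually (lt_mem_nhds h)] with y hy
    rw [sign_pos h, sign_pos hy]

/-- separation is open -/
private theorem locc_sep (l : Ln) (p w : P2) (h : l.ev p ≠ 0) (h' : l.ev w ≠ 0) :
    ∀ᶠ y in nhds w, (l.ev p * l.ev y < 0 ↔ l.ev p * l.ev w < 0) := by
  filter_upwards [locc_sign l w h'] with y hy
  have e : SignType.sign (l.ev p * l.ev y) = SignType.sign (l.ev p * l.ev w) := by
    rw [sign_mul, sign_mul, hy]
  rw [← sign_eq_neg_one_iff, ← sign_eq_neg_one_iff, e]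

/-- the sign with values in `ℚ` -/
private noncomputable def sgq (r : ℝ) : ℚ := if 0 < r then 1 else if r < 0 then -1 else 0

/-- the local form of the mean value -/
private theorem locc_mean (U : Set P2) (A : Finset Ln) (W : P2 → P2 → ℚ) (hW : Cocyc U A W)
    (q : P2) (hq : q ∈ U) (d : P2) (hd : d ≠ 0) :
    ∀ᶠ s : ℝ in nhds 0, (W (q + s • d) d - W (q + s • d) (-d)) / 2 -
      (W q d - W q (-d)) / 2 = sgq s * ((W q d + W q (-d)) / 2) := by
  obtain ⟨ε, hε, h1⟩ := hW.loc q hq d hd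
  obtain ⟨ε', hε', h2⟩ := hW.loc q hq (-d) (neg_ne_zero.2 hd)
  have h3 : ∀ᶠ s : ℝ in nhds 0, s < ε := gt_mem_nhds hε
  have h4 : ∀ᶠ s : ℝ in nhds 0, -ε' < s := lt_mem_nhds (neg_lt_zero.2 hε')
  filter_upwards [h3, h4] with s hs hs'
  rcases lt_trichotomy s 0 with h | h | h
  · obtain ⟨e1, e2⟩ := h2 (-s) (by linarith) (by linarith)
    rw [neg_neg] at e2
    have e : q + (-s) • (-d) = q + s • d := by rw [neg_smul, smul_neg, neg_neg]
    rw [e] at e1 e2
    rw [e1, e2, sgq, if_neg (not_lt.2 h.le), if_pos h]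
    ring
  · subst h
    rw [sgq, if_neg (lt_irrefl _), if_neg (lt_irrefl _), zero_smul, add_zero]
    ring
  · obtain ⟨e1, e2⟩ := h1 s h hs
    rw [e1, e2, sgq, if_pos h]
    ring

/-- the difference of the intersection points -/
private theorem locc_qq (p0 : P2) (m : Ln) (x y : P2) (hx : m.ev p0 * m.ev x < 0)
    (hy : m.ev p0 * m.ev y < 0) :
    qq p0 m y = qq p0 m x + (|m.ev p0| * crs (x - p0) (y - p0) /
      ((m.ev x - m.ev p0) * (m.ev y - m.ev p0))) • drp p0 m := by
  have hx1 : m.ev x - m.ev p0 ≠ 0 := by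
    intro h
    have : m.ev x = m.ev p0 := by linarith
    rw [this] at hx
    nlinarith [mul_self_nonneg (m.ev p0)]
  have hy1 : m.ev y - m.ev p0 ≠ 0 := by
    intro h
    have : m.ev y = m.ev p0 := by linarith
    rw [this] at hy
    nlinarith [mul_self_nonneg (m.ev p0)]
  have hx2 : m.ev p0 - m.ev x ≠ 0 := fun h => hx1 (by linarith)
  have hy2 : m.ev p0 - m.ev y ≠ 0 := fun h => hy1 (by linarith)
  have key : (|m.ev p0| * crs (x - p0) (y - p0) /
      ((m.ev x - m.ev p0) * (m.ev y - m.ev p0))) • drp p0 m =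
      (m.ev p0 * crs (x - p0) (y - p0) /
      ((m.ev x - m.ev p0) * (m.ev y - m.ev p0))) • m.dr := by
    rw [drp]
    split_ifs with h
    · rw [abs_of_pos h]
    · rw [abs_of_nonpos (not_lt.1 h), smul_neg, ← neg_smul]
      congr 1
      ring
  rw [key]
  have ex := locc_sub m x p0
  have ey := locc_sub m y p0
  have hx3 : m.a * (x.1 - p0.1) + m.b * (x.2 - p0.2) ≠ 0 := by rwa [← ex]
  have hy3 : m.a * (y.1 - p0.1) + m.b * (y.2 - p0.2) ≠ 0 := by rwa [← ey]
  have ex' : m.ev p0 - m.ev x = -(m.a * (x.1 - p0.1) + m.b * (x.2 - p0.2)) := by linarith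
  have ey' : m.ev p0 - m.ev y = -(m.a * (y.1 - p0.1) + m.b * (y.2 - p0.2)) := by linarith
  unfold qq
  rw [ex', ey', ex, ey]
  refine Prod.ext ?_ ?_
  · simp only [Prod.fst_add, Prod.smul_fst, Prod.fst_sub, smul_eq_mul, crs, Ln.dr, Prod.snd_sub]
    field_simp
    ring
  · simp only [Prod.snd_add, Prod.smul_snd, Prod.snd_sub, smul_eq_mul, crs, Ln.dr, Prod.fst_sub]
    field_simp
    ring

private theorem locc_t (m : Ln) (p0 x : P2) (h : m.ev p0 * m.ev x < 0) :
    0 < m.ev p0 / (m.ev p0 - m.ev x) ∧ m.ev p0 / (m.ev p0 - m.ev x) < 1 := by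
  rcases lt_trichotomy (m.ev p0) 0 with h1 | h1 | h1
  · have h2 : 0 < m.ev x := by
      by_contra hcon
      have := mul_nonneg_of_nonpos_of_nonpos h1.le (not_lt.1 hcon)
      linarith
    have h3 : m.ev p0 - m.ev x < 0 := by linarith
    refine ⟨div_pos_of_neg_of_neg h1 h3, ?_⟩
    rw [div_lt_one_of_neg h3]
    linarith
  · rw [h1, zero_mul] at h
    exact absurd h (lt_irrefl _)
  · have h2 : m.ev x < 0 := by
      by_contra hcon
      have := mul_nonneg h1.le (not_lt.1 hcon)
      linarith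
    have h3 : 0 < m.ev p0 - m.ev x := by linarith
    refine ⟨div_pos h1 h3, ?_⟩
    rw [div_lt_one h3]
    linarith

private theorem locc_mem (U : Set P2) (hc : Convex ℝ U) (m : Ln) (p0 x : P2) (h0 : p0 ∈ U)
    (hx : x ∈ U) (h : m.ev p0 * m.ev x < 0) : qq p0 m x ∈ U := by
  obtain ⟨h1, h2⟩ := locc_t m p0 x h
  exact hc.add_smul_sub_mem h0 hx ⟨h1.le, h2.le⟩

private theorem locc_drp (W : P2 → P2 → ℚ) (p0 q : P2) (m : Ln) :
    W q (drp p0 m) + W q (-drp p0 m) = W q m.dr + W q (-m.dr) := by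
  rw [drp]
  split_ifs
  · rfl
  · rw [neg_neg, add_comm]

private theorem locc_drp_ne (p0 : P2) (m : Ln) : drp p0 m ≠ 0 := by
  rw [drp]
  split_ifs
  · exact m.dr_ne
  · exact neg_ne_zero.2 m.dr_ne

private theorem sgq_mul_pos (r t : ℝ) (ht : 0 < t) : sgq (r * t) = sgq r := by
  unfold sgq
  have h1 : 0 < r * t ↔ 0 < r := ⟨fun h => pos_of_mul_pos_left h ht.le, fun h => mul_pos h ht⟩
  have h2 : r * t < 0 ↔ r < 0 := ⟨fun h => by
    by_contra hcon
    have := mul_nonneg (not_lt.1 hcon) ht.le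
    linarith, fun h => mul_neg_of_neg_of_pos h ht⟩
  simp only [h1, h2]

/-- one term -/
private theorem locc_term (U : Set P2) (hc : Convex ℝ U) (A : Finset Ln) (W : P2 → P2 → ℚ)
    (hW : Cocyc U A W) (p0 : P2) (h0 : p0 ∈ U) (x : P2) (hx : x ∈ U) (m : Ln)
    (h : m.ev p0 * m.ev x < 0) :
    ∀ᶠ y in nhds x, wm W p0 m (qq p0 m y) - wm W p0 m (qq p0 m x) =
      sgq (crs (x - p0) (y - p0)) *
        ((W (qq p0 m x) m.dr + W (qq p0 m x) (-m.dr)) / 2) := by
  have hp0 : m.ev p0 ≠ 0 := fun h1 => by rw [h1, zero_mul] at h; exact absurd h (lt_irrefl _)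
  have hpx : m.ev x ≠ 0 := fun h1 => by rw [h1, mul_zero] at h; exact absurd h (lt_irrefl _)
  have hsep := locc_sep m p0 x hp0 hpx
  have hx1 : m.ev x - m.ev p0 ≠ 0 := by
    intro h1
    have : m.ev x = m.ev p0 := by linarith
    rw [this] at h
    nlinarith [mul_self_nonneg (m.ev p0)]
  have hcont : ContinuousAt (fun y : P2 => |m.ev p0| * crs (x - p0) (y - p0) /
      ((m.ev x - m.ev p0) * (m.ev y - m.ev p0))) x := by
    have hce := m.continuous_ev
    refine ContinuousAt.div ?_ ?_ ?_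
    · unfold crs
      fun_prop
    · fun_prop
    · exact mul_ne_zero hx1 hx1
  have hval : (|m.ev p0| * crs (x - p0) (x - p0) /
      ((m.ev x - m.ev p0) * (m.ev x - m.ev p0))) = 0 := by
    have : crs (x - p0) (x - p0) = 0 := by unfold crs; ring
    rw [this, mul_zero, zero_div]
  have htend : Filter.Tendsto (fun y : P2 => |m.ev p0| * crs (x - p0) (y - p0) /
      ((m.ev x - m.ev p0) * (m.ev y - m.ev p0))) (nhds x) (nhds 0) := by
    have := hcont.tendsto
    rwa [hval] at this
  have hmean := htend.eventually (locc_mean U A W hW (qq p0 m x)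
    (locc_mem U hc m p0 x h0 hx h) (drp p0 m) (locc_drp_ne p0 m))
  filter_upwards [hmean, hsep] with y hy hys
  have hy' : m.ev p0 * m.ev y < 0 := hys.2 h
  have e := locc_qq p0 m x y h hy'
  rw [← e] at hy
  unfold wm
  rw [hy, locc_drp]
  congr 1
  have hpos : 0 < |m.ev p0| / ((m.ev x - m.ev p0) * (m.ev y - m.ev p0)) := by
    refine div_pos (abs_pos.2 hp0) ?_
    rcases lt_or_gt_of_ne hp0 with h1 | h1
    · have h2 : 0 < m.ev x := by
        by_contra hcon
        have := mul_nonneg_of_nonpos_of_nonpos h1.le (not_lt.1 hcon)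
        linarith
      have h3 : 0 < m.ev y := by
        by_contra hcon
        have := mul_nonneg_of_nonpos_of_nonpos h1.le (not_lt.1 hcon)
        linarith
      exact mul_pos (by linarith) (by linarith)
    · have h2 : m.ev x < 0 := by
        by_contra hcon
        have := mul_nonneg h1.le (not_lt.1 hcon)
        linarith
      have h3 : m.ev y < 0 := by
        by_contra hcon
        have := mul_nonneg h1.le (not_lt.1 hcon)
        linarith
      exact mul_pos_of_neg_of_neg (by linarith) (by linarith)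
  have e2 : |m.ev p0| * crs (x - p0) (y - p0) / ((m.ev x - m.ev p0) * (m.ev y - m.ev p0)) =
      crs (x - p0) (y - p0) * (|m.ev p0| / ((m.ev x - m.ev p0) * (m.ev y - m.ev p0))) := by ring
  rw [e2, sgq_mul_pos _ _ hpos]

/-- the sum over the separating lines -/
private theorem locc_sum (U : Set P2) (hc : Convex ℝ U) (A : Finset Ln) (W : P2 → P2 → ℚ)
    (hW : Cocyc U A W) (p0 : P2) (h0 : Two U A p0) (x : P2) (hx : Two U A x) :
    ∑ m ∈ A with m.ev p0 * m.ev x < 0,
      (W (qq p0 m x) m.dr + W (qq p0 m x) (-m.dr)) = 0 := by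
  classical
  rw [← Finset.sum_fiberwise_of_maps_to
    (t := (A.filter fun m => m.ev p0 * m.ev x < 0).image fun m => qq p0 m x)
    (g := fun m => qq p0 m x) (fun m hm => Finset.mem_image_of_mem _ hm)]
  refine Finset.sum_eq_zero fun q hq => ?_
  obtain ⟨m0, hm0, rfl⟩ := Finset.mem_image.1 hq
  obtain ⟨hm0A, hm0s⟩ := Finset.mem_filter.1 hm0
  have hqU : qq p0 m0 x ∈ U := locc_mem U hc m0 p0 x h0.1 hx.1 hm0s
  rw [← hW.cl _ hqU]
  have hset : ((A.filter fun m => m.ev p0 * m.ev x < 0).filter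
      fun m => qq p0 m x = qq p0 m0 x) = A.filter fun l => l.ev (qq p0 m0 x) = 0 := by
    ext m
    simp only [Finset.mem_filter]
    constructor
    · rintro ⟨⟨h1, h2⟩, h3⟩
      refine ⟨h1, ?_⟩
      rw [← h3]
      exact ev_qq p0 m x h2
    · rintro ⟨h1, h2⟩
      obtain ⟨ht0, ht1⟩ := locc_t m0 p0 x hm0s
      set t := m0.ev p0 / (m0.ev p0 - m0.ev x) with ht
      have e1 : m.ev (qq p0 m0 x) = m.ev p0 + t * (m.ev x - m.ev p0) := by
        unfold qq
        rw [Ln.ev_add_smul, ← ht]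
        congr 2
        simp only [Ln.ev, Ln.lin, Prod.fst_sub, Prod.snd_sub]
        ring
      rw [e1] at h2
      have hp := h0.2 m h1
      have hs : m.ev p0 * m.ev x < 0 := by
        have e2 : t * (m.ev p0 * m.ev x) = -((1 - t) * (m.ev p0) ^ 2) := by
          linear_combination m.ev p0 * h2
        have h3 : 0 < (1 - t) * (m.ev p0) ^ 2 :=
          mul_pos (by linarith) (sq_pos_of_ne_zero hp)
        by_contra hcon
        have := mul_nonneg ht0.le (not_lt.1 hcon)
        linarith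
      refine ⟨⟨h1, hs⟩, ?_⟩
      have hne : m.ev p0 - m.ev x ≠ 0 := by
        intro h3
        have : m.ev p0 = m.ev x := by linarith
        rw [this] at hs
        nlinarith [mul_self_nonneg (m.ev x)]
      have e3 : m.ev p0 / (m.ev p0 - m.ev x) = t := by
        rw [div_eq_iff hne]
        linarith
      unfold qq
      rw [e3, ← ht]
  rw [hset]
  refine Finset.sum_congr rfl fun m hm => ?_
  have h2 : m ∈ ((A.filter fun m => m.ev p0 * m.ev x < 0).filter
      fun m => qq p0 m x = qq p0 m0 x) := by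
    rw [hset]
    exact hm
  rw [(Finset.mem_filter.1 h2).2]

theorem fE_loc (U : Set P2) (hc : Convex ℝ U) (A : Finset Ln) (W : P2 → P2 → ℚ)
    (hW : Cocyc U A W) (p0 : P2) (h0 : Two U A p0) (x : P2) (hx : Two U A x) :
    ∀ᶠ y in nhds x, fE p0 A W y = fE p0 A W x := by
  classical
  have h1 : ∀ᶠ y in nhds x, ∀ m ∈ A, (m.ev p0 * m.ev y < 0 ↔ m.ev p0 * m.ev x < 0) := by
    rw [Filter.eventually_all_finset]
    exact fun m hm => locc_sep m p0 x (h0.2 m hm) (hx.2 m hm)
  have h2 : ∀ᶠ y in nhds x, ∀ m ∈ A, m.ev p0 * m.ev x < 0 →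
      wm W p0 m (qq p0 m y) - wm W p0 m (qq p0 m x) =
      sgq (crs (x - p0) (y - p0)) *
        ((W (qq p0 m x) m.dr + W (qq p0 m x) (-m.dr)) / 2) := by
    rw [Filter.eventually_all_finset]
    intro m hm
    by_cases h : m.ev p0 * m.ev x < 0
    · filter_upwards [locc_term U hc A W hW p0 h0.1 x hx.1 m h] with y hy _
      exact hy
    · exact Filter.Eventually.of_forall fun y hy => absurd hy h
  filter_upwards [h1, h2] with y hy1 hy2
  have e1 : ∀ z : P2, fE p0 A W z =
      -∑ m ∈ A with m.ev p0 * m.ev z < 0, wm W p0 m (qq p0 m z) := by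
    intro z
    unfold fE
    rw [Finset.sum_filter]
  have e2 : (A.filter fun m => m.ev p0 * m.ev y < 0) = A.filter fun m => m.ev p0 * m.ev x < 0 :=
    Finset.filter_congr hy1
  rw [e1, e1, e2, neg_inj, ← sub_eq_zero, ← Finset.sum_sub_distrib]
  have e3 : ∑ m ∈ A with m.ev p0 * m.ev x < 0,
      (wm W p0 m (qq p0 m y) - wm W p0 m (qq p0 m x)) =
      ∑ m ∈ A with m.ev p0 * m.ev x < 0, sgq (crs (x - p0) (y - p0)) *
        ((W (qq p0 m x) m.dr + W (qq p0 m x) (-m.dr)) / 2) :=
    Finset.sum_congr rfl fun m hm => hy2 m (Finset.mem_filter.1 hm).1 (Finset.mem_filter.1 hm).2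
  rw [e3, ← Finset.mul_sum, ← Finset.sum_div, locc_sum U hc A W hW p0 h0 x hx]
  simp

end C715
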