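import Pool.Agent.Work.MP_c71557_gt.E.Cell
import Pool.Agent.Work.MP_c71557_gt.E.LocC

/-!
# MP_c71557_gt, module E/Jump (M): the jump of the primitive `fE` across an edge is `W`

`x ∈ U` is on the line `l ∈ A` and on no other line of `A`; `d ≠ 0` is a direction of `l`.

1. On the ray from `p0` through `x`: put `x+ = x + s (x - p0)`, `x- = x - s (x - p0)` for small
   `s > 0` (both in `U`, open, and on no line: for `m ≠ l` continuity; `l.ev x± = ∓ s l.ev p0`
   since `l.ev x = 0`, i.e. `l.ev (x + s (x - p0)) = - s * l.ev p0`). For `m ≠ l` in `A` the sign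
   of `m.ev x±` is that of `m.ev x ≠ 0` and, if `m` separates, `qq p0 m x+ = qq p0 m x-`
   (the intersection of `m` with the line from `p0` through `x`: with `y = p0 + r (x - p0)`,
   `m.ev p0 - m.ev y = r (m.ev p0 - m.ev x)`, so
   `(m.ev p0 / (m.ev p0 - m.ev y)) • (y - p0)` does not depend on `r > 0`). For `l`: `x-` is not
   separated from `p0`, `x+` is, and `qq p0 l x+ = x`. Hence
   `fE x+ - fE x- = - wm W p0 l x`.
2. `hW.cl` at `x`: the filter is `{l}`, so `W x l.dr + W x (-l.dr) = 0`; hence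
   `wm W p0 l x = W x (drp p0 l)` and `W x (-drp p0 l) = - W x (drp p0 l)`.
3. `d = c • drp p0 l` for a real `c ≠ 0` (`l.lin d = 0`). If `c > 0`: `W x d = W x (drp p0 l)`
   (`hW.hom`); `jr d` points to the left of `drp p0 l`, the side of `p0`: `l.lin (jr l.dr) =
   l.a ^ 2 + l.b ^ 2 > 0`, so `l.ev (x + s • jr d)` has the sign of `l.ev p0` and
   `l.ev (x - s • jr d)` the opposite sign. If `c < 0`: `W x d = - W x (drp p0 l)` and the sides are
   exchanged.
4. For small `s` the points `x ± s • jr d` are in `U`, on no line of `A`, and on the sides of the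
   other lines `m` on which `x` is; so they are in the 2-cells of `x-` and `x+`
   (`Same A`, step 3), and `fE` is constant on 2-cells by `cell_const` and `fE_loc`. Conclude with
   steps 1 and 2.

`core1` is then immediate: `p0` from `exists_two`, `f = fE p0 A W`.
-/

set_option autoImplicit false
set_option linter.unusedVariables false

namespace C715

private theorem sgn_eq {a b : ℝ} (h : 0 < a * b) : SignType.sign a = SignType.sign b := by
  rcases pos_and_pos_or_neg_and_neg_of_mul_pos h with ⟨h1, h2⟩ | ⟨h1, h2⟩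
  · rw [sign_pos h1, sign_pos h2]
  · rw [sign_neg h1, sign_neg h2]

private theorem neg_iff {a b c : ℝ} (h : 0 < a * b) : c * a < 0 ↔ c * b < 0 := by
  rcases pos_and_pos_or_neg_and_neg_of_mul_pos h with ⟨h1, h2⟩ | ⟨h1, h2⟩
  · rw [mul_neg_iff, mul_neg_iff]
    constructor
    · rintro (⟨h3, h4⟩ | ⟨h3, h4⟩)
      · linarith
      · exact Or.inr ⟨h3, h2⟩
    · rintro (⟨h3, h4⟩ | ⟨h3, h4⟩)
      · linarith
      · exact Or.inr ⟨h3, h1⟩
  · rw [mul_neg_iff, mul_neg_iff]
    constructor
    · rintro (⟨h3, h4⟩ | ⟨h3, h4⟩)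
      · exact Or.inl ⟨h3, h2⟩
      · linarith
    · rintro (⟨h3, h4⟩ | ⟨h3, h4⟩)
      · exact Or.inl ⟨h3, h1⟩
      · linarith

private theorem mul3 {a b c : ℝ} (h : 0 < a * b) (h' : 0 < a * c) : 0 < b * c := by
  rcases pos_and_pos_or_neg_and_neg_of_mul_pos h with ⟨h1, h2⟩ | ⟨h1, h2⟩ <;>
    rcases pos_and_pos_or_neg_and_neg_of_mul_pos h' with ⟨h3, h4⟩ | ⟨h3, h4⟩
  · exact mul_pos h2 h4
  · linarith
  · linarith
  · exact mul_pos_of_neg_of_neg h2 h4

private theorem near_pt (U : Set P2) (hU : IsOpen U) (A : Finset Ln) (x : P2) (hx : x ∈ U) (l : Ln)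
    (hu : ∀ m ∈ A, m.ev x = 0 → m = l) (w : P2) :
    ∃ ε : ℝ, 0 < ε ∧ ∀ s : ℝ, |s| < ε → x + s • w ∈ U ∧
      ∀ m ∈ A, m ≠ l → 0 < m.ev x * m.ev (x + s • w) := by
  have hc : Continuous fun s : ℝ => x + s • w := by fun_prop
  have e0 : x + (0 : ℝ) • w = x := by rw [zero_smul, add_zero]
  have h1 : ∀ᶠ s in nhds (0 : ℝ), x + s • w ∈ U := by
    refine hc.continuousAt.eventually_mem ?_
    rw [e0]
    exact hU.mem_nhds hx
  have h2 : ∀ᶠ s in nhds (0 : ℝ), ∀ m ∈ A, m ≠ l → 0 < m.ev x * m.ev (x + s • w) := by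
    rw [Finset.eventually_all]
    intro m hm
    by_cases hml : m = l
    · exact Filter.Eventually.of_forall fun s h => absurd hml h
    · have h3 : Continuous fun s : ℝ => m.ev x * m.ev (x + s • w) :=
        continuous_const.mul (m.continuous_ev.comp hc)
      have h4 : 0 < m.ev x * m.ev (x + (0 : ℝ) • w) := by
        rw [e0]
        exact mul_self_pos.2 fun h => hml (hu m hm h)
      exact (h3.continuousAt.eventually (lt_mem_nhds h4)).mono fun s hs _ => hs
  obtain ⟨ε, hε, h⟩ := Metric.eventually_nhds_iff.1 (h1.and h2)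
  exact ⟨ε, hε, fun s hs => h (by rwa [Real.dist_0_eq_abs])⟩

private theorem qq_ray (p0 : P2) (m : Ln) (v : P2) (r : ℝ) (hr : 0 < r) :
    qq p0 m (p0 + r • v) = p0 - (m.ev p0 / m.lin v) • v := by
  have e : (m.ev p0 / (m.ev p0 - m.ev (p0 + r • v))) * r = -(m.ev p0 / m.lin v) := by
    rw [Ln.ev_add_smul]
    by_cases h : m.lin v = 0
    · rw [h]; simp
    · have hr' := hr.ne'
      have : m.ev p0 - (m.ev p0 + r * m.lin v) = -(r * m.lin v) := by ring
      rw [this, div_neg]
      field_simp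
  rw [qq, add_sub_cancel_left, smul_smul, e, neg_smul, sub_eq_add_neg]

theorem fE_jump (U : Set P2) (hU : IsOpen U) (hc : Convex ℝ U) (A : Finset Ln)
    (W : P2 → P2 → ℚ) (hW : Cocyc U A W) (p0 : P2) (h0 : Two U A p0) (x : P2) (hx : x ∈ U)
    (l : Ln) (hl : l ∈ A) (hlx : l.ev x = 0) (hu : ∀ m ∈ A, m.ev x = 0 → m = l) (d : P2)
    (hd : l.lin d = 0) (hd0 : d ≠ 0) :
    ∃ ε : ℝ, 0 < ε ∧ ∀ s : ℝ, 0 < s → s < ε →
      fE p0 A W (x + s • jr d) - fE p0 A W (x - s • jr d) = W x d := by
  classical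
  have hlp : l.ev p0 ≠ 0 := h0.2 l hl
  have hv : l.lin (x - p0) = - l.ev p0 := by
    have : l.ev x = l.ev p0 + l.lin (x - p0) := by
      rw [← Ln.ev_add]; congr 1; abel
    linarith
  -- points near `x`
  obtain ⟨ε1, hε1, H1⟩ := near_pt U hU A x hx l hu (x - p0)
  obtain ⟨ε2, hε2, H2⟩ := near_pt U hU A x hx l hu (jr d)
  set s0 : ℝ := min (ε1 / 2) (1 / 2) with hs0
  have hs0p : 0 < s0 := by positivity
  have hs01 : s0 < 1 := lt_of_le_of_lt (min_le_right _ _) (by norm_num)
  have hs0e : s0 < ε1 := lt_of_le_of_lt (min_le_left _ _) (by linarith)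
  have Hp := H1 s0 (by rwa [abs_of_pos hs0p])
  have Hm := H1 (-s0) (by rwa [abs_neg, abs_of_pos hs0p])
  set xp : P2 := x + s0 • (x - p0) with hxp
  set xm : P2 := x + (-s0) • (x - p0) with hxm
  have lxp : l.ev xp = - (s0 * l.ev p0) := by
    rw [hxp, Ln.ev_add_smul, hlx, hv]; ring
  have lxm : l.ev xm = s0 * l.ev p0 := by
    rw [hxm, Ln.ev_add_smul, hlx, hv]; ring
  have hsq : 0 < l.ev p0 * l.ev p0 := mul_self_pos.2 hlp
  have exp' : xp = p0 + (1 + s0) • (x - p0) := by
    rw [hxp]; module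
  have exm' : xm = p0 + (1 - s0) • (x - p0) := by
    rw [hxm]; module
  -- the jump on the ray
  have hcl0 := hW.cl x hx
  have hfil : A.filter (fun m => m.ev x = 0) = {l} := by
    ext m
    simp only [Finset.mem_filter, Finset.mem_singleton]
    constructor
    · rintro ⟨h1, h2⟩; exact hu m h1 h2
    · rintro rfl; exact ⟨hl, hlx⟩
  have hcl : W x l.dr + W x (-l.dr) = 0 := by
    have : ∑ m ∈ A with m.ev x = 0, (W x m.dr + W x (-m.dr)) = 0 := by
      convert hcl0
    rwa [hfil, Finset.sum_singleton] at this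
  have hD : W x (drp p0 l) + W x (-drp p0 l) = 0 := by
    unfold drp
    split_ifs
    · exact hcl
    · rw [neg_neg]; linarith
  have hwm : wm W p0 l x = W x (drp p0 l) := by
    rw [wm]; linarith
  have hjump : fE p0 A W xp - fE p0 A W xm = - W x (drp p0 l) := by
    have key : ∀ m ∈ A, (if m.ev p0 * m.ev xp < 0 then wm W p0 m (qq p0 m xp) else 0) =
        (if m.ev p0 * m.ev xm < 0 then wm W p0 m (qq p0 m xm) else 0) +
          (if m = l then W x (drp p0 l) else 0) := by
      intro m hm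
      by_cases hml : m = l
      · subst hml
        rw [if_pos rfl, if_pos, if_neg, zero_add]
        · rw [exp', qq_ray p0 m _ _ (by linarith), hv, div_neg, div_self hlp]
          have : p0 - (-1 : ℝ) • (x - p0) = x := by module
          rw [this, hwm]
        · rw [lxm]
          have := mul_pos hs0p hsq
          nlinarith
        · rw [lxp]
          have := mul_pos hs0p hsq
          nlinarith
      · rw [if_neg hml, add_zero]
        have h1 := Hp.2 m hm hml
        have h2 := Hm.2 m hm hml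
        have h3 := mul3 h1 h2
        have h4 : qq p0 m xp = qq p0 m xm := by
          rw [exp', exm', qq_ray p0 m _ _ (by linarith), qq_ray p0 m _ _ (by linarith)]
        rw [h4]
        by_cases h5 : m.ev p0 * m.ev xp < 0
        · rw [if_pos h5, if_pos ((neg_iff h3).1 h5)]
        · rw [if_neg h5, if_neg fun h => h5 ((neg_iff h3).2 h)]
    unfold fE
    have hsum := Finset.sum_congr rfl key
    rw [Finset.sum_add_distrib, Finset.sum_ite_eq' A l, if_pos hl] at hsum
    have e1 : (∑ m ∈ A, if m.ev p0 * m.ev xp < 0 then wm W p0 m (qq p0 m xp) else 0) =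
      (∑ m ∈ A, if m.ev p0 * m.ev xm < 0 then wm W p0 m (qq p0 m xm) else 0) + W x (drp p0 l) := by
      convert hsum
    have e2 := e1
    linarith
  -- the direction
  have hab : 0 < l.a * l.a + l.b * l.b := by
    rcases l.ne with h | h
    · have := mul_self_pos.2 h; nlinarith [mul_self_nonneg l.b]
    · have := mul_self_pos.2 h; nlinarith [mul_self_nonneg l.a]
  -- `d = c • drp p0 l`
  obtain ⟨e, he, heq, hes⟩ : ∃ e : ℝ, 0 < e * l.ev p0 ∧ drp p0 l = e • l.dr ∧ e * e = 1 := by
    by_cases h : 0 < l.ev p0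
    · refine ⟨1, by linarith, ?_, by norm_num⟩
      rw [drp, if_pos h, one_smul]
    · refine ⟨-1, ?_, ?_, by norm_num⟩
      · have : l.ev p0 < 0 := lt_of_le_of_ne (not_lt.1 h) hlp
        linarith
      · rw [drp, if_neg h, neg_one_smul]
  obtain ⟨c, hc0, hdc⟩ : ∃ c : ℝ, c ≠ 0 ∧ d = c • l.dr := by
    refine ⟨(l.b * d.1 - l.a * d.2) / (l.a * l.a + l.b * l.b), ?_, ?_⟩
    · intro h
      rw [div_eq_zero_iff] at h
      rcases h with h | h
      · apply hd0
        have h1 : l.a * d.1 + l.b * d.2 = 0 := hd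
        have h2 : (l.a * l.a + l.b * l.b) * d.1 = 0 := by linear_combination l.a * h1 + l.b * h
        have h3 : (l.a * l.a + l.b * l.b) * d.2 = 0 := by linear_combination l.b * h1 - l.a * h
        rcases mul_eq_zero.1 h2 with h4 | h4
        · exact absurd h4 hab.ne'
        · rcases mul_eq_zero.1 h3 with h5 | h5
          · exact absurd h5 hab.ne'
          · exact Prod.ext h4 h5
      · exact absurd h hab.ne'
    · have h1 : l.a * d.1 + l.b * d.2 = 0 := hd
      have hab' := hab.ne'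
      apply Prod.ext
      · simp only [Ln.dr, Prod.smul_fst, smul_eq_mul]
        rw [div_mul_eq_mul_div, eq_div_iff hab']
        linear_combination l.a * h1
      · simp only [Ln.dr, Prod.smul_snd, smul_eq_mul]
        rw [div_mul_eq_mul_div, eq_div_iff hab']
        linear_combination l.b * h1
  have hdD : d = (c * e) • drp p0 l := by
    rw [heq, smul_smul, mul_assoc, hes, mul_one, hdc]
  have hce : c * e ≠ 0 := by
    intro h
    rcases mul_eq_zero.1 h with h | h
    · exact hc0 h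
    · rw [h, zero_mul] at he; exact lt_irrefl _ he
  have hjr : l.lin (jr d) = c * (l.a * l.a + l.b * l.b) := by
    rw [hdc]
    simp only [Ln.lin, jr, Ln.dr, Prod.smul_fst, Prod.smul_snd, smul_eq_mul]
    ring
  -- constancy
  have hconst : ∀ y z, Two U A y → Two U A z → Same A y z → fE p0 A W y = fE p0 A W z :=
    fun y z hy hz hs => cell_const U hc A _ (fun t ht => fE_loc U hc A W hW p0 h0 t ht) y z hy hz hs
  have htwo : ∀ y : P2, y ∈ U → (∀ m ∈ A, m ≠ l → 0 < m.ev x * m.ev y) → l.ev y ≠ 0 →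
      Two U A y := by
    intro y hy h1 h2
    refine ⟨hy, fun m hm => ?_⟩
    by_cases hml : m = l
    · rw [hml]; exact h2
    · intro h3
      have := h1 m hm hml
      rw [h3, mul_zero] at this
      exact lt_irrefl _ this
  have hsame : ∀ y z : P2, (∀ m ∈ A, m ≠ l → 0 < m.ev x * m.ev y) →
      (∀ m ∈ A, m ≠ l → 0 < m.ev x * m.ev z) → 0 < l.ev y * l.ev z → Same A y z := by
    intro y z h1 h2 h3 m hm
    by_cases hml : m = l
    · rw [hml]; exact sgn_eq h3
    · exact sgn_eq (mul3 (h1 m hm hml) (h2 m hm hml))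
  have hTp : Two U A xp := htwo xp Hp.1 Hp.2 (by
    rw [lxp]; exact neg_ne_zero.2 (mul_ne_zero hs0p.ne' hlp))
  have hTm : Two U A xm := htwo xm Hm.1 Hm.2 (by
    rw [lxm]; exact mul_ne_zero hs0p.ne' hlp)
  refine ⟨ε2, hε2, fun s hs hs2 => ?_⟩
  have Gp := H2 s (by rwa [abs_of_pos hs])
  have Gm := H2 (-s) (by rwa [abs_neg, abs_of_pos hs])
  have hsubm : x - s • jr d = x + (-s) • jr d := by rw [neg_smul, sub_eq_add_neg]
  rw [hsubm]
  set yp : P2 := x + s • jr d with hyp
  set ym : P2 := x + (-s) • jr d with hym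
  have lyp : l.ev yp = s * (c * (l.a * l.a + l.b * l.b)) := by
    rw [hyp, Ln.ev_add_smul, hlx, hjr]; ring
  have lym : l.ev ym = - (s * (c * (l.a * l.a + l.b * l.b))) := by
    rw [hym, Ln.ev_add_smul, hlx, hjr]; ring
  have hcab : c * (l.a * l.a + l.b * l.b) ≠ 0 := mul_ne_zero hc0 hab.ne'
  have hYp : Two U A yp := htwo yp Gp.1 Gp.2 (by rw [lyp]; exact mul_ne_zero hs.ne' hcab)
  have hYm : Two U A ym := htwo ym Gm.1 Gm.2 (by
    rw [lym]; exact neg_ne_zero.2 (mul_ne_zero hs.ne' hcab))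
  rcases lt_or_gt_of_ne hce with hneg | hpos
  · -- `c * e < 0`
    have hcp : c * l.ev p0 < 0 := by
      have h1 : (c * e) * (e * l.ev p0) < 0 := mul_neg_of_neg_of_pos hneg he
      have h2 : (c * e) * (e * l.ev p0) = c * l.ev p0 := by
        linear_combination c * l.ev p0 * hes
      linarith
    have hpr : 0 < (s * s0 * (l.a * l.a + l.b * l.b)) * (-(c * l.ev p0)) := by
      apply mul_pos _ (by linarith)
      positivity
    have e1 : fE p0 A W yp = fE p0 A W xp := hconst _ _ hYp hTp (hsame _ _ Gp.2 Hp.2 (by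
      rw [lyp, lxp]
      linarith))
    have e2 : fE p0 A W ym = fE p0 A W xm := hconst _ _ hYm hTm (hsame _ _ Gm.2 Hm.2 (by
      rw [lym, lxm]
      linarith))
    rw [e1, e2, hjump]
    have e3 : d = (-(c * e)) • (-drp p0 l) := by rw [smul_neg, neg_smul, neg_neg]; exact hdD
    rw [e3, hW.hom _ _ _ (by linarith)]
    linarith
  · have hcp : 0 < c * l.ev p0 := by
      have h1 : 0 < (c * e) * (e * l.ev p0) := mul_pos hpos he
      have h2 : (c * e) * (e * l.ev p0) = c * l.ev p0 := by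
        linear_combination c * l.ev p0 * hes
      linarith
    have hpr : 0 < (s * s0 * (l.a * l.a + l.b * l.b)) * (c * l.ev p0) := by
      apply mul_pos _ hcp
      positivity
    have e1 : fE p0 A W yp = fE p0 A W xm := hconst _ _ hYp hTm (hsame _ _ Gp.2 Hm.2 (by
      rw [lyp, lxm]
      linarith))
    have e2 : fE p0 A W ym = fE p0 A W xp := hconst _ _ hYm hTp (hsame _ _ Gm.2 Hp.2 (by
      rw [lym, lxp]
      linarith))
    rw [e1, e2, hdD, hW.hom _ _ _ hpos]
    linarith

theorem core1 (U : Set P2) (hU : IsOpen U) (hc : Convex ℝ U) (hne : U.Nonempty)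
    (A : Finset Ln) (W : P2 → P2 → ℚ) (hW : Cocyc U A W) :
    ∃ f : P2 → ℚ, (∀ x y, Two U A x → Two U A y → Same A x y → f x = f y) ∧
      ∀ x ∈ U, ∀ l ∈ A, l.ev x = 0 → (∀ m ∈ A, m.ev x = 0 → m = l) → ∀ d : P2,
        l.lin d = 0 → d ≠ 0 → ∃ ε : ℝ, 0 < ε ∧ ∀ s : ℝ, 0 < s → s < ε →
          f (x + s • jr d) - f (x - s • jr d) = W x d := by
  obtain ⟨p0, h0⟩ := exists_two U hU hne A
  exact ⟨fE p0 A W, fun x y hx hy e => cell_const U hc A _
      (fun z hz => fE_loc U hc A W hW p0 h0 z hz) x y hx hy e,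
    fun x hx l hl hlx hu d hd hd0 => fE_jump U hU hc A W hW p0 h0 x hx l hl hlx hu d hd hd0⟩

end C715
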