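import Pool.Agent.Work.MP_c71557_gt.E.Defs

/-!
# MP_c71557_gt, module E/RedA (S): removing repeated lines

`Ln.Eqv` is an equivalence relation. Choose one representative in every class which meets `A`:
`B = A.image r` where `r l` is the chosen representative of the class of `l` among the elements of
`A` (classical choice), or induction on `A` (`Finset.induction_on`: if the new line is equivalent to
one of `B` keep `B`, otherwise insert it). `Same A x y ↔ Same B x y`: if `l.ev = c * m.ev` with
`c ≠ 0` then `sign (l.ev x) = sign c * sign (m.ev x)` (`sign_mul`).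
-/

set_option autoImplicit false
set_option linter.unusedVariables false

namespace C715

theorem exists_red (A : Finset Ln) : ∃ B : Finset Ln, B ⊆ A ∧ Red B ∧
    (∀ l ∈ A, ∃ m ∈ B, l.Eqv m) ∧ (∀ x y, Same A x y ↔ Same B x y) ∧
    ∀ (U : Set P2) (x : P2), Two U A x ↔ Two U B x := by
  classical
  have key : ∃ B : Finset Ln, B ⊆ A ∧ Red B ∧ ∀ l ∈ A, ∃ m ∈ B, l.Eqv m := by
    induction A using Finset.induction_on with
    | empty =>
      exact ⟨∅, le_rfl, fun l hl => absurd hl (Finset.notMem_empty l),
        fun l hl => absurd hl (Finset.notMem_empty l)⟩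
    | @insert l A _ ih =>
      obtain ⟨B, h1, h2, h3⟩ := ih
      by_cases h : ∃ m ∈ B, l.Eqv m
      · refine ⟨B, h1.trans (Finset.subset_insert _ _), h2, fun m hm => ?_⟩
        rcases Finset.mem_insert.1 hm with rfl | hm
        · exact h
        · exact h3 m hm
      · refine ⟨insert l B, Finset.insert_subset_insert _ h1, ?_, fun m hm => ?_⟩
        · intro m hm n hn e
          rcases Finset.mem_insert.1 hm with hm1 | hm1
          · rcases Finset.mem_insert.1 hn with hn1 | hn1
            · rw [hm1, hn1]
            · rw [hm1] at e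
              exact absurd ⟨n, hn1, e⟩ h
          · rcases Finset.mem_insert.1 hn with hn1 | hn1
            · rw [hn1] at e
              refine absurd ⟨m, hm1, ?_⟩ h
              obtain ⟨c, hc, hc'⟩ := e
              refine ⟨c⁻¹, inv_ne_zero hc, fun x => ?_⟩
              rw [hc' x, ← mul_assoc, inv_mul_cancel₀ hc, one_mul]
            · exact h2 m hm1 n hn1 e
        · rcases Finset.mem_insert.1 hm with rfl | hm
          · exact ⟨m, Finset.mem_insert_self _ _, 1, one_ne_zero, fun x => (one_mul _).symm⟩
          · obtain ⟨n, hn, e⟩ := h3 m hm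
            exact ⟨n, Finset.mem_insert_of_mem hn, e⟩
  obtain ⟨B, h1, h2, h3⟩ := key
  refine ⟨B, h1, h2, h3, fun x y => ⟨fun h l hl => h l (h1 hl), fun h l hl => ?_⟩,
    fun U x => ⟨fun h => ⟨h.1, fun l hl => h.2 l (h1 hl)⟩, fun h => ⟨h.1, fun l hl => ?_⟩⟩⟩
  · obtain ⟨m, hm, c, hc, hc'⟩ := h3 l hl
    rw [hc' x, hc' y, sign_mul, sign_mul, h m hm]
  · obtain ⟨m, hm, c, hc, hc'⟩ := h3 l hl
    rw [hc' x]
    exact mul_ne_zero hc (h.2 m hm)

end C715
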