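import Pool.Agent.Work.MP_c71557_gt.E.CocW
import Pool.Agent.Work.MP_c71557_gt.E.Jump
import Pool.Agent.Work.MP_c71557_gt.E.Conn
import Pool.Agent.Work.MP_c71557_gt.E.RedA

/-!
# MP_c71557_gt, module E/ExF (M): the dual exactness statements

Let `B` be from `exists_red A`. `Two U A x ↔ Two U B x`, `Same A x y ↔ Same B x y`; `Two U A x` is
`x ∈ U ∧ Gen A x`.

Edge points: let `x ∈ U`, `l ∈ B`, `l.ev x = 0` and suppose that `l` is the only line of `B` through
`x`. For `d ≠ 0` with `l.lin d = 0` and small `δ > 0` the points `x` and `y = x + δ • d` are in the same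
cell (`nb_ev U hU B x hx d`: for `m ∈ B` with `m.ev x = 0`, `m = l`, `l.lin d = 0`; so
`Nb B x d y` is `Same B x y`), so `κ = c1 x y` is a chord; for small `s > 0` the point
`x + s • jr d` is in `lf κ` and `x - s • jr d` is in `lf (sw κ)` (`lf_c1`, `lf_sw_c1`, `nb_ev` for `A`
and the directions `± jr d`; `Nb.smul` since `y - x = δ • d`; `nb_gen`).

* `ex2F`: put `g x = f (c2 x _ _)` if `Two U A x`, else `0`, and apply `core2 U hU hc B`: `h1` by
  `c2_eq`; `h2`: the chord `κ` above with `d = l.dr`, `jr l.dr = (l.a, l.b)`, and the hypothesis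
  `f (lf κ) = f (lf (sw κ))`.
* `ex1F`: `cocW` gives `Cocyc U B (Wph φ)`, `core1` a function `g : P2 → ℚ`; let
  `f = c2`-lift of `g` (`Quotient.lift`, well defined by the first property of `g`). Let
  `c = c1 x y`. If `c ∈ NW`: `φ c = 0` and `lf (sw c) = lf c` (`lf_sw_NW`). Otherwise there is `l ∈ A`
  with `l.ev x = 0`, hence one in `B`; it is the only line of `B` through `x`: another one, `m`,
  has `m.ev x = 0 = m.ev y` (same cell) as well as `l.ev x = 0 = l.ev y`, `x ≠ y`, so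
  `m.Eqv l` (both are the line through `x` and `y`), `m = l` by `Red B`. Let `d = y - x`;
  `l.lin d = 0` (`Same.lin_eq`). The chord `c` starts at `x` in the direction `d`: for small
  `0 < s < t < 1` `c = c1 (x + s • d) (x + t • d)` by `c1_eq` (these points are in the cell of `x`,
  as above), and `Nb A x d (x + s • d)` (`nb_ev`). So `Wph φ x d = φ c` and by `core1`
  `g (x + s • jr d) - g (x - s • jr d) = φ c` for small `s`, which is `f (lf c) - f (lf (sw c))`.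
-/

set_option autoImplicit false
set_option linter.unusedVariables false

noncomputable section

namespace C715

/-- points near an edge point, along the edge -/
private theorem edge {U : Set P2} (hU : IsOpen U) {A B : Finset Ln} (hS : ∀ x y, Same A x y ↔ Same B x y)
    {x : P2} (hx : x ∈ U) {l : Ln} (hlx : l.ev x = 0) (hu : ∀ m ∈ B, m.ev x = 0 → m = l) {d : P2}
    (hd : l.lin d = 0) :
    ∃ ε : ℝ, 0 < ε ∧ ∀ s : ℝ, 0 < s → s < ε → x + s • d ∈ U ∧ Same A x (x + s • d) := by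
  obtain ⟨ε, hε, h⟩ := nb_ev U hU B x hx d
  refine ⟨ε, hε, fun s hs hs' => ?_⟩
  obtain ⟨h1, h2⟩ := h s hs hs'
  refine ⟨h1, (hS _ _).2 fun m hm => ?_⟩
  by_cases hmx : m.ev x = 0
  · have h3 := (h2 m hm).1 hmx
    rw [h3, hmx, hu m hm hmx, hd]
  · exact ((h2 m hm).2 hmx).symm

/-- the two sides of a chord -/
private theorem sides {U : Set P2} (hU : IsOpen U) {A : Finset Ln} {x y : P2} (hx : x ∈ U) (hy : y ∈ U)
    (hne : x ≠ y) (h : Same A x y) {d : P2} {δ : ℝ} (hδ : 0 < δ) (hyx : y - x = δ • d) :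
    ∃ ε : ℝ, 0 < ε ∧ ∀ s : ℝ, 0 < s → s < ε →
      (∃ (hz : x + s • jr d ∈ U) (hg : Gen A (x + s • jr d)),
        lf hU (c1 x y hx hy hne h) = c2 (x + s • jr d) hz hg) ∧
      ∃ (hz : x - s • jr d ∈ U) (hg : Gen A (x - s • jr d)),
        lf hU (sw (c1 x y hx hy hne h)) = c2 (x - s • jr d) hz hg := by
  obtain ⟨ε₁, hε₁, h1⟩ := nb_ev U hU A x hx (jr d)
  obtain ⟨ε₂, hε₂, h2⟩ := nb_ev U hU A x hx (-jr d)
  have hj : jr (y - x) = δ • jr d := by rw [hyx, jr_smul]
  refine ⟨min ε₁ ε₂, lt_min hε₁ hε₂, fun s hs hs' => ⟨?_, ?_⟩⟩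
  · obtain ⟨h3, h4⟩ := h1 s hs (hs'.trans_le (min_le_left _ _))
    have h5 : Nb A x (jr (y - x)) (x + s • jr d) := by
      rw [hj]
      exact (Nb.smul hδ).2 h4
    exact ⟨h3, nb_gen hne h h5, lf_c1 hU hx hy hne h h3 _ h5⟩
  · obtain ⟨h3, h4⟩ := h2 s hs (hs'.trans_le (min_le_right _ _))
    have e : x + s • -jr d = x - s • jr d := by rw [smul_neg, sub_eq_add_neg]
    rw [e] at h3 h4
    have h5 : Nb A x (-jr (y - x)) (x - s • jr d) := by
      rw [hj, ← smul_neg]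
      exact (Nb.smul hδ).2 h4
    have h6 : Nb A y (jr (x - y)) (x - s • jr d) := by
      rw [← neg_sub y x, jr_neg]
      exact (Nb.base h).1 h5
    exact ⟨h3, nb_gen hne.symm h.symm h6, lf_sw_c1 hU hx hy hne h h3 _ h5⟩

/-- two lines through two points -/
private theorem eqv_of_two {m l : Ln} {x d : P2} (hd : d ≠ 0) (hm : m.lin d = 0) (hl : l.lin d = 0)
    (hmx : m.ev x = 0) (hlx : l.ev x = 0) : m.Eqv l := by
  have h1 := m.lin_jr_ne hd hm
  have h2 := l.lin_jr_ne hd hl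
  refine ⟨m.lin (jr d) / l.lin (jr d), div_ne_zero h1 h2, fun z => ?_⟩
  have e1 : m.ev z = m.lin (z - x) := by rw [← Ln.ev_sub, hmx, sub_zero]
  have e2 : l.ev z = l.lin (z - x) := by rw [← Ln.ev_sub, hlx, sub_zero]
  rw [e1, e2, div_mul_eq_mul_div, eq_div_iff h2]
  set v := z - x
  simp only [Ln.lin, jr] at hm hl ⊢
  have hdet1 : (m.a * l.b - l.a * m.b) * d.1 = 0 := by linear_combination l.b * hm - m.b * hl
  have hdet2 : (m.a * l.b - l.a * m.b) * d.2 = 0 := by linear_combination m.a * hl - l.a * hm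
  linear_combination v.1 * hdet1 + v.2 * hdet2

theorem ex2F {U : Set P2} (hU : IsOpen U) (hc : Convex ℝ U) (hne : U.Nonempty) {A : Finset Ln}
    (f : S2T U A → ℚ) (h : ∀ c : S1T U A, f (lf hU c) = f (lf hU (sw c))) (z z' : S2T U A) :
    f z = f z' := by
  classical
  obtain ⟨B, hBA, hB, h1, hS, hT⟩ := exists_red A
  set g : P2 → ℚ := fun x => if hx : Two U A x then f (c2 x hx.1 hx.2) else 0 with hg
  have hgx : ∀ (x : P2) (hx : x ∈ U) (hx' : Gen A x), g x = f (c2 x hx hx') := by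
    intro x hx hx'
    have h2 : Two U A x := ⟨hx, hx'⟩
    rw [hg]
    simp only [dif_pos h2]
  have key := core2 U hU hc B hB g ?_ ?_
  · induction z using c2_ind with
    | h x hx hx' =>
      induction z' using c2_ind with
      | h y hy hy' =>
        rw [← hgx x hx hx', ← hgx y hy hy']
        exact key x y ((hT U x).1 ⟨hx, hx'⟩) ((hT U y).1 ⟨hy, hy'⟩)
  · intro x y hx hy e
    have hx2 := (hT U x).2 hx
    have hy2 := (hT U y).2 hy
    rw [hgx x hx2.1 hx2.2, hgx y hy2.1 hy2.2]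
    exact congrArg f (c2_eq.2 ((hS x y).2 e))
  · intro x hx l hl hlx hu
    obtain ⟨ε₀, hε₀, h2⟩ := edge hU hS hx hlx hu l.lin_dr
    obtain ⟨hy, hsame⟩ := h2 (ε₀ / 2) (half_pos hε₀) (half_lt_self hε₀)
    have hne' : x ≠ x + (ε₀ / 2) • l.dr := by
      intro e
      have h3 : (ε₀ / 2) • l.dr = 0 := by
        have h4 := e.symm
        rwa [add_eq_left] at h4
      rcases smul_eq_zero.1 h3 with h5 | h5
      · exact (half_pos hε₀).ne' h5
      · exact l.dr_ne h5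
    obtain ⟨ε, hε, h3⟩ := sides hU hx hy hne' hsame (half_pos hε₀) (add_sub_cancel_left x ((ε₀ / 2) • l.dr))
    refine ⟨ε, hε, fun s hs hs' => ?_⟩
    obtain ⟨⟨hz, hg1, e1⟩, ⟨hz', hg2, e2⟩⟩ := h3 s hs hs'
    have hjr : jr l.dr = ((l.a, l.b) : P2) := by
      simp [jr, Ln.dr]
    have h4 := h (c1 x (x + (ε₀ / 2) • l.dr) hx hy hne' hsame)
    rw [e1, e2, ← hgx, ← hgx, hjr] at h4
    exact h4

theorem ex1F {U : Set P2} (hU : IsOpen U) (hc : Convex ℝ U) (hne : U.Nonempty) {A : Finset Ln}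
    (φ : S1T U A → ℚ) (hNW : ∀ c ∈ NW U A, φ c = 0) (hsw : ∀ c, φ (sw c) = -φ c)
    (hcl : ∀ v ∈ U, ∑ c ∈ (Dv_fin U A v).toFinset, φ c = 0) :
    ∃ f : S2T U A → ℚ, ∀ c, φ c = f (lf hU c) - f (lf hU (sw c)) := by
  obtain ⟨B, hBA, hB, h1, hS, hT⟩ := exists_red A
  obtain ⟨g, hg1, hg2⟩ := core1 U hU hc hne B (Wph φ) (cocW hU hB hBA h1 φ hsw hcl)
  let f : S2T U A → ℚ := Quotient.lift (fun x : {x : P2 // x ∈ U ∧ Gen A x} => g x.1) (by
    rintro ⟨x, hx, hx'⟩ ⟨y, hy, hy'⟩ (e : Same A x y)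
    exact hg1 x y ((hT U x).1 ⟨hx, hx'⟩) ((hT U y).1 ⟨hy, hy'⟩) ((hS x y).1 e))
  have hf : ∀ (x : P2) (hx : x ∈ U) (hx' : Gen A x), f (c2 x hx hx') = g x := fun _ _ _ => rfl
  refine ⟨f, fun c => ?_⟩
  by_cases hcN : c ∈ NW U A
  · rw [hNW c hcN, lf_sw_NW hU hcN, sub_self]
  · induction c using c1_ind with
    | h x y hx hy hne' hsame =>
      have hng : ¬ Gen A x := fun k => hcN (mem_NW.2 k)
      obtain ⟨l', hl', hl'x⟩ : ∃ l' ∈ A, l'.ev x = 0 := by
        unfold Gen at hng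
        push Not at hng
        exact hng
      obtain ⟨l, hl, a, ha, hal⟩ := h1 l' hl'
      have hlx : l.ev x = 0 := by
        have h2 := hal x
        rw [hl'x] at h2
        exact (mul_eq_zero.1 h2.symm).resolve_left ha
      have hd0 : y - x ≠ 0 := sub_ne_zero.2 hne'.symm
      have hld : l.lin (y - x) = 0 := hsame.lin_eq (hBA hl) hlx
      have hu : ∀ m ∈ B, m.ev x = 0 → m = l := by
        intro m hm hmx
        exact hB m hm l hl (eqv_of_two hd0 (hsame.lin_eq (hBA hm) hmx) hld hmx hlx)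
      obtain ⟨ε₀, hε₀, h2⟩ := edge hU hS hx hlx hu hld
      obtain ⟨ε₁, hε₁, h3⟩ := nb_ev U hU A x hx (y - x)
      have hm : 0 < min ε₀ ε₁ := lt_min hε₀ hε₁
      have hout : OutD x (y - x) (c1 x y hx hy hne' hsame) := by
        have k1 : min ε₀ ε₁ / 3 < ε₀ := by
          have := min_le_left ε₀ ε₁
          linarith
        have k2 : min ε₀ ε₁ / 2 < ε₀ := by
          have := min_le_left ε₀ ε₁
          linarith
        have k3 : min ε₀ ε₁ / 3 < ε₁ := by
          have := min_le_right ε₀ ε₁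
          linarith
        obtain ⟨u1, s1⟩ := h2 (min ε₀ ε₁ / 3) (by linarith) k1
        obtain ⟨u2, s2⟩ := h2 (min ε₀ ε₁ / 2) (by linarith) k2
        refine ⟨min ε₀ ε₁ / 3, min ε₀ ε₁ / 2, by linarith, by linarith, u1, u2, seg_ne hd0 (by linarith),
          s1.symm.trans s2, ?_, (h3 _ (by linarith) k3).2⟩
        refine c1_eq.2 ⟨s1, ⟨min ε₀ ε₁ / 3, by rw [add_sub_cancel_left]⟩,
          min ε₀ ε₁ / 2 - min ε₀ ε₁ / 3, by linarith, ?_⟩
        rw [add_sub_add_left_eq_sub, ← sub_smul]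
      obtain ⟨ε₂, hε₂, h4⟩ := sides hU hx hy hne' hsame one_pos (one_smul ℝ (y - x)).symm
      obtain ⟨ε₃, hε₃, h5⟩ := hg2 x hx l hl hlx hu (y - x) hld hd0
      have hm2 : 0 < min ε₂ ε₃ := lt_min hε₂ hε₃
      have k4 : min ε₂ ε₃ / 2 < ε₂ := by
        have := min_le_left ε₂ ε₃
        linarith
      have k5 : min ε₂ ε₃ / 2 < ε₃ := by
        have := min_le_right ε₂ ε₃
        linarith
      obtain ⟨⟨hz, hgz, e1⟩, ⟨hz', hgz', e2⟩⟩ := h4 (min ε₂ ε₃ / 2) (half_pos hm2) k4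
      rw [e1, e2, hf, hf, h5 _ (half_pos hm2) k5, Wph_eq φ hout]

end C715
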