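import Pool.Agent.Work.MP_c71557_gt.K.Coefs
import Pool.Agent.Work.MP_c71557_gt.E.Defs

/-!
# MP_c71557_gt, block E: the cells near a point, left sides of chords

`Nb A v d z`: `z` has the signs of `v + 0⁺ d`.  `lf κ`: the 2-cell on the left of the chord `κ`.
All proofs complete.
-/

set_option autoImplicit false
set_option linter.unusedVariables false

noncomputable section

namespace C715

open scoped Topology

/-- `z` has the signs of `v + 0⁺ d` -/
def Nb (A : Finset Ln) (v d z : P2) : Prop :=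
  ∀ l ∈ A, (l.ev v = 0 → SignType.sign (l.ev z) = SignType.sign (l.lin d)) ∧
    (l.ev v ≠ 0 → SignType.sign (l.ev z) = SignType.sign (l.ev v))

theorem Nb.same {A : Finset Ln} {v d z z' : P2} (h : Nb A v d z) (h' : Nb A v d z') :
    Same A z z' := by
  intro l hl
  by_cases e : l.ev v = 0
  · rw [(h l hl).1 e, (h' l hl).1 e]
  · rw [(h l hl).2 e, (h' l hl).2 e]

theorem Nb.of_same {A : Finset Ln} {v d z z' : P2} (h : Nb A v d z) (h' : Same A z z') :
    Nb A v d z' := fun l hl =>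
  ⟨fun e => (h' l hl).symm.trans ((h l hl).1 e), fun e => (h' l hl).symm.trans ((h l hl).2 e)⟩

theorem Nb.smul {A : Finset Ln} {v d z : P2} {t : ℝ} (ht : 0 < t) :
    Nb A v (t • d) z ↔ Nb A v d z := by
  unfold Nb
  have : ∀ l : Ln, SignType.sign (l.lin (t • d)) = SignType.sign (l.lin d) := fun l => by
    rw [Ln.lin_smul, sign_mul, sign_pos ht, one_mul]
  simp only [this]

theorem sign_zero_iff {a b : ℝ} (h : SignType.sign a = SignType.sign b) : a = 0 ↔ b = 0 := by
  rw [← sign_eq_zero_iff, h, sign_eq_zero_iff]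

theorem Nb.base {A : Finset Ln} {v v' d z : P2} (h : Same A v v') :
    Nb A v d z ↔ Nb A v' d z := by
  constructor
  · intro k l hl
    refine ⟨fun e => (k l hl).1 ((sign_zero_iff (h l hl)).2 e), fun e => ?_⟩
    rw [(k l hl).2 (fun e' => e ((sign_zero_iff (h l hl)).1 e')), h l hl]
  · intro k l hl
    refine ⟨fun e => (k l hl).1 ((sign_zero_iff (h l hl)).1 e), fun e => ?_⟩
    rw [(k l hl).2 (fun e' => e ((sign_zero_iff (h l hl)).2 e')), h l hl]

/-- all points `v + s d`, `s > 0` small, are in the cell `Nb A v d` -/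
theorem nb_ev (U : Set P2) (hU : IsOpen U) (A : Finset Ln) (v : P2) (hv : v ∈ U) (d : P2) :
    ∃ ε : ℝ, 0 < ε ∧ ∀ s : ℝ, 0 < s → s < ε → v + s • d ∈ U ∧ Nb A v d (v + s • d) := by
  have h1 : Filter.Tendsto (fun s : ℝ => v + s • d) (𝓝 0) (𝓝 v) := by
    have h3 : Continuous (fun s : ℝ => v + s • d) :=
      continuous_const.add (continuous_id.smul continuous_const)
    have h4 := h3.tendsto 0
    rwa [zero_smul, add_zero] at h4
  have h2 : ∀ᶠ y in 𝓝 v, ∀ l ∈ A, l.ev v ≠ 0 →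
      SignType.sign (l.ev v) = SignType.sign (l.ev y) := by
    rw [Filter.eventually_all_finset]
    intro l hl
    by_cases e : l.ev v = 0
    · exact Filter.Eventually.of_forall fun y h => absurd e h
    · filter_upwards [l.sign_nhds e] with y hy _
      exact hy
  have h3 := (h1.eventually (hU.mem_nhds hv)).and (h1.eventually h2)
  obtain ⟨ε, hε, h5⟩ := Metric.eventually_nhds_iff.1 h3
  refine ⟨ε, hε, fun s hs hs' => ?_⟩
  have h6 := h5 (y := s) (by rw [Real.dist_eq, sub_zero, abs_of_pos hs]; exact hs')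
  refine ⟨h6.1, fun l hl => ⟨fun e => ?_, fun e => (h6.2 l hl e).symm⟩⟩
  rw [Ln.ev_add_smul, e, zero_add, sign_mul, sign_pos hs, one_mul]

/-- a representative of the cell `Nb A v d` -/
theorem nb_ex (U : Set P2) (hU : IsOpen U) (A : Finset Ln) (v : P2) (hv : v ∈ U) (d : P2) :
    ∃ z ∈ U, Nb A v d z := by
  obtain ⟨ε, hε, h⟩ := nb_ev U hU A v hv d
  exact ⟨_, (h (ε / 2) (half_pos hε) (half_lt_self hε)).1,
    (h (ε / 2) (half_pos hε) (half_lt_self hε)).2⟩

/-- two vectors on which a line vanishes -/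
theorem Ln.lin_jr_ne (l : Ln) {v : P2} (hv : v ≠ 0) (h : l.lin v = 0) : l.lin (jr v) ≠ 0 := by
  intro h'
  obtain ⟨v1, v2⟩ := v
  have h1 : l.a * v1 + l.b * v2 = 0 := h
  have h2 : l.a * (-v2) + l.b * v1 = 0 := h'
  have h3 : v1 * v1 + v2 * v2 ≠ 0 := by
    intro e
    apply hv
    have : v1 = 0 ∧ v2 = 0 := by
      constructor <;> nlinarith [mul_self_nonneg v1, mul_self_nonneg v2]
    rw [this.1, this.2]
    rfl
  have ha : l.a * (v1 * v1 + v2 * v2) = 0 := by linear_combination v1 * h1 - v2 * h2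
  have hb : l.b * (v1 * v1 + v2 * v2) = 0 := by linear_combination v2 * h1 + v1 * h2
  rcases l.ne with k | k
  · exact k ((mul_eq_zero.1 ha).resolve_right h3)
  · exact k ((mul_eq_zero.1 hb).resolve_right h3)

/-- lines through a point of a chord are lines of the chord -/
theorem Same.lin_eq {A : Finset Ln} {x y : P2} (h : Same A x y) {l : Ln} (hl : l ∈ A)
    (e : l.ev x = 0) : l.lin (y - x) = 0 := by
  rw [← Ln.ev_sub, (sign_zero_iff (h l hl)).1 e, e, sub_zero]

/-- the left side of a chord is in a 2-cell -/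
theorem nb_gen {A : Finset Ln} {x y z : P2} (hne : x ≠ y) (h : Same A x y)
    (hz : Nb A x (jr (y - x)) z) : Gen A z := by
  intro l hl e
  by_cases k : l.ev x = 0
  · have h1 := (hz l hl).1 k
    rw [e, sign_zero, eq_comm, sign_eq_zero_iff] at h1
    exact l.lin_jr_ne (sub_ne_zero.2 hne.symm) (h.lin_eq hl k) h1
  · have h1 := (hz l hl).2 k
    rw [e, sign_zero, eq_comm, sign_eq_zero_iff] at h1
    exact k h1

theorem jr_smul (t : ℝ) (v : P2) : jr (t • v) = t • jr v := by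
  simp [jr]

theorem jr_neg (v : P2) : jr (-v) = -jr v := by
  simp [jr]

/-- independence of the representative -/
theorem nb_rel {U : Set P2} {A : Finset Ln} {p q : PrT U A} (h : (s1 U A).r p q) (z : P2) :
    Nb A p.1.1 (jr (p.1.2 - p.1.1)) z ↔ Nb A q.1.1 (jr (q.1.2 - q.1.1)) z := by
  obtain ⟨h1, _, t, ht, h2⟩ := h
  rw [h2, jr_smul, Nb.smul ht]
  exact Nb.base h1

/-- the left 2-cell of a pair of points -/
def lfP {U : Set P2} (hU : IsOpen U) {A : Finset Ln} (p : PrT U A) : S2T U A :=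
  c2 (nb_ex U hU A p.1.1 p.2.1 (jr (p.1.2 - p.1.1))).choose
    (nb_ex U hU A p.1.1 p.2.1 (jr (p.1.2 - p.1.1))).choose_spec.1
    (nb_gen p.2.2.2.1 p.2.2.2.2 (nb_ex U hU A p.1.1 p.2.1 (jr (p.1.2 - p.1.1))).choose_spec.2)

theorem lfP_eq {U : Set P2} (hU : IsOpen U) {A : Finset Ln} (p : PrT U A) {z : P2} (hz : z ∈ U)
    (hz' : Gen A z) (h : Nb A p.1.1 (jr (p.1.2 - p.1.1)) z) : lfP hU p = c2 z hz hz' :=
  c2_eq.2 (Nb.same (nb_ex U hU A p.1.1 p.2.1 (jr (p.1.2 - p.1.1))).choose_spec.2 h)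

/-- the 2-cell on the left of a chord -/
def lf {U : Set P2} (hU : IsOpen U) {A : Finset Ln} : S1T U A → S2T U A :=
  c1_lift (lfP hU) (fun p q h => by
    obtain ⟨z, hz, hz'⟩ := nb_ex U hU A q.1.1 q.2.1 (jr (q.1.2 - q.1.1))
    have hg := nb_gen q.2.2.2.1 q.2.2.2.2 hz'
    rw [lfP_eq hU q hz hg hz', lfP_eq hU p hz hg ((nb_rel h z).2 hz')])

theorem lf_c1 {U : Set P2} (hU : IsOpen U) {A : Finset Ln} {x y : P2} (hx : x ∈ U) (hy : y ∈ U)
    (hne : x ≠ y) (h : Same A x y) {z : P2} (hz : z ∈ U) (hz' : Gen A z)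
    (hn : Nb A x (jr (y - x)) z) : lf hU (c1 x y hx hy hne h) = c2 z hz hz' :=
  lfP_eq hU ⟨(x, y), hx, hy, hne, h⟩ hz hz' hn

/-- the left 2-cell of a chord in a 2-cell -/
theorem lf_NW {U : Set P2} (hU : IsOpen U) {A : Finset Ln} {x y : P2} (hx : x ∈ U) (hy : y ∈ U)
    (hne : x ≠ y) (h : Same A x y) (hg : Gen A x) :
    lf hU (c1 x y hx hy hne h) = c2 x hx hg :=
  lf_c1 hU hx hy hne h hx hg (fun l hl => ⟨fun e => absurd e (hg l hl), fun _ => rfl⟩)

/-- both sides of a chord in a 2-cell agree -/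
theorem lf_sw_NW {U : Set P2} (hU : IsOpen U) {A : Finset Ln} {c : S1T U A} (hc : c ∈ NW U A) :
    lf hU (sw c) = lf hU c := by
  induction c using c1_ind with
  | h x y hx hy hne h =>
    rw [sw_c1, lf_NW hU hx hy hne h (mem_NW.1 hc),
      lf_NW hU hy hx hne.symm h.symm ((mem_NW.1 hc).same h)]
    exact c2_eq.2 h.symm

/-- the right side -/
theorem lf_sw_c1 {U : Set P2} (hU : IsOpen U) {A : Finset Ln} {x y : P2} (hx : x ∈ U)
    (hy : y ∈ U) (hne : x ≠ y) (h : Same A x y) {z : P2} (hz : z ∈ U) (hz' : Gen A z)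
    (hn : Nb A x (-jr (y - x)) z) : lf hU (sw (c1 x y hx hy hne h)) = c2 z hz hz' := by
  rw [sw_c1]
  refine lf_c1 hU hy hx hne.symm h.symm hz hz' ?_
  rw [← neg_sub y x, jr_neg]
  exact (Nb.base h).1 hn

/-! ## chords starting at a point -/

/-- `c` is the chord which starts at `v` in the direction `d` -/
def OutD {U : Set P2} {A : Finset Ln} (v d : P2) (c : S1T U A) : Prop :=
  ∃ (s t : ℝ) (_ : 0 < s) (_ : s < t) (hx : v + s • d ∈ U) (hy : v + t • d ∈ U)
    (hne : v + s • d ≠ v + t • d) (h : Same A (v + s • d) (v + t • d)),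
    c = c1 (v + s • d) (v + t • d) hx hy hne h ∧ Nb A v d (v + s • d)

theorem seg_ne {v d : P2} (hd : d ≠ 0) {s t : ℝ} (h : s < t) : v + s • d ≠ v + t • d := by
  intro e
  have h1 : (t - s) • d = 0 := by
    rw [sub_smul, sub_eq_zero]
    exact (add_left_cancel e).symm
  rcases smul_eq_zero.1 h1 with h2 | h2
  · linarith
  · exact hd h2

/-- existence, with small representatives -/
theorem outD_ev (U : Set P2) (hU : IsOpen U) (A : Finset Ln) (v : P2) (hv : v ∈ U) (d : P2)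
    (hd : d ≠ 0) : ∃ ε : ℝ, 0 < ε ∧ ∀ s t : ℝ, 0 < s → (hst : s < t) → t < ε →
      ∃ (hx : v + s • d ∈ U) (hy : v + t • d ∈ U) (h : Same A (v + s • d) (v + t • d)),
        OutD v d (c1 (v + s • d) (v + t • d) hx hy (seg_ne hd hst) h) := by
  obtain ⟨ε, hε, h⟩ := nb_ev U hU A v hv d
  refine ⟨ε, hε, fun s t hs hst ht => ?_⟩
  have h1 := h s hs (hst.trans ht)
  have h2 := h t (hs.trans hst) ht
  exact ⟨h1.1, h2.1, h1.2.same h2.2, s, t, hs, hst, h1.1, h2.1, seg_ne hd hst, h1.2.same h2.2,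
    rfl, h1.2⟩

theorem outD_ex (U : Set P2) (hU : IsOpen U) (A : Finset Ln) (v : P2) (hv : v ∈ U) (d : P2)
    (hd : d ≠ 0) : ∃ c : S1T U A, OutD v d c := by
  obtain ⟨ε, hε, h⟩ := outD_ev U hU A v hv d hd
  obtain ⟨hx, hy, h1, h2⟩ := h (ε / 3) (ε / 2) (by linarith) (by linarith) (by linarith)
  exact ⟨_, h2⟩

/-- uniqueness -/
theorem outD_uniq {U : Set P2} {A : Finset Ln} {v d : P2} {c c' : S1T U A} (h : OutD v d c)
    (h' : OutD v d c') : c = c' := by
  obtain ⟨s, t, hs, hst, hx, hy, hne, h1, rfl, h2⟩ := h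
  obtain ⟨s', t', hs', hst', hx', hy', hne', h1', rfl, h2'⟩ := h'
  have e1 : v + t • d - (v + s • d) = (t - s) • d := by module
  have e2 : v + t' • d - (v + s' • d) = (t' - s') • d := by module
  have e3 : v + s' • d - (v + s • d) = (s' - s) • d := by module
  have h3 : t - s ≠ 0 := by linarith
  refine c1_eq.2 ⟨h2.same h2', ⟨(s' - s) / (t - s), ?_⟩, (t' - s') / (t - s),
    div_pos (by linarith) (by linarith), ?_⟩
  · rw [e1, e3, smul_smul, div_mul_cancel₀ _ h3]
  · rw [e1, e2, smul_smul, div_mul_cancel₀ _ h3]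

/-- positive multiples of the direction -/
theorem OutD.smul {U : Set P2} {A : Finset Ln} {v d : P2} {c : S1T U A} {r : ℝ} (hr : 0 < r)
    (h : OutD v (r • d) c) : OutD v d c := by
  obtain ⟨s, t, hs, hst, hx, hy, hne, h1, rfl, h2⟩ := h
  refine ⟨s * r, t * r, mul_pos hs hr, mul_lt_mul_of_pos_right hst hr, by rwa [← smul_smul],
    by rwa [← smul_smul], by rwa [← smul_smul, ← smul_smul], by rwa [← smul_smul, ← smul_smul],
    by simp only [smul_smul], ?_⟩
  rw [← smul_smul]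
  exact (Nb.smul hr).1 h2

theorem OutD.ne {U : Set P2} {A : Finset Ln} {v d : P2} {c : S1T U A} (h : OutD v d c) :
    d ≠ 0 := by
  obtain ⟨s, t, hs, hst, hx, hy, hne, h1, rfl, h2⟩ := h
  rintro rfl
  simp at hne

end C715
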