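import Pool.Agent.Work.MP_c71557_gt.K.PhC
import Pool.Agent.Work.MP_c71557_gt.E.Nb

/-!
# MP_c71557_gt, module E/Ger (M): the derivative of an element of `Gf` at a point

Let `F = (a.ph x).1 : XX`. `Gf_exp` (K/PhC): there is `ε > 0` with
`a.g (x + t • dir θ) = a.g x + t • vec F θ`, `vec F θ = F.r θ • dir (F.f θ)`, for all `θ` and
`0 ≤ t ≤ ε`. Since `a.ph x ∈ Ft`: `F.f (θ + 2π) = F.f θ + 2π`, `F.r (θ + 2π) = F.r θ` (`mem_Ft`,
A/Defs); `F.f : ℝ ≃o ℝ`, `F.pos : 0 < F.r θ`.

Definition: `D 0 = 0` and `D v = s • vec F θ` for `v = s • dir θ`, `s > 0` (e.g. `s` the euclidean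
norm and `θ` the argument of the complex number `⟨v.1, v.2⟩`: `Complex.norm_mul_cos_arg`,
`Complex.norm_mul_sin_arg`); it does not depend on the choice of `θ` (two choices differ by a
multiple of `2π`: `Real.Angle` or `Complex.arg` API).
* homogeneous: clear; local form: `Gf_exp` with `t * s` in place of `t` (and `ε / s`).
* injective: `D v = D v'`, both non zero: `s r(θ) dir (f θ) = s' r(θ') dir (f θ')`, so
  `f θ ≡ f θ'` modulo `2π`, `f θ' = f θ + 2πk = f (θ + 2πk)`, so `θ' = θ + 2πk`, `r θ = r θ'`,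
  `s = s'`. `D v = 0` only for `v = 0`.
* surjective: `v' = s' • dir ψ` with `s' > 0` is `D (s • dir θ)` for `θ = F.f.symm ψ`,
  `s = s' / F.r θ`.
* orientation: let `d = s • dir θ` (it is not 0 because `crs d d' > 0`), `D (-d) = - (r • D d)`,
  `r > 0`. `-d = s • dir (θ + π)`, so `dir (F.f (θ + π)) = - dir (F.f θ)` (unit vectors, positive
  proportionality), i.e. `F.f (θ + π) = F.f θ + π + 2πk`; by monotonicity
  `F.f θ < F.f (θ + π) < F.f (θ + 2π) = F.f θ + 2π`, so `k = 0`. `crs d d' > 0` means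
  `d' = s' • dir θ'` with `θ < θ' < θ + π` for a suitable choice of `θ'`
  (`crs (dir α) (dir β) = sin (β - α)`); then `F.f θ < F.f θ' < F.f θ + π`, so
  `crs (D d) (D d') = s s' r(θ) r(θ') sin (F.f θ' - F.f θ) > 0`.
-/

set_option autoImplicit false
set_option linter.unusedVariables false

noncomputable section

namespace C715

open Ang

private theorem ft_per (F : ↥Ft) (k : ℤ) (s : ℝ) : (F : XX).f (s + k * (2 * Real.pi)) = (F : XX).f s + k * (2 * Real.pi) ∧
    (F : XX).r (s + k * (2 * Real.pi)) = (F : XX).r s := by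
  have h1 : ∀ s, (F : XX).f (s + 2 * Real.pi) = (F : XX).f s + 2 * Real.pi ∧ (F : XX).r (s + 2 * Real.pi) = (F : XX).r s :=
    fun s => ⟨congrArg Prod.fst (mem_Ft.1 F.2 s), congrArg Prod.snd (mem_Ft.1 F.2 s)⟩
  induction k using Int.induction_on generalizing s with
  | zero =>
    rw [Int.cast_zero, zero_mul, add_zero, add_zero]
    exact ⟨rfl, rfl⟩
  | succ n ih =>
    have e : s + ((n + 1 : ℤ) : ℝ) * (2 * Real.pi) = (s + ((n : ℤ) : ℝ) * (2 * Real.pi)) + 2 * Real.pi := by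
      push_cast
      ring
    rw [e, (h1 _).1, (h1 _).2, (ih s).1, (ih s).2]
    refine ⟨?_, rfl⟩
    push_cast
    ring
  | pred n ih =>
    have e : (s + ((-n - 1 : ℤ) : ℝ) * (2 * Real.pi)) + 2 * Real.pi = s + ((-n : ℤ) : ℝ) * (2 * Real.pi) := by
      push_cast
      ring
    obtain ⟨h2, h3⟩ := h1 (s + ((-n - 1 : ℤ) : ℝ) * (2 * Real.pi))
    rw [e, (ih s).1] at h2
    rw [e, (ih s).2] at h3
    refine ⟨?_, h3.symm⟩
    push_cast at h2 ⊢
    linarith

private theorem vec_per (F : ↥Ft) (k : ℤ) (s : ℝ) : vec (F : XX) (s + k * (2 * Real.pi)) = vec (F : XX) s := by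
  unfold vec
  rw [(ft_per F k s).1, (ft_per F k s).2, dir_per]

private theorem crs_dir (t u α β : ℝ) : crs (t • dir α) (u • dir β) = t * u * Real.sin (β - α) := by
  rw [Real.sin_sub]
  simp only [crs, dir, Prod.smul_fst, Prod.smul_snd, smul_eq_mul]
  ring

private theorem smul_dir_ne {t θ : ℝ} (ht : 0 < t) : t • dir θ ≠ 0 := by
  intro h
  rcases smul_eq_zero.1 h with h1 | h1
  · exact ht.ne' h1
  · exact dir_ne θ h1

/-- the homogeneous map of `F` -/
private theorem exists_D (F : ↥Ft) : ∃ D : P2 → P2, D 0 = 0 ∧ ∀ t θ : ℝ, 0 < t → D (t • dir θ) = t • vec (F : XX) θ := by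
  have key : ∀ v : P2, ∃ w : P2, (v = 0 → w = 0) ∧ ∀ t θ : ℝ, 0 < t → v = t • dir θ → w = t • vec (F : XX) θ := by
    intro v
    by_cases hv : v = 0
    · exact ⟨0, fun _ => rfl, fun t θ ht h => absurd (h.symm.trans hv) (smul_dir_ne ht)⟩
    · obtain ⟨t, θ, ht, -, -, hvt⟩ := exists_dir v hv 0
      refine ⟨t • vec (F : XX) θ, fun h => absurd h hv, fun t' θ' ht' h => ?_⟩
      obtain ⟨h3, k, h4⟩ := smul_dir_inj ht ht' (hvt.symm.trans h)
      rw [h3, h4, vec_per]
  choose D hD using key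
  exact ⟨D, (hD 0).1 rfl, fun t θ ht => (hD _).2 t θ ht rfl⟩

theorem ger {a : FGr} (ha : a ∈ Gf) (x : P2) : ∃ D : P2 → P2, Function.Bijective D ∧ D 0 = 0 ∧
    (∀ (t : ℝ) (d : P2), 0 < t → D (t • d) = t • D d) ∧
    (∀ d : P2, ∃ ε : ℝ, 0 < ε ∧ ∀ t : ℝ, 0 ≤ t → t < ε → a.g (x + t • d) = a.g x + t • D d) ∧
    ∀ (d d' : P2) (r : ℝ), 0 < r → D (-d) = -(r • D d) → 0 < crs d d' →
      0 < crs (D d) (D d') := by
  obtain ⟨D, hD0, hD⟩ := exists_D (a.ph x)
  set F : ↥Ft := a.ph x with hF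
  have hpi := Real.pi_pos
  have hD' : ∀ t θ : ℝ, 0 < t → D (t • dir θ) = (t * (F : XX).r θ) • dir ((F : XX).f θ) := by
    intro t θ ht
    rw [hD t θ ht, vec, smul_smul]
  have hpos : ∀ t θ : ℝ, 0 < t → 0 < t * (F : XX).r θ := fun t θ ht => mul_pos ht ((F : XX).pos θ)
  have hDne : ∀ v : P2, v ≠ 0 → D v ≠ 0 := by
    intro v hv
    obtain ⟨t, θ, ht, -, -, rfl⟩ := exists_dir v hv 0
    rw [hD' t θ ht]
    exact smul_dir_ne (hpos t θ ht)
  refine ⟨D, ⟨?_, ?_⟩, hD0, ?_, ?_, ?_⟩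
  · intro v v' h
    by_cases hv : v = 0
    · by_cases hv' : v' = 0
      · rw [hv, hv']
      · rw [hv, hD0] at h
        exact absurd h.symm (hDne v' hv')
    · by_cases hv' : v' = 0
      · rw [hv', hD0] at h
        exact absurd h (hDne v hv)
      · obtain ⟨t, θ, ht, -, -, rfl⟩ := exists_dir v hv 0
        obtain ⟨t', θ', ht', -, -, rfl⟩ := exists_dir v' hv' 0
        rw [hD' t θ ht, hD' t' θ' ht'] at h
        obtain ⟨h1, k, h2⟩ := smul_dir_inj (hpos t θ ht) (hpos t' θ' ht') h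
        rw [← (ft_per F k θ').1] at h2
        have h3 := (F : XX).f.injective h2
        rw [h3, (ft_per F k θ').2] at h1
        have h4 := mul_right_cancel₀ ((F : XX).pos θ').ne' h1
        rw [h3, dir_per, h4]
  · intro w
    by_cases hw : w = 0
    · exact ⟨0, by rw [hD0, hw]⟩
    · obtain ⟨t, ψ, ht, -, -, rfl⟩ := exists_dir w hw 0
      have hr := (F : XX).pos ((F : XX).f.symm ψ)
      refine ⟨(t / (F : XX).r ((F : XX).f.symm ψ)) • dir ((F : XX).f.symm ψ), ?_⟩
      rw [hD' _ _ (div_pos ht hr), OrderIso.apply_symm_apply, div_mul_cancel₀ _ hr.ne']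
  · intro t d ht
    by_cases hd : d = 0
    · rw [hd, smul_zero, hD0, smul_zero]
    · obtain ⟨s, θ, hs, -, -, rfl⟩ := exists_dir d hd 0
      rw [smul_smul, hD _ _ (mul_pos ht hs), hD _ _ hs, smul_smul]
  · intro d
    by_cases hd : d = 0
    · refine ⟨1, one_pos, fun t _ _ => ?_⟩
      rw [hd, hD0, smul_zero, add_zero, add_zero]
    · obtain ⟨s, θ, hs, -, -, rfl⟩ := exists_dir d hd 0
      obtain ⟨ε, hε, h1⟩ := Gf_exp ha x
      refine ⟨ε / s, div_pos hε hs, fun t ht ht' => ?_⟩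
      have h2 : t * s ≤ ε := by
        rw [lt_div_iff₀ hs] at ht'
        exact ht'.le
      rw [smul_smul, h1 θ (t * s) (mul_nonneg ht hs.le) h2, hD _ _ hs, smul_smul]
  · intro d d' r hr hneg hcrs
    have hd : d ≠ 0 := by
      rintro rfl
      simp [crs] at hcrs
    have hd' : d' ≠ 0 := by
      rintro rfl
      simp [crs] at hcrs
    obtain ⟨s, θ, hs, -, -, rfl⟩ := exists_dir d hd 0
    obtain ⟨s', θ', hs', hθ1, hθ2, rfl⟩ := exists_dir d' hd' θ
    rw [crs_dir] at hcrs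
    have hsin : 0 < Real.sin (θ' - θ) := by
      by_contra hcon
      have := mul_nonpos_of_nonneg_of_nonpos (mul_pos hs hs').le (not_lt.1 hcon)
      linarith
    have hθ3 : θ < θ' := by
      rcases hθ1.eq_or_lt with h | h
      · rw [← h, sub_self, Real.sin_zero] at hsin
        exact absurd hsin (lt_irrefl _)
      · exact h
    have hθ4 : θ' < θ + Real.pi := by
      by_contra hcon
      have h1 : 0 ≤ Real.sin (θ' - θ - Real.pi) :=
        Real.sin_nonneg_of_nonneg_of_le_pi (by linarith) (by linarith)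
      rw [Real.sin_sub_pi] at h1
      linarith
    have h1 : -(s • dir θ) = s • dir (θ + Real.pi) := by rw [dir_pi, smul_neg]
    have h2 : -(r • ((s * (F : XX).r θ) • dir ((F : XX).f θ))) =
        (r * (s * (F : XX).r θ)) • dir ((F : XX).f θ + Real.pi) := by
      rw [dir_pi, smul_neg, smul_smul]
    rw [h1, hD' _ _ hs, hD' _ _ hs, h2] at hneg
    obtain ⟨-, k, hk⟩ := smul_dir_inj (hpos s _ hs) (mul_pos hr (hpos s θ hs)) hneg
    have h3 : (F : XX).f θ < (F : XX).f (θ + Real.pi) := (F : XX).f.strictMono (by linarith)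
    have h4 : (F : XX).f (θ + Real.pi) < (F : XX).f θ + 2 * Real.pi := by
      have h5 := (ft_per F 1 θ).1
      rw [Int.cast_one, one_mul] at h5
      rw [← h5]
      exact (F : XX).f.strictMono (by linarith)
    have hk0 : k = 0 := by
      have h5 : 0 < Real.pi * (1 + 2 * (k : ℝ)) := by
        rw [hk] at h3
        linarith
      have h6 : Real.pi * (1 + 2 * (k : ℝ)) < Real.pi * 2 := by
        rw [hk] at h4
        linarith
      have h7 : 0 < 1 + 2 * (k : ℝ) := (mul_pos_iff_of_pos_left hpi).1 h5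
      have h8 : 1 + 2 * (k : ℝ) < 2 := lt_of_mul_lt_mul_left h6 hpi.le
      have h9 : 0 < 1 + 2 * k := by exact_mod_cast h7
      have h10 : 1 + 2 * k < 2 := by exact_mod_cast h8
      omega
    rw [hk0, Int.cast_zero, zero_mul, add_zero] at hk
    have h5 : (F : XX).f θ < (F : XX).f θ' := (F : XX).f.strictMono hθ3
    have h6 : (F : XX).f θ' < (F : XX).f θ + Real.pi := by
      rw [← hk]
      exact (F : XX).f.strictMono hθ4
    rw [hD' _ _ hs, hD' _ _ hs', crs_dir]
    exact mul_pos (mul_pos (hpos s θ hs) (hpos s' θ' hs'))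
      (Real.sin_pos_of_pos_of_lt_pi (by linarith) (by linarith))

end C715
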