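import Pool.Agent.Work.MP_c71557_gt.E.Ger

/-!
# MP_c71557_gt, module E/LfAct (M): admissible maps preserve the left side of a chord

Let `a` be admissible from `p = (U, A)` to `q = (U', A')`, `κ = c1 x y` a chord of `(U, A)`,
`d = y - x`, `d' = a.g y - a.g x`, `D` the map of `ger` at `x`.

1. Small points of the chord: for small `t` (both signs) `x + t • d` is in the cell of `x`
   (`nb_ev` for `d` and `-d`: `Nb A x (±d) (x ± t • d)`; for `l ∈ A` with `l.ev x = 0` also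
   `l.lin d = 0` by `Same.lin_eq`, so `Nb A x (±d) z ↔ Same A x z`). `a.g` is affine on the cell
   (`adm_aff` with `w - z = (x + t • d) - x = t • (y - x)`): `a.g (x + t • d) - a.g x = t • d'` for
   small `t > 0` and for small `t < 0`. So `D d = d'` and `D (-d) = -d' = -(1 • D d)`.
2. `crs d (jr d) = d.1 ^ 2 + d.2 ^ 2 > 0`, so by the last part of `ger` (with `r = 1`)
   `crs d' (D (jr d)) > 0`.
3. For small `t > 0`: `z = x + t • jr d` is in `U`, in the cell `Nb A x (jr d)` (`nb_ev`), and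
   `a.g z = a.g x + t • D (jr d)` is in the cell `Nb A' (a.g x) (D (jr d))` (`nb_ev` for `A'`,
   `U'`, at `a.g x` with the direction `D (jr d)`).
4. `Nb A' (a.g x) (D (jr d)) w → Nb A' (a.g x) (jr d') w`: if `l ∈ A'`, `l.ev (a.g x) = 0` then
   `l.lin d' = 0` (`Same.lin_eq` for the chord `(a.g x, a.g y)` of `(U', A')`), and then
   `l.lin (D (jr d))` and `l.lin (jr d')` have the same sign: `l.lin v = crs l.dr v`
   (`Ln.crs_dr`) and `d' = k • l.dr` with `k ≠ 0`, so `k * l.lin (D (jr d)) = crs d' (D (jr d)) > 0`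
   and `k * l.lin (jr d') = crs d' (jr d') > 0`.
5. `lf_c1` on both sides (with `z` and `a.g z`; `Gen A z`, `Gen A' (a.g z)` from `nb_gen`), and
   `S1_act`, `S2_act` (definitional) give the equality.
-/

set_option autoImplicit false
set_option linter.unusedVariables false

noncomputable section

namespace C715

namespace FGeo

variable (𝔾 : FGeo)

/-- small points of a chord are in the cell -/
private theorem chord_small {p : 𝔾.Str.Ob} {x y : P2} (hx : x ∈ p.1.1)
    (e : Same p.1.2 x y) (σ : ℝ) :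
    ∃ ε : ℝ, 0 < ε ∧ ∀ s : ℝ, 0 < s → s < ε → x + s • (σ • (y - x)) ∈ p.1.1 ∧
      Same p.1.2 x (x + s • (σ • (y - x))) := by
  obtain ⟨ε, hε, h1⟩ := nb_ev p.1.1 (𝔾.Ob_open p) p.1.2 x hx (σ • (y - x))
  refine ⟨ε, hε, fun s hs hs' => ⟨(h1 s hs hs').1, fun l hl => ?_⟩⟩
  have h2 := (h1 s hs hs').2 l hl
  by_cases k : l.ev x = 0
  · rw [h2.1 k, k, Ln.lin_smul, e.lin_eq hl k, mul_zero]
  · exact (h2.2 k).symm

/-- the derivative along the chord -/
private theorem ger_chord {p q : 𝔾.Str.Ob} {a : FGr} (h : 𝔾.Str.Adm p a q) {x y : P2}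
    (hx : x ∈ p.1.1) (hy : y ∈ p.1.1) (e : Same p.1.2 x y) (σ : ℝ) {D : P2 → P2}
    (hD : ∀ d : P2, ∃ ε : ℝ, 0 < ε ∧ ∀ t : ℝ, 0 ≤ t → t < ε →
      a.g (x + t • d) = a.g x + t • D d) :
    D (σ • (y - x)) = σ • (a.g y - a.g x) := by
  obtain ⟨ε, hε, h1⟩ := hD (σ • (y - x))
  obtain ⟨ε', hε', h2⟩ := chord_small 𝔾 hx e σ
  have hm : 0 < min ε ε' := lt_min hε hε'
  set t := min ε ε' / 2 with ht
  have ht0 : 0 < t := by positivity
  have ht1 : t < ε := (half_lt_self hm).trans_le (min_le_left _ _)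
  have ht2 : t < ε' := (half_lt_self hm).trans_le (min_le_right _ _)
  have h3 := h1 t ht0.le ht1
  have h4 := h2 t ht0 ht2
  have h5 : x + t • (σ • (y - x)) - x = (t * σ) • (y - x) := by
    rw [add_sub_cancel_left, smul_smul]
  have h6 := 𝔾.adm_aff h hx hy hx h4.1 e (Same.refl _ _) h4.2 h5
  rw [h3, add_sub_cancel_left, mul_smul] at h6
  have h7 : t⁻¹ • (t • D (σ • (y - x))) = t⁻¹ • (t • (σ • (a.g y - a.g x))) := by rw [h6]
  rwa [smul_smul, smul_smul, inv_mul_cancel₀ ht0.ne', one_smul, one_smul] at h7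

private theorem crs_jr {d : P2} (hd : d ≠ 0) : 0 < crs d (jr d) := by
  have h1 : crs d (jr d) = d.1 * d.1 + d.2 * d.2 := by
    simp only [crs, jr]
    ring
  rw [h1]
  rcases eq_or_ne d.1 0 with k | k
  · have k2 : d.2 ≠ 0 := fun k2 => hd (Prod.ext k k2)
    have := mul_self_pos.2 k2
    nlinarith [mul_self_nonneg d.1]
  · have := mul_self_pos.2 k
    nlinarith [mul_self_nonneg d.2]

/-- on a line with direction `d'` the sign of `l.lin v` depends only on the sign of `crs d' v` -/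
private theorem sign_lin {l : Ln} {d v w : P2} (hd : d ≠ 0) (hl : l.lin d = 0)
    (hv : 0 < crs d v) (hw : 0 < crs d w) :
    SignType.sign (l.lin v) = SignType.sign (l.lin w) := by
  have h2 : d.1 ≠ 0 ∨ d.2 ≠ 0 := by
    by_contra k
    push Not at k
    exact hd (Prod.ext k.1 k.2)
  have key : ∃ k : ℝ, ∀ u : P2, l.lin u = k * crs d u := by
    rcases h2 with k | k
    · refine ⟨l.b / d.1, fun u => ?_⟩
      have h3 : l.a * d.1 + l.b * d.2 = 0 := hl
      simp only [Ln.lin, crs]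
      field_simp
      linear_combination u.1 * h3
    · refine ⟨-l.a / d.2, fun u => ?_⟩
      have h3 : l.a * d.1 + l.b * d.2 = 0 := hl
      simp only [Ln.lin, crs]
      field_simp
      linear_combination u.2 * h3
  obtain ⟨k, hk⟩ := key
  rw [hk, hk, sign_mul, sign_mul, sign_pos hv, sign_pos hw]

theorem lf_act {p q : 𝔾.Str.Ob} {a : FGr} (h : 𝔾.Str.Adm p a q) (c : 𝔾.S1.X p) :
    lf (𝔾.Ob_open q) (𝔾.S1.act h c) = 𝔾.S2.act h (lf (𝔾.Ob_open p) c) := by
  induction c using c1_ind with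
  | h x y hx hy hne e =>
  obtain ⟨D, hbij, hD0, hDh, hD, hor⟩ := ger (𝔾.hG h.1) x
  have hd : y - x ≠ 0 := sub_ne_zero.2 hne.symm
  have hne' : a.g x ≠ a.g y := fun k => hne (a.g.injective k)
  have hd' : a.g y - a.g x ≠ 0 := sub_ne_zero.2 hne'.symm
  have D1 : D (y - x) = a.g y - a.g x := by
    have := ger_chord 𝔾 h hx hy e 1 hD
    rwa [one_smul, one_smul] at this
  have D2 : D (-(y - x)) = -((1 : ℝ) • D (y - x)) := by
    have := ger_chord 𝔾 h hx hy e (-1) hD
    rw [neg_one_smul, neg_one_smul] at this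
    rw [this, D1, one_smul]
  have hcr : 0 < crs (a.g y - a.g x) (D (jr (y - x))) := by
    have := hor (y - x) (jr (y - x)) 1 one_pos D2 (crs_jr hd)
    rwa [D1] at this
  -- a small point on the left
  obtain ⟨ε1, hε1, h1⟩ := nb_ev p.1.1 (𝔾.Ob_open p) p.1.2 x hx (jr (y - x))
  obtain ⟨ε2, hε2, h2⟩ := hD (jr (y - x))
  obtain ⟨ε3, hε3, h3⟩ := nb_ev q.1.1 (𝔾.Ob_open q) q.1.2 (a.g x) (h.2.1 x hx) (D (jr (y - x)))
  have hm : 0 < min ε1 (min ε2 ε3) := lt_min hε1 (lt_min hε2 hε3)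
  set t := min ε1 (min ε2 ε3) / 2 with ht
  have ht0 : 0 < t := by positivity
  have ht' : t < min ε1 (min ε2 ε3) := half_lt_self hm
  have ht1 : t < ε1 := ht'.trans_le (min_le_left _ _)
  have ht2 : t < ε2 := ht'.trans_le ((min_le_right _ _).trans (min_le_left _ _))
  have ht3 : t < ε3 := ht'.trans_le ((min_le_right _ _).trans (min_le_right _ _))
  have k1 := h1 t ht0 ht1
  have k2 := h2 t ht0.le ht2
  have k3 := h3 t ht0 ht3
  rw [← k2] at k3
  have g1 : Gen p.1.2 (x + t • jr (y - x)) := nb_gen hne e k1.2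
  have e' : Same q.1.2 (a.g x) (a.g y) := h.2.2.1 x hx y hy e
  have k4 : Nb q.1.2 (a.g x) (jr (a.g y - a.g x)) (a.g (x + t • jr (y - x))) := by
    intro l hl
    refine ⟨fun k => ?_, (k3.2 l hl).2⟩
    rw [(k3.2 l hl).1 k]
    exact sign_lin hd' (e'.lin_eq hl k) hcr (crs_jr hd')
  rw [𝔾.S1_act h hx hy hne e,
    lf_c1 (𝔾.Ob_open q) (h.2.1 x hx) (h.2.1 y hy) hne' e' k3.1 (nb_gen hne' e' k4) k4,
    lf_c1 (𝔾.Ob_open p) hx hy hne e k1.1 g1 k1.2, 𝔾.S2_act h k1.1 g1]

end FGeo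
end C715
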