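import Pool.Agent.Work.MP_c71557_gt.E.Dv

/-!
# MP_c71557_gt, module E/OutA (M): wall chords at a point, basic facts

* `out_line`: a wall chord which starts at `v` in the direction `d` lies on a line `l ∈ A` through
  `v`: let `c = c1 (v + s • d) (v + t • d)` with `Nb A v d (v + s • d)`; `c ∉ NW` gives `l ∈ A` with
  `l.ev (v + s • d) = 0`. If `l.ev v ≠ 0` then `sign (l.ev (v + s • d)) = sign (l.ev v) ≠ 0`,
  contradiction; so `l.ev v = 0` and `s * l.lin d = 0` (`Ln.ev_add_smul`). Conversely a line `l ∈ A`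
  with `l.ev v = 0`, `l.lin d = 0` gives `c ∉ NW`.
* `Dv_fin`: by `out_line`, `d = r • l.dr` with `r ≠ 0` (`l.lin d = 0`, `Ln.crs_dr`), so by
  `OutD.smul` the chord `c` satisfies `OutD v l.dr c` or `OutD v (-l.dr) c`; each of these sets is
  subsingleton (`outD_uniq`), and `A` is finite.
* `Dv_sw`: if `v` is not a vertex (`v ∈ NV`: there is `y ∈ U`, `y ≠ v`, `Same A v y`) then with `c`
  also `sw c` is a wall chord starting at `v`. Let `OutD v d c`, `l` as in `out_line`; `l.ev y = 0`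
  (`Same`), so `y - v` is a multiple of `l.dr`, hence of `d`; every line `m ∈ A` with `m.ev v = 0`
  also vanishes at `y`, so `m.lin (y - v) = 0` and `m.lin d = 0`. So for all small `s` (both signs)
  `v + s • d` is in the cell of `v` (`nb_ev` for `d` and `-d`), and
  `c = c1 (v + s • d) (v + t • d)` (small `0 < s < t`, `outD_ev`, `outD_uniq`) satisfies
  `sw c = c1 (v + t • d) (v + s • d) = c1 (v - s • d) (v - t • d)` (`c1_eq`: the same cell, the same
  line, the same direction), the chord starting at `v` in the direction `-d`. `sw c ∉ NW` since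
  `c ∉ NW` (`sw_NW` in K/Coefs and `sw_sw`).
* `Dv_start`: a chord starts at one point only. Let `c = c1 (v + s • d) (v + t • d) =
  c1 (v' + s' • d') (v' + t' • d')` (with the conditions `Nb`). By `c1_eq`, `d' = r • d` with
  `r > 0` and `v' - v` is a multiple of `d`; put `x = v + s • d`, `x' = v' + s' • d'`
  (`Same A x x'`). Suppose `v' = v + u • d` with `u > 0` (otherwise exchange `v` and `v'`). Since
  `v'` is a vertex, `v' ∉ NV`, hence there is `m ∈ A` with `m.ev v' = 0` and `m.lin d ≠ 0`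
  (otherwise all points `v' + e • d`, `e` small, are in the cell of `v'`, which would be in `NV`;
  use `nb_ev` and `U` open). Then `m.ev v = - u * m.lin d ≠ 0`, so by `Nb A v d x` the sign of
  `m.ev x` is that of `- m.lin d`, while by `Nb A v' d' x'` the sign of `m.ev x'` is that of
  `m.lin d' = r * m.lin d`. Contradiction to `Same A x x'`.
* `Dv_end`: `c` starts at `v` in the direction `d` and `sw c` starts at the vertex `v'`: then
  `v' = v + r • d` with `r > 0`. Let `sw c = c1 (v' + s' • d') (v' + t' • d')`; `d'` is a negative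
  multiple of `d` and `v' = v + r • d` for some real `r`. If `r ≤ 0`: as above there is `m ∈ A` with
  `m.ev v' = 0`, `m.lin d ≠ 0` (`v'` is a vertex); `x = v + s • d` has
  `m.ev x = (s - r) * m.lin d`, the sign of `m.lin d`; and `x' = v' + s' • d'` is in the same cell,
  but by `Nb A v' d' x'` the sign of `m.ev x'` is that of `m.lin d'`, the opposite. Contradiction.
* `vertex_chord`: at a vertex `v` there is a wall chord in a direction `d` which is positive for
  the lexicographic order (`0 < d.1 ∨ (d.1 = 0 ∧ 0 < d.2)`): there is `m ∈ A` with `m.ev v = 0`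
  (otherwise all points near `v` are in the cell of `v`, `v ∈ NV`), take `d = m.dr` or `- m.dr`
  and `outD_ex`; `c ∉ NW` by `out_line` (converse part).
-/

set_option autoImplicit false
set_option linter.unusedVariables false

noncomputable section

namespace C715

theorem out_line {U : Set P2} {A : Finset Ln} {v d : P2} {c : S1T U A} (h : OutD v d c) :
    c ∉ NW U A ↔ ∃ l ∈ A, l.ev v = 0 ∧ l.lin d = 0 := by
  obtain ⟨s, t, hs, hst, hx, hy, hne, h1, rfl, h2⟩ := h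
  rw [mem_NW]
  unfold Gen
  push Not
  constructor
  · rintro ⟨l, hl, e⟩
    by_cases k : l.ev v = 0
    · refine ⟨l, hl, k, ?_⟩
      rw [Ln.ev_add_smul, k, zero_add] at e
      exact (mul_eq_zero.1 e).resolve_left hs.ne'
    · have := (h2 l hl).2 k
      rw [e, sign_zero, eq_comm, sign_eq_zero_iff] at this
      exact absurd this k
  · rintro ⟨l, hl, k, k'⟩
    exact ⟨l, hl, by rw [Ln.ev_add_smul, k, k', mul_zero, add_zero]⟩

private theorem dir_of_lin {m : Ln} {d : P2} (hd : d ≠ 0) (h : m.lin d = 0) :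
    ∃ r : ℝ, r ≠ 0 ∧ d = r • m.dr := by
  obtain ⟨d1, d2⟩ := d
  have h1 : m.a * d1 + m.b * d2 = 0 := h
  have hn : m.a * m.a + m.b * m.b ≠ 0 := by
    intro e
    have : m.a = 0 ∧ m.b = 0 := by
      constructor <;> nlinarith [mul_self_nonneg m.a, mul_self_nonneg m.b]
    rcases m.ne with k | k
    · exact k this.1
    · exact k this.2
  have key : ((d1, d2) : P2) = ((m.b * d1 - m.a * d2) / (m.a * m.a + m.b * m.b)) • m.dr := by
    refine Prod.ext ?_ ?_
    · change d1 = (m.b * d1 - m.a * d2) / (m.a * m.a + m.b * m.b) * m.b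
      rw [div_mul_eq_mul_div, eq_div_iff hn]
      linear_combination m.a * h1
    · change d2 = (m.b * d1 - m.a * d2) / (m.a * m.a + m.b * m.b) * (-m.a)
      rw [div_mul_eq_mul_div, eq_div_iff hn]
      linear_combination m.b * h1
  refine ⟨_, ?_, key⟩
  intro e
  rw [e, zero_smul] at key
  exact hd key

theorem Dv_fin (U : Set P2) (A : Finset Ln) (v : P2) : (Dv U A v).Finite := by
  have h1 : ∀ d : P2, {c : S1T U A | OutD v d c}.Finite := fun d =>
    Set.Subsingleton.finite (fun c hc c' hc' => outD_uniq hc hc')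
  have h2 : (⋃ l ∈ (A : Set Ln), ({c : S1T U A | OutD v l.dr c} ∪
      {c : S1T U A | OutD v (-l.dr) c})).Finite :=
    Set.Finite.biUnion A.finite_toSet fun l _ => (h1 _).union (h1 _)
  refine h2.subset ?_
  rintro c ⟨⟨d, hd⟩, hc⟩
  obtain ⟨l, hl, hlv, hld⟩ := (out_line hd).1 hc
  obtain ⟨r, hr, h3⟩ := dir_of_lin hd.ne hld
  refine Set.mem_biUnion (x := l) hl ?_
  rcases lt_or_gt_of_ne hr with h4 | h4
  · right
    have h5 : OutD v ((-r) • (-l.dr)) c := by
      rw [smul_neg, neg_smul, neg_neg, ← h3]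
      exact hd
    exact h5.smul (by linarith)
  · left
    rw [h3] at hd
    exact hd.smul h4

private theorem line_cell {U : Set P2} (hU : IsOpen U) {A : Finset Ln} {v d : P2} (hv : v ∈ U)
    (h : ∀ l ∈ A, l.ev v = 0 → l.lin d = 0) :
    ∃ ε : ℝ, 0 < ε ∧ ∀ s : ℝ, |s| < ε → v + s • d ∈ U ∧ Same A v (v + s • d) := by
  obtain ⟨e1, he1, k1⟩ := nb_ev U hU A v hv d
  obtain ⟨e2, he2, k2⟩ := nb_ev U hU A v hv (-d)
  refine ⟨min e1 e2, lt_min he1 he2, fun s hs => ?_⟩
  have hS : ∀ e : P2, (∀ l ∈ A, l.ev v = 0 → l.lin e = 0) → ∀ z, Nb A v e z → Same A v z := by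
    intro e he z hz l hl
    by_cases k : l.ev v = 0
    · rw [(hz l hl).1 k, he l hl k, k]
    · exact ((hz l hl).2 k).symm
  rcases lt_trichotomy s 0 with h0 | h0 | h0
  · rw [abs_of_neg h0] at hs
    obtain ⟨h1, h2⟩ := k2 (-s) (by linarith) (lt_of_lt_of_le hs (min_le_right _ _))
    have e : v + (-s) • (-d) = v + s • d := by module
    rw [e] at h1 h2
    exact ⟨h1, hS _ (fun l hl k => by
      have : (-d : P2) = (-1 : ℝ) • d := by module
      rw [this, Ln.lin_smul, h l hl k, mul_zero]) _ h2⟩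
  · rw [h0, zero_smul, add_zero]
    exact ⟨hv, Same.refl _ _⟩
  · rw [abs_of_pos h0] at hs
    obtain ⟨h1, h2⟩ := k1 s h0 (lt_of_lt_of_le hs (min_le_left _ _))
    exact ⟨h1, hS _ h _ h2⟩

theorem Dv_sw {U : Set P2} (hU : IsOpen U) {A : Finset Ln} (v : {x : P2 // x ∈ U})
    (hv : v ∈ NV U A) (c : S1T U A) (hc : c ∈ Dv U A v.1) : sw c ∈ Dv U A v.1 := by
  obtain ⟨⟨d, hd⟩, hcN⟩ := hc
  obtain ⟨l, hl, hlv, hld⟩ := (out_line hd).1 hcN
  obtain ⟨y, hy, hyv, hs⟩ := hv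
  have hd0 := hd.ne
  have hy0 : y - v.1 ≠ 0 := sub_ne_zero.2 hyv
  have hall : ∀ m ∈ A, m.ev v.1 = 0 → m.lin d = 0 := by
    intro m hm k
    have h1 := hs.lin_eq hm k
    obtain ⟨r1, hr1, e1⟩ := dir_of_lin hd0 hld
    obtain ⟨r2, hr2, e2⟩ := dir_of_lin hy0 (hs.lin_eq hl hlv)
    have e3 : d = (r1 * r2⁻¹) • (y - v.1) := by
      rw [e2, smul_smul, mul_assoc, inv_mul_cancel₀ hr2, mul_one]
      exact e1
    rw [e3, Ln.lin_smul, h1, mul_zero]
  obtain ⟨ε, hε, k1⟩ := line_cell hU v.2 hall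
  obtain ⟨ε1, hε1, k2⟩ := outD_ev U hU A v.1 v.2 d hd0
  obtain ⟨ε2, hε2, k3⟩ := outD_ev U hU A v.1 v.2 (-d) (neg_ne_zero.2 hd0)
  obtain ⟨δ, hδ, m1, m2, m3⟩ : ∃ δ : ℝ, 0 < δ ∧ δ ≤ ε ∧ δ ≤ ε1 ∧ δ ≤ ε2 :=
    ⟨min ε (min ε1 ε2), lt_min hε (lt_min hε1 hε2), min_le_left _ _,
      (min_le_right _ _).trans (min_le_left _ _), (min_le_right _ _).trans (min_le_right _ _)⟩
  have hst : δ / 3 < δ / 2 := by linarith
  obtain ⟨hx, hy', hs1, ho⟩ := k2 (δ / 3) (δ / 2) (by linarith) hst (by linarith)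
  obtain ⟨hx2, hy2, hs2, ho2⟩ := k3 (δ / 3) (δ / 2) (by linarith) hst (by linarith)
  have e1 := outD_uniq hd ho
  have h3 : Same A (v.1 + (δ / 2) • d) (v.1 + (δ / 3) • (-d)) := by
    have a1 := (k1 (δ / 2) (by rw [abs_of_pos (by linarith)]; linarith)).2
    have a2 := (k1 (-(δ / 3)) (by rw [abs_neg, abs_of_pos (by linarith)]; linarith)).2
    have e : v.1 + (-(δ / 3)) • d = v.1 + (δ / 3) • (-d) := by module
    rw [e] at a2
    exact a1.symm.trans a2
  have e2 : sw c = c1 (v.1 + (δ / 3) • (-d)) (v.1 + (δ / 2) • (-d)) hx2 hy2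
      (seg_ne (neg_ne_zero.2 hd0) hst) hs2 := by
    rw [e1, sw_c1]
    refine c1_eq.2 ⟨h3, ⟨5, ?_⟩, 1, one_pos, ?_⟩
    · have : v.1 + (δ / 3) • (-d) - (v.1 + (δ / 2) • d) = (-(δ / 3) - δ / 2) • d := by module
      rw [this]
      have : (5 : ℝ) • (v.1 + (δ / 3) • d - (v.1 + (δ / 2) • d)) =
          (5 * (δ / 3 - δ / 2)) • d := by module
      rw [this]
      congr 1
      ring
    · module
  refine ⟨⟨-d, ?_⟩, fun k => hcN ?_⟩
  · rw [e2]
    exact ho2
  · have := FGeo.sw_NW _ k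
    rwa [sw_sw] at this

private theorem vertex_line {U : Set P2} (hU : IsOpen U) {A : Finset Ln} (v : {x : P2 // x ∈ U})
    (hv : v ∉ NV U A) {d : P2} (hd : d ≠ 0) : ∃ m ∈ A, m.ev v.1 = 0 ∧ m.lin d ≠ 0 := by
  by_contra hn
  push Not at hn
  obtain ⟨ε, hε, k⟩ := line_cell hU v.2 hn
  obtain ⟨h1, h2⟩ := k (ε / 2) (by rw [abs_of_pos (half_pos hε)]; exact half_lt_self hε)
  refine hv ⟨_, h1, ?_, h2⟩
  intro e
  have h3 : (ε / 2) • d = 0 := by
    have := congrArg (fun z => z - v.1) e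
    simpa using this
  rcases smul_eq_zero.1 h3 with h4 | h4
  · linarith
  · exact hd h4

private theorem sign_aux {a : ℝ} (h : SignType.sign a = SignType.sign (-a)) : a = 0 := by
  rcases lt_trichotomy a 0 with k | k | k
  · rw [sign_neg k, sign_pos (neg_pos.2 k)] at h
    exact absurd h (by decide)
  · exact k
  · rw [sign_pos k, sign_neg (neg_neg_of_pos k)] at h
    exact absurd h (by decide)

private theorem start_aux {U : Set P2} (hU : IsOpen U) {A : Finset Ln} (v v' : {x : P2 // x ∈ U})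
    (hv' : v' ∉ NV U A) (c : S1T U A) {d d' : P2} (h : OutD v.1 d c) (h' : OutD v'.1 d' c)
    {r u : ℝ} (hr : 0 < r) (hd : d' = r • d) (hu : 0 < u) (e : v'.1 = v.1 + u • d) : False := by
  obtain ⟨m, hm, hmv, hmd⟩ := vertex_line hU v' hv' h.ne
  obtain ⟨s, t, hs, hst, hx, hy, hne, h1, rfl, h2⟩ := h
  obtain ⟨s', t', hs', hst', hx', hy', hne', h1', e', h2'⟩ := h'
  have hS := (c1_eq.1 e').1
  have e1 : m.ev v.1 = -(u * m.lin d) := by
    rw [e, Ln.ev_add_smul] at hmv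
    linarith
  have e2 : m.ev v.1 ≠ 0 := by
    rw [e1]
    exact neg_ne_zero.2 (mul_ne_zero hu.ne' hmd)
  have a1 := (h2 m hm).2 e2
  have a2 := (h2' m hm).1 hmv
  have a3 := hS m hm
  rw [a1, a2, e1, hd, Ln.lin_smul, sign_mul, sign_pos hr, one_mul] at a3
  have a4 : SignType.sign (-(u * m.lin d)) = SignType.sign (-(m.lin d)) := by
    rw [← mul_neg, sign_mul, sign_pos hu, one_mul]
  rw [a4] at a3
  exact hmd (sign_aux a3.symm)

theorem Dv_start {U : Set P2} (hU : IsOpen U) {A : Finset Ln} (v v' : {x : P2 // x ∈ U})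
    (hv : v ∉ NV U A) (hv' : v' ∉ NV U A) (c : S1T U A) (h : c ∈ Dv U A v.1)
    (h' : c ∈ Dv U A v'.1) : v = v' := by
  obtain ⟨⟨d, hd⟩, _⟩ := h
  obtain ⟨⟨d', hd'⟩, _⟩ := h'
  have key : ∃ r u : ℝ, 0 < r ∧ d' = r • d ∧ v'.1 = v.1 + u • d := by
    obtain ⟨s, t, hs, hst, hx, hy, hne, h1, rfl, h2⟩ := hd
    obtain ⟨s', t', hs', hst', hx', hy', hne', h1', e', h2'⟩ := hd'
    obtain ⟨hS, ⟨σ, hσ⟩, τ, hτ, k⟩ := c1_eq.1 e'
    have e1 : v.1 + t • d - (v.1 + s • d) = (t - s) • d := by module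
    have e2 : v'.1 + t' • d' - (v'.1 + s' • d') = (t' - s') • d' := by module
    rw [e1, e2, smul_smul] at k
    rw [e1, smul_smul] at hσ
    have h3 : 0 < t' - s' := by linarith
    have e3 : d' = ((t' - s')⁻¹ * (τ * (t - s))) • d := by
      rw [← smul_smul, ← k, smul_smul, inv_mul_cancel₀ h3.ne', one_smul]
    refine ⟨(t' - s')⁻¹ * (τ * (t - s)), σ * (t - s) + s - s' * ((t' - s')⁻¹ * (τ * (t - s))),
      mul_pos (inv_pos.2 h3) (mul_pos hτ (by linarith)), e3, ?_⟩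
    have e4 : v'.1 = (v'.1 + s' • d' - (v.1 + s • d)) + (v.1 + s • d) - s' • d' := by abel
    rw [e4, hσ]
    nth_rewrite 1 [e3]
    module
  obtain ⟨r, u, hr, e1, e2⟩ := key
  rcases lt_trichotomy u 0 with k | k | k
  · exfalso
    refine start_aux hU v' v hv c hd' hd (r := r⁻¹) (u := -u * r⁻¹) (inv_pos.2 hr) ?_
      (mul_pos (by linarith) (inv_pos.2 hr)) ?_
    · rw [e1, smul_smul, inv_mul_cancel₀ hr.ne', one_smul]
    · rw [e2, e1, smul_smul, mul_assoc, inv_mul_cancel₀ hr.ne', mul_one]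
      module
  · rw [k, zero_smul, add_zero] at e2
    exact Subtype.ext e2.symm
  · exact (start_aux hU v v' hv' c hd hd' hr e1 k e2).elim

theorem Dv_end {U : Set P2} (hU : IsOpen U) {A : Finset Ln} (v v' : {x : P2 // x ∈ U})
    (hv' : v' ∉ NV U A) (d : P2) (c : S1T U A) (h : OutD v.1 d c)
    (h' : sw c ∈ Dv U A v'.1) : ∃ r : ℝ, 0 < r ∧ v'.1 = v.1 + r • d := by
  obtain ⟨⟨d', hd'⟩, _⟩ := h'
  obtain ⟨m, hm, hmv, hmd⟩ := vertex_line hU v' hv' h.ne
  obtain ⟨s, t, hs, hst, hx, hy, hne, h1, rfl, h2⟩ := h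
  rw [sw_c1] at hd'
  obtain ⟨s', t', hs', hst', hx', hy', hne', h1', e', h2'⟩ := hd'
  obtain ⟨hS, ⟨σ, hσ⟩, τ, hτ, k⟩ := c1_eq.1 e'
  have e1 : v.1 + s • d - (v.1 + t • d) = (s - t) • d := by module
  have e2 : v'.1 + t' • d' - (v'.1 + s' • d') = (t' - s') • d' := by module
  rw [e1, e2, smul_smul] at k
  rw [e1, smul_smul] at hσ
  have h3 : 0 < t' - s' := by linarith
  have hρ : (t' - s')⁻¹ * (τ * (s - t)) < 0 :=
    mul_neg_of_pos_of_neg (inv_pos.2 h3) (mul_neg_of_pos_of_neg hτ (by linarith))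
  have e3 : d' = ((t' - s')⁻¹ * (τ * (s - t))) • d := by
    rw [← smul_smul, ← k, smul_smul, inv_mul_cancel₀ h3.ne', one_smul]
  have e5 : v'.1 = v.1 + (σ * (s - t) + t - s' * ((t' - s')⁻¹ * (τ * (s - t)))) • d := by
    have e4 : v'.1 = (v'.1 + s' • d' - (v.1 + t • d)) + (v.1 + t • d) - s' • d' := by abel
    rw [e4, hσ]
    nth_rewrite 1 [e3]
    module
  generalize hR : σ * (s - t) + t - s' * ((t' - s')⁻¹ * (τ * (s - t))) = R at e5
  refine ⟨R, ?_, e5⟩
  by_contra hn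
  have hn : R ≤ 0 := not_lt.1 hn
  have a1 := (h2' m hm).1 hmv
  have a2 := hS m hm
  have a3 : m.ev (v.1 + t • d) = (t - R) * m.lin d := by
    have h5 : m.ev v.1 = -(R * m.lin d) := by
      rw [e5, Ln.ev_add_smul] at hmv
      linarith
    rw [Ln.ev_add_smul, h5]
    ring
  rw [a1, a3, sign_mul, sign_pos (show 0 < t - R by linarith), one_mul, e3, Ln.lin_smul,
    sign_mul, sign_neg hρ] at a2
  refine hmd (sign_aux ?_)
  rw [a2, ← neg_one_mul (m.lin d), sign_mul, sign_neg (by norm_num : (-1 : ℝ) < 0)]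

theorem vertex_chord {U : Set P2} (hU : IsOpen U) {A : Finset Ln} (v : {x : P2 // x ∈ U})
    (hv : v ∉ NV U A) : ∃ (d : P2) (c : S1T U A), (0 < d.1 ∨ (d.1 = 0 ∧ 0 < d.2)) ∧
      OutD v.1 d c ∧ c ∉ NW U A := by
  obtain ⟨m, hm, hmv, _⟩ := vertex_line hU v hv (d := ((1, 0) : P2)) (by
    intro e
    exact one_ne_zero (congrArg Prod.fst e))
  have key : ∃ d : P2, d ≠ 0 ∧ (0 < d.1 ∨ (d.1 = 0 ∧ 0 < d.2)) ∧ m.lin d = 0 := by
    have hneg : m.lin (-m.dr) = 0 := by
      have : -m.dr = (-1 : ℝ) • m.dr := by module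
      rw [this, Ln.lin_smul, Ln.lin_dr, mul_zero]
    rcases lt_trichotomy m.b 0 with k | k | k
    · exact ⟨-m.dr, neg_ne_zero.2 m.dr_ne, Or.inl (by simpa [Ln.dr] using k), hneg⟩
    · have ha : m.a ≠ 0 := by
        rcases m.ne with k' | k'
        · exact k'
        · exact absurd k k'
      rcases lt_or_gt_of_ne ha with k2 | k2
      · exact ⟨m.dr, m.dr_ne, Or.inr ⟨k, by simpa [Ln.dr] using k2⟩, m.lin_dr⟩
      · exact ⟨-m.dr, neg_ne_zero.2 m.dr_ne, Or.inr ⟨by simpa [Ln.dr] using k,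
          by simpa [Ln.dr] using k2⟩, hneg⟩
    · exact ⟨m.dr, m.dr_ne, Or.inl k, m.lin_dr⟩
  obtain ⟨d, hd, hd', hl⟩ := key
  obtain ⟨c, hc⟩ := outD_ex U hU A v.1 v.2 d hd
  exact ⟨d, c, hd', hc, (out_line hc).2 ⟨m, hm, hmv, hl⟩⟩

end C715
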