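import Pool.Agent.Work.MP_c71557_gt.E.Ger
import Pool.Agent.Work.MP_c71557_gt.E.Dv

/-!
# MP_c71557_gt, module E/OutAct (M): admissible maps and the wall chords at a point

Let `a` be admissible from `p = (U, A)` to `q = (U', A')`, `v ∈ U`, `D` the map of `ger` at `v`.

1. `OutD v d c → OutD (a.g v) (D d) (𝔾.S1.act h c)`: by `outD_ev` and `outD_uniq` the chord `c` is
   `c1 (v + s • d) (v + t • d)` for all small `0 < s < t`; then
   `𝔾.S1.act h c = c1 (a.g (v + s • d)) (a.g (v + t • d))` (`S1_act`, definitional)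
   `= c1 (a.g v + s • D d) (a.g v + t • D d)` for small `s < t` (`ger`), and this is the chord
   which starts at `a.g v` in the direction `D d` (`outD_ev`; `D d ≠ 0` by injectivity and
   `D 0 = 0`).
2. `BijOn`. MapsTo: step 1 and the second condition. InjOn: if `OutD v d c`, `OutD v d' c'` and
   the images agree, then the image starts at `a.g v` both in the direction `D d` and in the
   direction `D d'`, so `D d` and `D d'` are positive multiples of each other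
   (`c1 (w + s • e) (w + t • e) = c1 (w + s' • e') (w + t' • e')` implies by `c1_eq` that
   `(t' - s') • e' = r • (t - s) • e` with `r > 0`): `D d' = r • D d = D (r • d)`, `d' = r • d`,
   `c = c'` by `OutD.smul`, `outD_uniq`. SurjOn: let `OutD (a.g v) e c'`, `c' ∉ NW`; put
   `e = D d` (surjectivity; `d ≠ 0`), `c` the chord with `OutD v d c` (`outD_ex`); its image is
   `c'` by step 1 and `outD_uniq`; and `c ∉ NW`, since otherwise the image would be in `NW`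
   (`𝔾.NW_act`).
-/

set_option autoImplicit false
set_option linter.unusedVariables false

noncomputable section

namespace C715

private theorem c1_congr {U : Set P2} {A : Finset Ln} {x y x' y' : P2} (ex : x = x') (ey : y = y')
    (hx : x ∈ U) (hy : y ∈ U) (hne : x ≠ y) (h : Same A x y) (hx' : x' ∈ U) (hy' : y' ∈ U)
    (hne' : x' ≠ y') (h' : Same A x' y') :
    c1 x y hx hy hne h = c1 x' y' hx' hy' hne' h' := by
  subst ex
  subst ey
  rfl

namespace FGeo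

variable (𝔾 : FGeo)

private theorem act_out {p q : 𝔾.Str.Ob} {a : FGr} (h : 𝔾.Str.Adm p a q) (v : P2)
    (hv : v ∈ p.1.1) (D : P2 → P2) (hDi : Function.Injective D) (hD0 : D 0 = 0)
    (hDl : ∀ d : P2, ∃ ε : ℝ, 0 < ε ∧ ∀ t : ℝ, 0 ≤ t → t < ε →
      a.g (v + t • d) = a.g v + t • D d) (d : P2) (c : 𝔾.S1.X p) (hc : OutD v d c) :
    OutD (a.g v) (D d) (𝔾.S1.act h c) := by
  have hd := hc.ne
  have hDd : D d ≠ 0 := fun e => hd (hDi (e.trans hD0.symm))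
  obtain ⟨ε1, hε1, k1⟩ := outD_ev p.1.1 (𝔾.Ob_open p) p.1.2 v hv d hd
  obtain ⟨ε2, hε2, k2⟩ := outD_ev q.1.1 (𝔾.Ob_open q) q.1.2 (a.g v) (h.2.1 v hv) (D d) hDd
  obtain ⟨ε3, hε3, k3⟩ := hDl d
  obtain ⟨ε, hε, hm1, hm2, hm3⟩ : ∃ ε : ℝ, 0 < ε ∧ ε ≤ ε1 ∧ ε ≤ ε2 ∧ ε ≤ ε3 :=
    ⟨min ε1 (min ε2 ε3), lt_min hε1 (lt_min hε2 hε3), min_le_left _ _,
      (min_le_right _ _).trans (min_le_left _ _), (min_le_right _ _).trans (min_le_right _ _)⟩
  have hst : ε / 3 < ε / 2 := by linarith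
  obtain ⟨hx, hy, hs, ho⟩ := k1 (ε / 3) (ε / 2) (by linarith) hst (by linarith)
  obtain ⟨hx', hy', hs', ho'⟩ := k2 (ε / 3) (ε / 2) (by linarith) hst (by linarith)
  have e1 := outD_uniq hc ho
  rw [e1]
  have e2 : 𝔾.S1.act h (c1 (v + (ε / 3) • d) (v + (ε / 2) • d) hx hy (seg_ne hd hst) hs) =
      c1 (a.g v + (ε / 3) • D d) (a.g v + (ε / 2) • D d) hx' hy' (seg_ne hDd hst) hs' :=
    c1_congr (k3 _ (by linarith) (by linarith)) (k3 _ (by linarith) (by linarith))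
      (h.2.1 _ hx) (h.2.1 _ hy) (fun e => seg_ne hd hst (a.g.injective e)) (h.2.2.1 _ hx _ hy hs)
      hx' hy' (seg_ne hDd hst) hs'
  have e3 := congrArg (fun z => OutD (a.g v) (D d) z) e2
  exact e3.mpr ho'

theorem Dv_act {p q : 𝔾.Str.Ob} {a : FGr} (h : 𝔾.Str.Adm p a q) (v : P2) (hv : v ∈ p.1.1) :
    Set.BijOn (𝔾.S1.act h) {c | c ∈ Dv p.1.1 p.1.2 v ∧ 𝔾.S1.act h c ∉ NW q.1.1 q.1.2}
      (Dv q.1.1 q.1.2 (a.g v)) := by
  obtain ⟨D, hDb, hD0, hDh, hDl, _⟩ := ger (𝔾.hG h.1) v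
  have key := 𝔾.act_out h v hv D hDb.1 hD0 hDl
  refine ⟨?_, ?_, ?_⟩
  · rintro c ⟨⟨⟨d, hd⟩, hc⟩, hc'⟩
    exact ⟨⟨D d, key d c hd⟩, hc'⟩
  · rintro c ⟨⟨⟨d, hd⟩, hc⟩, hc'⟩ c' ⟨⟨⟨d', hd'⟩, _⟩, _⟩ e
    have k1 := key d c hd
    have k2 := key d' c' hd'
    have k1' := (congrArg (fun z => OutD (a.g v) (D d) z) e).mp k1
    obtain ⟨r, hr, h2⟩ := OutD.dir k1' k2
    rw [← hDh r d hr] at h2
    have h3 := hDb.1 h2
    rw [h3] at hd'
    exact outD_uniq hd (hd'.smul hr)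
  · rintro c' ⟨⟨e, he⟩, hc'⟩
    obtain ⟨d, rfl⟩ := hDb.2 e
    have hd : d ≠ 0 := by
      rintro rfl
      exact he.ne hD0
    obtain ⟨c, hc⟩ := outD_ex p.1.1 (𝔾.Ob_open p) p.1.2 v hv d hd
    have h2 : 𝔾.S1.act h c = c' := outD_uniq (key d c hc) he
    have h3 : 𝔾.S1.act h c ∉ NW q.1.1 q.1.2 := fun k => hc' ((congrArg (fun z => z ∈ NW q.1.1 q.1.2) h2).mp k)
    exact ⟨c, ⟨⟨⟨d, hc⟩, fun k => h3 (𝔾.NW_act h c k)⟩, h3⟩, h2⟩

end FGeo
end C715
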