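import Pool.Agent.Work.MP_c71557_gt.E.OutA

/-!
# MP_c71557_gt, module E/OutB (M): sums over the wall chords at a point

`B ⊆ A` contains exactly one line of every class of equal lines of `A`. Then
`∑_{c ∈ Dv v} φ c = ∑_{l ∈ B, l.ev v = 0} (Wph φ v l.dr + Wph φ v (-l.dr))`.

For `l ∈ B` with `l.ev v = 0` let `c⁺ l`, `c⁻ l` be the chords starting at `v` in the directions
`l.dr`, `-l.dr` (`outD_ex`, `Ln.dr_ne`); they are in `Dv U A v` (`out_line`), and
`Wph φ v l.dr = φ (c⁺ l)`, `Wph φ v (-l.dr) = φ (c⁻ l)` (`Wph_eq`). The map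
`(l, ±) ↦ c^± l` from `{l ∈ B | l.ev v = 0} × Bool` to `Dv U A v` is a bijection:
* injective: if the chords agree then (`OutD.dir`) `± m.dr = r • (± l.dr)` with `r > 0`; so
  `(m.b, -m.a)` is a non zero multiple of `(l.b, -l.a)` and, as `l.ev v = m.ev v = 0`, `m.ev` is a
  multiple of `l.ev` (`m.ev x = m.lin (x - v)`, `l.ev x = l.lin (x - v)`): `m.Eqv l`, `m = l`
  (`Red B`); the signs agree since `l.dr ≠ 0`.
* surjective: `c ∈ Dv U A v`, `OutD v d c`: by `out_line` there is `l ∈ A` with `l.ev v = 0`,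
  `l.lin d = 0`; let `m ∈ B`, `l.Eqv m` (`h1`): `m.ev v = 0`, `m.lin d = 0` (`m.lin d` is the
  difference `m.ev (v + d) - m.ev v`), so `d = r • m.dr`, `r ≠ 0` (`Ln.crs_dr`, `d ≠ 0` by
  `OutD.ne`); `OutD.smul` gives `OutD v m.dr c` or `OutD v (-m.dr) c`.
Then e.g. `Finset.sum_bij` / `Finset.sum_nbij'` and `Finset.sum_product`, `Fintype.sum_bool`, or two
disjoint images.
-/

set_option autoImplicit false
set_option linter.unusedVariables false

noncomputable section

namespace C715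

/-- parallel lines with a common point -/
private theorem eqv_of_dr {l m : Ln} {v : P2} {r : ℝ} (hl : l.ev v = 0) (hm : m.ev v = 0)
    (hr : r ≠ 0) (h : m.dr = r • l.dr) : l.Eqv m := by
  have ha : m.a = r * l.a := by
    have := congrArg Prod.snd h
    simp only [Ln.dr, Prod.smul_snd, smul_eq_mul] at this
    linarith
  have hb : m.b = r * l.b := by
    have := congrArg Prod.fst h
    simpa only [Ln.dr, Prod.smul_fst, smul_eq_mul] using this
  refine ⟨r⁻¹, inv_ne_zero hr, fun x => ?_⟩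
  have e1 : l.ev x = l.a * (x.1 - v.1) + l.b * (x.2 - v.2) := by
    have : l.a * v.1 + l.b * v.2 + l.c = 0 := hl
    unfold Ln.ev
    linarith
  have e2 : m.ev x = r * (l.a * (x.1 - v.1) + l.b * (x.2 - v.2)) := by
    have : m.a * v.1 + m.b * v.2 + m.c = 0 := hm
    unfold Ln.ev
    rw [ha, hb] at this ⊢
    linarith
  rw [e1, e2, ← mul_assoc, inv_mul_cancel₀ hr, one_mul]

private theorem Eqv.lin {l m : Ln} (h : l.Eqv m) {v d : P2} (hv : l.ev v = 0)
    (hd : l.lin d = 0) : m.ev v = 0 ∧ m.lin d = 0 := by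
  obtain ⟨c, hc, h⟩ := h
  have h1 : m.ev v = 0 := by
    have := h v
    rw [hv] at this
    exact (mul_eq_zero.1 this.symm).resolve_left hc
  refine ⟨h1, ?_⟩
  have h2 := h (v + d)
  rw [Ln.ev_add, Ln.ev_add, hv, hd, h1, add_zero, zero_add] at h2
  exact (mul_eq_zero.1 h2.symm).resolve_left hc

private theorem dir_of_lin {m : Ln} {d : P2} (hd : d ≠ 0) (h : m.lin d = 0) :
    ∃ r : ℝ, r ≠ 0 ∧ d = r • m.dr := by
  obtain ⟨d1, d2⟩ := d
  have h1 : m.a * d1 + m.b * d2 = 0 := h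
  have hn : m.a * m.a + m.b * m.b ≠ 0 := by
    intro e
    have : m.a = 0 ∧ m.b = 0 := by
      constructor <;> nlinarith [mul_self_nonneg m.a, mul_self_nonneg m.b]
    rcases m.ne with k | k
    · exact k this.1
    · exact k this.2
  have key : ((d1, d2) : P2) = ((m.b * d1 - m.a * d2) / (m.a * m.a + m.b * m.b)) • m.dr := by
    refine Prod.ext ?_ ?_
    · change d1 = (m.b * d1 - m.a * d2) / (m.a * m.a + m.b * m.b) * m.b
      rw [div_mul_eq_mul_div, eq_div_iff hn]
      linear_combination m.a * h1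
    · change d2 = (m.b * d1 - m.a * d2) / (m.a * m.a + m.b * m.b) * (-m.a)
      rw [div_mul_eq_mul_div, eq_div_iff hn]
      linear_combination m.b * h1
  refine ⟨_, ?_, key⟩
  intro e
  rw [e, zero_smul] at key
  exact hd key

theorem Dv_sum {U : Set P2} (hU : IsOpen U) {A B : Finset Ln} (hB : Red B) (hBA : B ⊆ A)
    (h1 : ∀ l ∈ A, ∃ m ∈ B, l.Eqv m) (φ : S1T U A → ℚ) (v : P2) (hv : v ∈ U) :
    ∑ c ∈ (Dv_fin U A v).toFinset, φ c =
      ∑ l ∈ B with l.ev v = 0, (Wph φ v l.dr + Wph φ v (-l.dr)) := by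
  classical
  have hne : ∀ l : Ln, -l.dr ≠ 0 := fun l => neg_ne_zero.2 l.dr_ne
  choose cp hcp using fun l : Ln => outD_ex U hU A v hv l.dr l.dr_ne
  choose cm hcm using fun l : Ln => outD_ex U hU A v hv (-l.dr) (hne l)
  have hlinm : ∀ l : Ln, l.lin (-l.dr) = 0 := fun l => by
    have : -l.dr = (-1 : ℝ) • l.dr := by module
    rw [this, Ln.lin_smul, Ln.lin_dr, mul_zero]
  set S := B.filter (fun l => l.ev v = 0) with hS
  have hmem : ∀ l ∈ S, l ∈ B ∧ l.ev v = 0 := fun l hl => Finset.mem_filter.1 hl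
  have e1 : ∑ l ∈ S, (Wph φ v l.dr + Wph φ v (-l.dr)) = ∑ l ∈ S, φ (cp l) + ∑ l ∈ S, φ (cm l) := by
    rw [← Finset.sum_add_distrib]
    refine Finset.sum_congr rfl fun l _ => ?_
    rw [Wph_eq φ (hcp l), Wph_eq φ (hcm l)]
  have ip : Set.InjOn cp (S : Set Ln) := by
    intro l hl m hm e
    have hl := hmem l hl
    have hm := hmem m hm
    have k := hcm m
    have k1 := hcp l
    rw [e] at k1
    obtain ⟨r, hr, h2⟩ := k1.dir (hcp m)
    exact hB l hl.1 m hm.1 (eqv_of_dr hl.2 hm.2 hr.ne' h2)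
  have im : Set.InjOn cm (S : Set Ln) := by
    intro l hl m hm e
    have hl := hmem l hl
    have hm := hmem m hm
    have k1 := hcm l
    rw [e] at k1
    obtain ⟨r, hr, h2⟩ := k1.dir (hcm m)
    exact hB l hl.1 m hm.1 (eqv_of_dr hl.2 hm.2 hr.ne' (by
      rw [smul_neg] at h2
      exact neg_injective h2))
  have hdis : Disjoint (S.image cp) (S.image cm) := by
    rw [Finset.disjoint_left]
    intro c hc hc'
    obtain ⟨l, hl, rfl⟩ := Finset.mem_image.1 hc
    obtain ⟨m, hm, e⟩ := Finset.mem_image.1 hc'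
    have hl := hmem l hl
    have hm := hmem m hm
    have k1 := hcm m
    rw [e] at k1
    obtain ⟨r, hr, h2⟩ := (hcp l).dir k1
    have h3 : m.dr = (-r) • l.dr := by
      rw [neg_smul, ← h2, neg_neg]
    have h4 := hB l hl.1 m hm.1 (eqv_of_dr hl.2 hm.2 (neg_ne_zero.2 hr.ne') h3)
    rw [← h4] at h3
    have h5 : (1 + r) • l.dr = 0 := by
      rw [add_smul, one_smul]
      nth_rewrite 1 [h3]
      rw [neg_smul, neg_add_cancel]
    rcases smul_eq_zero.1 h5 with h6 | h6
    · linarith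
    · exact l.dr_ne h6
  have himg : (Dv_fin U A v).toFinset = S.image cp ∪ S.image cm := by
    ext c
    rw [Set.Finite.mem_toFinset, Finset.mem_union, Finset.mem_image, Finset.mem_image]
    constructor
    · rintro ⟨⟨d, hd⟩, hc⟩
      obtain ⟨l, hl, hlv, hld⟩ := (out_line hd).1 hc
      obtain ⟨m, hm, hlm⟩ := h1 l hl
      obtain ⟨hmv, hmd⟩ := Eqv.lin hlm hlv hld
      obtain ⟨r, hr, h2⟩ := dir_of_lin hd.ne hmd
      have hmS : m ∈ S := Finset.mem_filter.2 ⟨hm, hmv⟩
      rcases lt_or_gt_of_ne hr with h3 | h3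
      · right
        refine ⟨m, hmS, ?_⟩
        have h4 : OutD v ((-r) • (-m.dr)) c := by
          rw [smul_neg, neg_smul, neg_neg, ← h2]
          exact hd
        exact outD_uniq (hcm m) (h4.smul (by linarith))
      · left
        refine ⟨m, hmS, ?_⟩
        rw [h2] at hd
        exact outD_uniq (hcp m) (hd.smul h3)
    · rintro (⟨l, hl, rfl⟩ | ⟨l, hl, rfl⟩)
      · exact ⟨⟨_, hcp l⟩, (out_line (hcp l)).2 ⟨l, hBA (hmem l hl).1, (hmem l hl).2, l.lin_dr⟩⟩
      · exact ⟨⟨_, hcm l⟩, (out_line (hcm l)).2 ⟨l, hBA (hmem l hl).1, (hmem l hl).2, hlinm l⟩⟩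
  rw [e1, himg, Finset.sum_union hdis, Finset.sum_image (fun l hl m hm e => ip hl hm e),
    Finset.sum_image (fun l hl m hm e => im hl hm e)]

end C715
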