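import Pool.Agent.Work.MP_c71557_gt.E.Bas
import Pool.Agent.Work.MP_c71557_gt.E.LfAct
import Pool.Agent.Work.MP_c71557_gt.E.OutAct
import Pool.Agent.Work.MP_c71557_gt.E.OutA
import Pool.Agent.Work.MP_c71557_gt.E.DD

/-!
# MP_c71557_gt, block E: the maps `d0 : F0 → F1`, `d1 : F1 → F2`, `ε : F2 → ℚ`

`d0 [v] = ∑` of the wall chords which start at `v`, `d1 [κ] = [left side] - [right side]`.
All proofs complete (from the stubs).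
-/

set_option autoImplicit false
set_option linter.unusedVariables false

noncomputable section

namespace C715

open CategoryTheory

namespace FGeo

variable (𝔾 : FGeo)

/-- sum of the wall chords starting at `v` -/
def s0 (c : 𝔾.Str.Obj) (v : 𝔾.S0.X c.o) : 𝔾.F1.M c :=
  ∑ x ∈ (Dv_fin c.o.1.1 c.o.1.2 v.1).toFinset, 𝔾.e1 c x

theorem s0_NV (c : 𝔾.Str.Obj) (v : 𝔾.S0.X c.o) (hv : v ∈ NV c.o.1.1 c.o.1.2) : 𝔾.s0 c v = 0 := by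
  have hU := 𝔾.Ob_open c.o
  have h1 : 𝔾.s0 c v = -𝔾.s0 c v := by
    unfold s0
    rw [← Finset.sum_neg_distrib]
    refine Finset.sum_bij (fun x _ => sw x) (fun x hx => ?_) (fun x _ y _ e => ?_)
      (fun y hy => ⟨sw y, ?_, sw_sw y⟩) (fun x hx => ?_)
    · rw [Set.Finite.mem_toFinset] at hx ⊢
      exact Dv_sw hU v hv x hx
    · have := congrArg sw e
      rwa [sw_sw, sw_sw] at this
    · rw [Set.Finite.mem_toFinset] at hy ⊢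
      exact Dv_sw hU v hv y hy
    · rw [𝔾.e1_sw, neg_neg]
  have h2 : (2 : ℚ) • 𝔾.s0 c v = 0 := by
    rw [two_smul]
    nth_rewrite 2 [h1]
    exact add_neg_cancel _
  exact (smul_eq_zero.1 h2).resolve_left two_ne_zero

theorem s0_act {p q : 𝔾.Str.Ob} {a : FGr} (h : 𝔾.Str.Adm p a q) (v : 𝔾.S0.X p) :
    𝔾.F1.map (𝔾.Str.hom a h) (𝔾.s0 ⟨p⟩ v) = 𝔾.s0 ⟨q⟩ (𝔾.S0.act h v) := by
  classical
  have hb := 𝔾.Dv_act h v.1 v.2
  unfold s0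
  rw [map_sum]
  have h1 : ∀ x ∈ (Dv_fin p.1.1 p.1.2 v.1).toFinset,
      𝔾.F1.map (𝔾.Str.hom a h) (𝔾.e1 ⟨p⟩ x) = 𝔾.e1 ⟨q⟩ (𝔾.S1.act h x) := fun x _ => 𝔾.map_e1 h x
  refine (Finset.sum_congr rfl h1).trans ?_
  refine (Finset.sum_filter_of_ne (p := fun x => 𝔾.S1.act h x ∉ NW q.1.1 q.1.2)
    (fun x _ hx hx' => hx (𝔾.e1_NW ⟨q⟩ hx'))).symm.trans ?_
  refine Finset.sum_bij (fun x _ => 𝔾.S1.act h x) (fun x hx => ?_) (fun x hx y hy e => ?_)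
    (fun y hy => ?_) (fun x hx => rfl)
  · have hx := Finset.mem_filter.1 hx
    exact (Set.Finite.mem_toFinset _).2 (hb.mapsTo ⟨(Set.Finite.mem_toFinset _).1 hx.1, hx.2⟩)
  · have hx := Finset.mem_filter.1 hx
    have hy := Finset.mem_filter.1 hy
    exact hb.injOn ⟨(Set.Finite.mem_toFinset _).1 hx.1, hx.2⟩
      ⟨(Set.Finite.mem_toFinset _).1 hy.1, hy.2⟩ e
  · obtain ⟨x, hx, e⟩ := hb.surjOn ((Set.Finite.mem_toFinset _).1 hy)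
    exact ⟨x, Finset.mem_filter.2 ⟨(Set.Finite.mem_toFinset _).2 hx.1, hx.2⟩, e⟩

/-- `F0 → F1` -/
def d0 : Coef.Hom 𝔾.F0 𝔾.F1 where
  f c := 𝔾.lift0 (𝔾.s0 c) (fun v hv => 𝔾.s0_NV c v hv)
  comm {a b} u x := by
    induction u using ActCat.ind with
    | h g hg =>
      have h1 : (𝔾.lift0 (𝔾.s0 b) (fun v hv => 𝔾.s0_NV b v hv)).comp (𝔾.F0.map (𝔾.Str.hom g hg)) =
          (𝔾.F1.map (𝔾.Str.hom g hg)).comp
            (𝔾.lift0 (𝔾.s0 a) (fun v hv => 𝔾.s0_NV a v hv)) := by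
        refine 𝔾.ext0 fun v => ?_
        rw [LinearMap.comp_apply, LinearMap.comp_apply, 𝔾.lift0_e0, 𝔾.map_e0 hg v]
        exact (𝔾.lift0_e0 _ _ _).trans (𝔾.s0_act hg v).symm
      exact LinearMap.congr_fun h1 x

theorem d0_e0 (c : 𝔾.Str.Obj) (v : 𝔾.S0.X c.o) : 𝔾.d0.f c (𝔾.e0 c v) = 𝔾.s0 c v :=
  𝔾.lift0_e0 (𝔾.s0 c) (fun v hv => 𝔾.s0_NV c v hv) v

/-- `F1 → F2` -/
def d1 : Coef.Hom 𝔾.F1 𝔾.F2 where
  f c := 𝔾.lift1 (fun x => 𝔾.e2 c (lf (𝔾.Ob_open c.o) x) - 𝔾.e2 c (lf (𝔾.Ob_open c.o) (sw x)))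
    (fun x hx => by rw [lf_sw_NW _ hx, sub_self]) (fun x => by rw [sw_sw, neg_sub])
  comm {a b} u x := by
    induction u using ActCat.ind with
    | h g hg =>
      have h1 : (𝔾.lift1 (fun x => 𝔾.e2 b (lf (𝔾.Ob_open b.o) x) -
            𝔾.e2 b (lf (𝔾.Ob_open b.o) (sw x)))
            (fun x hx => by rw [lf_sw_NW _ hx, sub_self]) (fun x => by rw [sw_sw, neg_sub])).comp
              (𝔾.F1.map (𝔾.Str.hom g hg)) =
          (𝔾.F2.map (𝔾.Str.hom g hg)).comp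
            (𝔾.lift1 (fun x => 𝔾.e2 a (lf (𝔾.Ob_open a.o) x) -
              𝔾.e2 a (lf (𝔾.Ob_open a.o) (sw x)))
              (fun x hx => by rw [lf_sw_NW _ hx, sub_self])
              (fun x => by rw [sw_sw, neg_sub])) := by
        refine 𝔾.ext1 fun v => ?_
        rw [LinearMap.comp_apply, LinearMap.comp_apply, 𝔾.lift1_e1, map_sub, 𝔾.map_e1 hg v]
        refine (𝔾.lift1_e1 _ _ _ _).trans ?_
        have e1 := 𝔾.map_e2 hg (lf (𝔾.Ob_open a.o) v)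
        have e2 := 𝔾.map_e2 hg (lf (𝔾.Ob_open a.o) (sw v))
        rw [← 𝔾.lf_act hg] at e1 e2
        rw [← 𝔾.S1_sw hg v]
        exact (congrArg₂ (· - ·) e1 e2).symm
      exact LinearMap.congr_fun h1 x

theorem d1_e1 (c : 𝔾.Str.Obj) (x : 𝔾.S1.X c.o) : 𝔾.d1.f c (𝔾.e1 c x) =
    𝔾.e2 c (lf (𝔾.Ob_open c.o) x) - 𝔾.e2 c (lf (𝔾.Ob_open c.o) (sw x)) :=
  𝔾.lift1_e1 (fun x => 𝔾.e2 c (lf (𝔾.Ob_open c.o) x) - 𝔾.e2 c (lf (𝔾.Ob_open c.o) (sw x)))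
    (fun x hx => by rw [lf_sw_NW _ hx, sub_self]) (fun x => by rw [sw_sw, neg_sub]) x

/-- `F2 → ℚ` -/
def dε : Coef.Hom 𝔾.F2 (Coef.const 𝔾.Str.Obj ℚ) where
  f c := 𝔾.lift2 (fun _ => (1 : ℚ))
  comm {a b} u x := by
    induction u using ActCat.ind with
    | h g hg =>
      have h1 : (𝔾.lift2 (c := b) (fun _ => (1 : ℚ))).comp (𝔾.F2.map (𝔾.Str.hom g hg)) =
          𝔾.lift2 (c := a) (fun _ => (1 : ℚ)) := by
        refine 𝔾.ext2 fun v => ?_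
        rw [LinearMap.comp_apply, 𝔾.lift2_e2, 𝔾.map_e2 hg v]
        exact 𝔾.lift2_e2 _ _
      exact LinearMap.congr_fun h1 x

theorem dε_e2 (c : 𝔾.Str.Obj) (x : 𝔾.S2.X c.o) : 𝔾.dε.f c (𝔾.e2 c x) = (1 : ℚ) :=
  𝔾.lift2_e2 _ _

theorem d1_d0 (c : 𝔾.Str.Obj) (z : 𝔾.F0.M c) : 𝔾.d1.f c (𝔾.d0.f c z) = 0 := by
  have h1 : (𝔾.d1.f c).comp (𝔾.d0.f c) = 0 := by
    refine 𝔾.ext0 fun v => ?_
    rw [LinearMap.comp_apply, 𝔾.d0_e0, LinearMap.zero_apply]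
    unfold s0
    rw [map_sum]
    refine (Finset.sum_congr rfl (fun x _ => 𝔾.d1_e1 c x)).trans ?_
    exact Dv_jump (𝔾.Ob_open c.o) (fun x => 𝔾.e2 c x) v.1 v.2
  exact LinearMap.congr_fun h1 z

theorem dε_d1 (c : 𝔾.Str.Obj) (z : 𝔾.F1.M c) : 𝔾.dε.f c (𝔾.d1.f c z) = (0 : ℚ) := by
  have h1 : (𝔾.dε.f c).comp (𝔾.d1.f c) = 0 := by
    refine 𝔾.ext1 fun v => ?_
    rw [LinearMap.comp_apply, 𝔾.d1_e1, LinearMap.zero_apply, map_sub, 𝔾.dε_e2, 𝔾.dε_e2]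
    exact sub_self (1 : ℚ)
  exact LinearMap.congr_fun h1 z

end FGeo
end C715
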